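import Pool.Agent.HKM.Trans

/-!
Rows A1a, A1c, A3 of MP_f7c501 (machine of a transducer): blank tapes, accepting computations,
all computations halt.
-/

set_option autoImplicit false

namespace Pool.Agent.HKM

open Order Ordinal

variable {x : Rl} {ξ : Ordinal.{0}}

/-- A computation restricted to fewer stages. -/
lemma NMachine.IsComp.mono {T : NMachine} {b : Ordinal.{0} → Conf T.Q} (h : T.IsComp x b ξ)
    {η : Ordinal.{0}} (hη : η ≤ ξ) : T.IsComp x b η :=
  ⟨h.zero, fun γ hγ => h.step γ (hγ.trans_le hη), fun l hl hlim => h.lim l (hl.trans hη) hlim⟩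

/-- The symbol on tape `i` under the head is not changed by the action. -/
lemma Conf.upd_tp_eq {Q : Type} (c : Conf Q) (q : Q) (s : Sym) (d : Dir) (i : Fin 3)
    (h : s i = c.rd i) : (c.upd q s d).tp i = c.tp i := by
  funext n
  show (if n = c.hd then s i else c.tp i n) = c.tp i n
  by_cases hn : n = c.hd
  · rw [if_pos hn, h, hn]; rfl
  · rw [if_neg hn]

/-- The action of the machine of a transducer never changes the scratch tape. -/
lemma Trans.act_one {T : Trans} {q q' : St T.S} {a a' : Sym} {d : Dir}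
    (h : T.machine.act q a q' a' d) : a' 1 = a 1 := by
  rcases h with h | h | h
  · rw [h.2.1]
  · rw [h.2.2.2.1, Function.update_of_ne (by decide)]
  · exact h.2.2.1

/-- If the new state is not the halting state, the output tape is not changed. -/
lemma Trans.act_two {T : Trans} {q q' : St T.S} {a a' : Sym} {d : Dir}
    (h : T.machine.act q a q' a' d) (hq : q' ≠ .halt) : a' 2 = a 2 := by
  rcases h with h | h | h
  · exact absurd h.1 hq
  · exact absurd h.2.2.1 hq
  · exact h.2.2.2.1

theorem Trans.scratch_blank (T : Trans) {x : Rl} {b : Ordinal.{0} → Conf (St T.S)} {ξ : Ordinal.{0}}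
    (h : T.machine.IsComp x b ξ) : ∀ γ ≤ ξ, (b γ).tp 1 = blank := by
  intro γ
  induction γ using Ordinal.limitRecOn with
  | zero =>
    intro _
    rw [h.zero]
    rfl
  | add_one γ ih =>
    intro hγ
    have hlt : γ < ξ := lt_of_lt_of_le (lt_add_of_pos_right γ zero_lt_one) hγ
    obtain ⟨-, q, s, d, hact, heq⟩ := h.step γ hlt
    rw [heq, Conf.upd_tp_eq _ _ _ _ _ (Trans.act_one hact), ih hlt.le]
  | limit l hl ih =>
    intro hle
    obtain ⟨-, -, htp⟩ := h.lim l hle hl
    funext n
    show (b l).tp 1 n = false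
    rw [← Bool.not_eq_true, htp 1 n]
    intro hcon
    obtain ⟨γ', -, hγ', ht⟩ := hcon 0 hl.bot_lt
    rw [ih γ' hγ' (hγ'.le.trans hle)] at ht
    exact absurd ht (by simp [blank])

theorem Trans.output_blank (T : Trans) {x : Rl} {b : Ordinal.{0} → Conf (St T.S)} {ξ : Ordinal.{0}}
    (h : T.machine.IsComp x b ξ) : ∀ γ ≤ ξ, (b γ).st ≠ .halt → (b γ).tp 2 = blank := by
  intro γ
  induction γ using Ordinal.limitRecOn with
  | zero =>
    intro _ _
    rw [h.zero]
    rfl
  | add_one γ ih =>
    intro hγ hst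
    have hlt : γ < ξ := lt_of_lt_of_le (lt_add_of_pos_right γ zero_lt_one) hγ
    obtain ⟨hne, q, s, d, hact, heq⟩ := h.step γ hlt
    have hq : q ≠ .halt := by
      rw [heq] at hst
      exact hst
    rw [heq, Conf.upd_tp_eq _ _ _ _ _ (Trans.act_two hact hq), ih hlt.le hne]
  | limit l hl ih =>
    intro hle _
    obtain ⟨-, -, htp⟩ := h.lim l hle hl
    funext n
    show (b l).tp 2 n = false
    rw [← Bool.not_eq_true, htp 2 n]
    intro hcon
    obtain ⟨γ', -, hγ', ht⟩ := hcon 0 hl.bot_lt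
    rw [ih γ' hγ' (hγ'.le.trans hle) (h.step γ' (hγ'.trans_le hle)).1] at ht
    exact absurd ht (by simp [blank])

/-- The limit state occurs only at limit stages. -/
lemma Trans.isSuccLimit_of_lim (T : Trans) {b : Ordinal.{0} → Conf (St T.S)}
    (h : T.machine.IsComp x b ξ) {γ : Ordinal.{0}} (hγ : γ ≤ ξ) (hst : (b γ).st = .lim) :
    IsSuccLimit γ := by
  rcases zero_or_succ_or_isSuccLimit γ with h0 | ⟨δ, hδ⟩ | hl
  · exfalso
    rw [h0, h.zero] at hst
    exact absurd hst (by
      show (St.start : St T.S) ≠ .lim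
      exact fun hc => nomatch hc)
  · exfalso
    have hδ' : δ + 1 = γ := by rw [← hδ, succ_eq_add_one]
    have hlt : δ < ξ := lt_of_lt_of_le (lt_add_of_pos_right δ zero_lt_one) (hδ' ▸ hγ)
    obtain ⟨-, q, s, d, hact, heq⟩ := h.step δ hlt
    rw [hδ'] at heq
    have hq : q = .lim := by
      rw [heq] at hst
      exact hst
    rcases hact with h1 | h1 | h1
    · rw [hq] at h1; exact absurd h1.1 (fun hc => nomatch hc)
    · rw [hq] at h1; exact absurd h1.2.2.1 (fun hc => nomatch hc)
    · obtain ⟨-, htr, -⟩ := h1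
      rw [hq] at htr
      rcases htr with ⟨_, s', u, u', -, -, -, -, h2⟩ | ⟨s', u, u', i, -, -, -, h2⟩
      · exact nomatch h2
      · by_cases hi : i = 9
        · rw [if_pos hi] at h2; exact nomatch h2
        · rw [if_neg hi] at h2; exact nomatch h2
  · exact hl

/-- An accepting computation stops just after a limit stage at which cell `0` of the input tape
contains `1`. -/
lemma Trans.accept_stage (T : Trans) {b : Ordinal.{0} → Conf (St T.S)}
    (h : T.machine.Branch x b ξ) (ho : (b ξ).Out true) :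
    ∃ β : Ordinal.{0}, β ≠ 0 ∧ T.machine.IsComp x b (ω * β) ∧ (b (ω * β)).tp 0 0 = true := by
  obtain ⟨hc, hst⟩ := h
  have ho0 : (b ξ).tp 2 0 = true := by
    have := ho 0
    simpa using this
  rcases zero_or_succ_or_isSuccLimit ξ with h0 | ⟨δ, hδ⟩ | hl
  · exfalso
    rw [h0, hc.zero] at hst
    exact absurd hst (by
      show (St.start : St T.S) ≠ .halt
      exact fun hc => nomatch hc)
  · have hδ' : δ + 1 = ξ := by rw [← hδ, succ_eq_add_one]
    have hlt : δ < ξ := by rw [← hδ']; exact lt_add_of_pos_right δ zero_lt_one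
    obtain ⟨hne, q, s, d, hact, heq⟩ := hc.step δ hlt
    rw [hδ'] at heq
    have hq : q = .halt := by
      rw [heq] at hst
      exact hst
    have hblank := T.output_blank hc δ hlt.le hne
    rcases hact with h1 | h1 | h1
    · exfalso
      have e : (b ξ).tp 2 = (b δ).tp 2 := by
        rw [heq]
        exact Conf.upd_tp_eq _ _ _ _ _ (congrFun h1.2.1 2)
      rw [e, hblank] at ho0
      exact absurd ho0 (by simp [blank])
    · have hlim := T.isSuccLimit_of_lim hc hlt.le h1.1
      obtain ⟨hne0, hpre⟩ := isSuccLimit_iff.1 hlim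
      obtain ⟨β, hβ⟩ := isSuccPrelimit_iff_omega0_dvd.1 hpre
      have hhd := (hc.lim δ hlt.le hlim).2.1
      refine ⟨β, ?_, ?_, ?_⟩
      · rintro rfl
        exact hne0 (by rw [hβ, mul_zero])
      · rw [← hβ]
        exact hc.mono hlt.le
      · rw [← hβ]
        have h2 : (b δ).tp 0 (b δ).hd = true := h1.2.1
        rw [hhd] at h2
        exact h2
    · exfalso
      obtain ⟨-, htr, -⟩ := h1
      rw [hq] at htr
      rcases htr with ⟨_, s', u, u', -, -, -, -, h2⟩ | ⟨s', u, u', i, -, -, -, h2⟩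
      · exact nomatch h2
      · by_cases hi : i = 9
        · rw [if_pos hi] at h2; exact nomatch h2
        · rw [if_neg hi] at h2; exact nomatch h2
  · exfalso
    have := (hc.lim ξ le_rfl hl).1
    rw [hst] at this
    exact nomatch this

/-- Row A1c, from row A1b. -/
theorem Trans.run_of_accept_of (T : Trans) {x : Rl} {b : Ordinal.{0} → Conf (St T.S)}
    {ξ : Ordinal.{0}}
    (hrun : ∀ β : Ordinal.{0}, T.machine.IsComp x b (ω * β) →
      T.Run x (fun γ => (b (ω * γ)).tp 0) β)
    (h : T.machine.Branch x b ξ) (ho : (b ξ).Out true) :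
    ∃ β V, β ≠ 0 ∧ T.Run x V β ∧ V β 0 = true := by
  obtain ⟨β, h1, h2, h3⟩ := T.accept_stage h ho
  exact ⟨β, fun γ => (b (ω * γ)).tp 0, h1, hrun β h2, h3⟩

/-- Row A3, from row A1b. -/
theorem Trans.allHalt_of (T : Trans) (x : Rl)
    (hrun : ∀ (b : Ordinal.{0} → Conf (St T.S)) (β : Ordinal.{0}),
      T.machine.IsComp x b (ω * β) → T.Run x (fun γ => (b (ω * γ)).tp 0) β)
    (h : ¬ ∃ V, ∀ β, T.Run x V β) : T.machine.AllHalt x := by
  refine ⟨?_, ?_⟩
  · intro b ξ _ _
    exact ⟨_, .halt, (b ξ).rd, .stay, Or.inl ⟨rfl, rfl, rfl⟩, rfl⟩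
  · rintro ⟨b, hb⟩
    exact h ⟨fun γ => (b (ω * γ)).tp 0, fun β => hrun b β (hb _)⟩

end Pool.Agent.HKM
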