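import Pool.Agent.HKM.Trans

/-! # Row A1b: from a computation of the right-moving machine to a run of the transducer -/

set_option autoImplicit false

namespace Pool.Agent.HKM

open Order Ordinal

/-- from the sequence of states inside a sweep to a sweep of the transducer -/
theorem Trans.sweep_of_seq38 (T : Trans) {σ : T.S} (st : ℕ → St T.S) (V W : Rl)
    (hq : ∀ s, T.tst (st 0) s → s = σ) (hm : ∀ s u u' i, st 0 ≠ .mid s u u' i)
    (htr : ∀ n, T.tr (st n) (V n) (st (n + 1)) (W n)) : T.Sweep σ V W := by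
  have ten : ∀ N, (∀ s u u' i, st N ≠ .mid s u u' i) → ∃ s s' u u', T.tst (st N) s ∧
      T.t s u s' u' ∧ (∀ i : Fin 10, u i = V (N + i.val)) ∧
      (∀ i : Fin 10, u' i = W (N + i.val)) ∧ st (N + 10) = .cell s' := by
    intro N hN
    rcases htr N with ⟨s, s', u, u', h1, h2, h3, h4, h5⟩ | ⟨s', u, u', i, h1, _⟩
    swap
    · exact absurd h1 (hN _ _ _ _)
    have hj : ∀ j : ℕ, ∀ hj : j + 1 < 10, st (N + (j + 1)) = .mid s' u u' ⟨j + 1, hj⟩ ∧
        V (N + j) = u ⟨j, by omega⟩ ∧ W (N + j) = u' ⟨j, by omega⟩ := by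
      intro j
      induction j with
      | zero =>
        intro hj
        exact ⟨h5, h3, h4⟩
      | succ j ih =>
        intro hj
        obtain ⟨i1, i2, i3⟩ := ih (by omega)
        rcases htr (N + (j + 1)) with ⟨s1, s1', v, v', g1, _⟩ | ⟨s1', v, v', i, g1, g2, g3, g4⟩
        · rw [i1] at g1
          exact g1.elim
        · rw [i1] at g1
          injection g1 with e1 e2 e3 e4
          subst e1 e2 e3 e4
          refine ⟨?_, g2, g3⟩
          rw [show N + (j + 1 + 1) = N + (j + 1) + 1 by ring, g4, if_neg]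
          · congr 1
            apply Fin.ext
            rw [Fin.val_add]
            show (j + 1 + 1) % 10 = j + 1 + 1
            exact Nat.mod_eq_of_lt hj
          · intro h9
            have := congrArg Fin.val h9
            simp at this
            omega
    obtain ⟨k1, k2, k3⟩ := hj 8 (by omega)
    have hlast : V (N + 9) = u 9 ∧ W (N + 9) = u' 9 ∧ st (N + 10) = .cell s' := by
      rcases htr (N + 9) with ⟨s1, s1', v, v', g1, _⟩ | ⟨s1', v, v', i, g1, g2, g3, g4⟩
      · rw [k1] at g1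
        exact g1.elim
      · rw [k1] at g1
        injection g1 with e1 e2 e3 e4
        subst e1 e2 e3 e4
        refine ⟨g2, g3, ?_⟩
        rw [show N + 10 = N + 9 + 1 by ring, g4, if_pos]
        rfl
    refine ⟨s, s', u, u', h1, h2, ?_, ?_, hlast.2.2⟩
    · intro i
      rcases i with ⟨i, hi⟩
      rcases Nat.lt_or_ge (i + 1) 10 with h | h
      · exact (hj i h).2.1.symm
      · have : i = 9 := by omega
        subst this
        exact hlast.1.symm
    · intro i
      rcases i with ⟨i, hi⟩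
      rcases Nat.lt_or_ge (i + 1) 10 with h | h
      · exact (hj i h).2.2.symm
      · have : i = 9 := by omega
        subst this
        exact hlast.2.1.symm
  have hcell : ∀ p, ∀ s u u' i, st (10 * p) ≠ .mid s u u' i := by
    intro p
    induction p with
    | zero => exact hm
    | succ p ih =>
      intro s u u' i hc
      obtain ⟨_, s', _, _, _, _, _, _, h⟩ := ten (10 * p) ih
      rw [show 10 * (p + 1) = 10 * p + 10 by ring, h] at hc
      cases hc
  choose s s' u u' h1 h2 h3 h4 h5 using fun p => ten (10 * p) (hcell p)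
  refine ⟨s, hq _ (h1 0), fun p => ?_⟩
  have e1 : s (p + 1) = s' p := by
    have := h1 (p + 1)
    rw [show 10 * (p + 1) = 10 * p + 10 by ring, h5 p] at this
    exact this
  have e2 : cell V p = u p := by
    funext i
    exact (h3 p i).symm
  have e3 : cell W p = u' p := by
    funext i
    exact (h4 p i).symm
  rw [e1, e2, e3]
  exact h2 p

section

variable (T : Trans) {x : Rl} {b : Ordinal.{0} → Conf (St T.S)} {β : Ordinal.{0}}

theorem lt_mul38 {γ β : Ordinal.{0}} (h : γ < β) (n : ℕ) : ω * γ + (n : Ordinal.{0}) < ω * β := by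
  have h1 : ω * γ + (n : Ordinal.{0}) < ω * (succ γ) := by
    rw [mul_succ]
    exact (add_lt_add_iff_left _).2 (natCast_lt_omega0 n)
  exact h1.trans_le (mul_le_mul_right (succ_le_of_lt h) _)

/-- one step inside a sweep -/
theorem Trans.step38 (h : T.machine.IsComp x b (ω * β)) {γ : Ordinal.{0}} (hγ : γ < β) (n : ℕ) :
    ¬ ((b (ω * γ + n)).st = .lim ∧ (b (ω * γ + n)).rd 0 = true) ∧
    T.tr (b (ω * γ + n)).st ((b (ω * γ + n)).rd 0) (b (ω * γ + (n + 1 : ℕ))).st
      ((b (ω * γ + (n + 1 : ℕ))).tp 0 (b (ω * γ + n)).hd) ∧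
    (b (ω * γ + (n + 1 : ℕ))).hd = (b (ω * γ + n)).hd + 1 ∧
    ∀ m, m ≠ (b (ω * γ + n)).hd →
      (b (ω * γ + (n + 1 : ℕ))).tp 0 m = (b (ω * γ + n)).tp 0 m := by
  have hs := h.step (ω * γ + n) (lt_mul38 hγ n)
  have hs' := h.step (ω * γ + (n + 1 : ℕ)) (lt_mul38 hγ (n + 1))
  have e : ω * γ + (n : Ordinal.{0}) + 1 = ω * γ + ((n + 1 : ℕ) : Ordinal.{0}) := by
    rw [add_assoc, Nat.cast_succ]
  obtain ⟨_, q, a, d, hact, hb⟩ := hs
  rw [e] at hb
  rcases hact with ⟨h1, _, _⟩ | ⟨_, _, h1, _, _⟩ | ⟨h1, h2, _, _, h3⟩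
  · exact absurd (by rw [hb]; exact h1) hs'.1
  · exact absurd (by rw [hb]; exact h1) hs'.1
  · subst h3
    refine ⟨h1, ?_, ?_, ?_⟩
    · rw [hb]
      show T.tr (b (ω * γ + n)).st ((b (ω * γ + n)).rd 0) q
        (if (b (ω * γ + n)).hd = (b (ω * γ + n)).hd then a 0 else
          (b (ω * γ + n)).tp 0 (b (ω * γ + n)).hd)
      rw [if_pos rfl]
      exact h2
    · rw [hb]
      rfl
    · intro m hm
      rw [hb]
      show (if m = (b (ω * γ + n)).hd then a 0 else (b (ω * γ + n)).tp 0 m) = _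
      rw [if_neg hm]

theorem Trans.hd38 (h : T.machine.IsComp x b (ω * β)) {γ : Ordinal.{0}} (hγ : γ < β) (n : ℕ) :
    (b (ω * γ + n)).hd = n := by
  induction n with
  | zero =>
    rw [Nat.cast_zero, add_zero]
    rcases eq_or_ne γ 0 with rfl | h0
    · rw [mul_zero, h.zero]
      rfl
    · exact (h.lim (ω * γ) (mul_le_mul_right hγ.le _)
        (isSuccLimit_mul_left isSuccLimit_omega0 (pos_iff_ne_zero.2 h0))).2.1
  | succ n ih =>
    rw [(T.step38 h hγ n).2.2.1, ih]

/-- cells to the right of the head are old -/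
theorem Trans.old38 (h : T.machine.IsComp x b (ω * β)) {γ : Ordinal.{0}} (hγ : γ < β) {n m : ℕ}
    (hm : n ≤ m) : (b (ω * γ + n)).tp 0 m = (b (ω * γ)).tp 0 m := by
  induction n with
  | zero => rw [Nat.cast_zero, add_zero]
  | succ n ih =>
    rw [(T.step38 h hγ n).2.2.2 m (by rw [T.hd38 h hγ]; omega), ih (by omega)]

/-- cells to the left of the head do not change any more -/
theorem Trans.new38 (h : T.machine.IsComp x b (ω * β)) {γ : Ordinal.{0}} (hγ : γ < β) {n m : ℕ}
    (hm : m < n) : (b (ω * γ + n)).tp 0 m = (b (ω * γ + (m + 1 : ℕ))).tp 0 m := by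
  obtain ⟨k, rfl⟩ := Nat.exists_eq_add_of_lt hm
  induction k with
  | zero => rfl
  | succ k ih =>
    rw [show m + (k + 1) + 1 = m + k + 1 + 1 by ring,
      (T.step38 h hγ (m + k + 1)).2.2.2 m (by rw [T.hd38 h hγ]; omega)]
    exact ih (by omega)

theorem lim_succ38 (γ : Ordinal.{0}) : IsSuccLimit (ω * (γ + 1)) :=
  isSuccLimit_mul_left isSuccLimit_omega0 ((bot_le : (0 : Ordinal.{0}) ≤ γ).trans_lt (lt_add_one γ))

/-- the content at the end of the sweep -/
theorem Trans.end38 (h : T.machine.IsComp x b (ω * β)) {γ : Ordinal.{0}} (hγ : γ < β) (m : ℕ) :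
    (b (ω * (γ + 1))).tp 0 m = (b (ω * γ + (m + 1 : ℕ))).tp 0 m := by
  have hle : γ + 1 ≤ β := add_one_le_of_lt hγ
  have hl := (h.lim (ω * (γ + 1)) (mul_le_mul_right hle _) (lim_succ38 γ)).2.2 0 m
  have hlt : ∀ n : ℕ, ω * γ + (n : Ordinal.{0}) < ω * (γ + 1) := fun n =>
    lt_mul38 (lt_add_one γ) n
  rw [Bool.eq_iff_iff, hl]
  constructor
  · intro h1
    obtain ⟨δ, h2, h3, h4⟩ := h1 (ω * γ + (m + 1 : ℕ)) (hlt _)
    obtain ⟨n, hn⟩ : ∃ n : ℕ, δ = ω * γ + n := by
      obtain ⟨r, hr⟩ := exists_add_of_le (le_self_add.trans h2)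
      have : r < ω := by
        rw [hr, mul_add_one] at h3
        exact (add_lt_add_iff_left _).1 h3
      obtain ⟨n, rfl⟩ := lt_omega0.1 this
      exact ⟨n, hr⟩
    subst hn
    have hmn : m < n := by
      have := (add_le_add_iff_left _).1 h2
      have := Nat.cast_le.1 this
      omega
    rw [T.new38 h hγ hmn] at h4
    exact h4
  · intro h1 δ hδ
    obtain ⟨q, hq, r, hr, rfl⟩ := lt_mul_iff.1 hδ
    obtain ⟨n, rfl⟩ := lt_omega0.1 hr
    refine ⟨ω * γ + (max n (m + 1) : ℕ), ?_, hlt _, ?_⟩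
    · have hq' : q ≤ γ := lt_add_one_iff.1 hq
      exact add_le_add (mul_le_mul_right hq' _) (Nat.cast_le.2 (le_max_left _ _))
    · rw [T.new38 h hγ (show m < max n (m + 1) by omega)]
      exact h1

/-- one sweep -/
theorem Trans.sweep38 (h : T.machine.IsComp x b (ω * β)) {γ : Ordinal.{0}} (hγ : γ < β) {σ : T.S}
    (hq : ∀ s, T.tst (b (ω * γ)).st s → s = σ)
    (hm : ∀ s u u' i, (b (ω * γ)).st ≠ .mid s u u' i) :
    T.Sweep σ ((b (ω * γ)).tp 0) ((b (ω * (γ + 1))).tp 0) := by
  refine T.sweep_of_seq38 (fun n => (b (ω * γ + n)).st) _ _ ?_ ?_ ?_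
  · intro s hs
    apply hq
    simpa using hs
  · intro s u u' i hs
    apply hm s u u' i
    simpa using hs
  · intro n
    have h1 := (T.step38 h hγ n).2.1
    rw [T.hd38 h hγ, ← T.end38 h hγ] at h1
    have e : (b (ω * γ + n)).rd 0 = (b (ω * γ)).tp 0 n := by
      show (b (ω * γ + n)).tp 0 (b (ω * γ + n)).hd = _
      rw [T.hd38 h hγ, T.old38 h hγ le_rfl]
    rw [e] at h1
    exact h1

/-- A1b -/
theorem Trans.run_of_comp (h : T.machine.IsComp x b (ω * β)) :
    T.Run x (fun γ => (b (ω * γ)).tp 0) β := by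
  refine ⟨?_, ?_, ?_, ?_⟩
  · show (b (ω * 0)).tp 0 = x
    rw [mul_zero, h.zero]
    rfl
  · intro h0
    have h1 := T.sweep38 h h0 (σ := T.s0) (by
      intro s hs
      rw [mul_zero, h.zero] at hs
      exact hs) (by
      intro s u u' i hs
      rw [mul_zero, h.zero] at hs
      cases hs)
    rw [zero_add] at h1
    exact h1
  · intro γ hγ h0
    have hl := h.lim (ω * γ) (mul_le_mul_right hγ.le _)
      (isSuccLimit_mul_left isSuccLimit_omega0 (pos_iff_ne_zero.2 h0))
    refine ⟨?_, ?_⟩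
    · have h1 := (T.step38 h hγ 0).1
      rw [Nat.cast_zero, add_zero] at h1
      have h2 : (b (ω * γ)).rd 0 = (b (ω * γ)).tp 0 0 := by
        show (b (ω * γ)).tp 0 (b (ω * γ)).hd = _
        rw [hl.2.1]
      rw [h2] at h1
      have : (b (ω * γ)).tp 0 0 ≠ true := fun h3 => h1 ⟨hl.1, h3⟩
      exact Bool.eq_false_iff.2 this
    · exact T.sweep38 h hγ (σ := T.s1) (by
        intro s hs
        rw [hl.1] at hs
        exact hs) (by
        intro s u u' i hs
        rw [hl.1] at hs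
        cases hs)
  · intro l hl hsl n
    have hl0 : 0 < l := hsl.bot_lt
    have h1 := (h.lim (ω * l) (mul_le_mul_right hl _) (isSuccLimit_mul_left isSuccLimit_omega0 hl0)).2.2 0 n
    show (b (ω * l)).tp 0 n = true ↔ _
    rw [h1]
    constructor
    · intro h2 γ hγ
      obtain ⟨δ, h3, h4, h5⟩ := h2 (ω * γ) ((mul_lt_mul_iff_right₀ omega0_pos).2 hγ)
      obtain ⟨q, hq, r, hr, rfl⟩ := lt_mul_iff.1 h4
      obtain ⟨m, rfl⟩ := lt_omega0.1 hr
      have hqγ : γ ≤ q := by
        by_contra hc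
        rw [not_le] at hc
        exact absurd h3 (not_le.2 (lt_mul38 hc m))
      rcases Nat.lt_or_ge n m with hnm | hnm
      · refine ⟨q + 1, hqγ.trans le_self_add, hsl.add_one_lt hq, ?_⟩
        show (b (ω * (q + 1))).tp 0 n = true
        rw [T.end38 h (hq.trans_le hl), ← T.new38 h (hq.trans_le hl) hnm]
        exact h5
      · refine ⟨q, hqγ, hq, ?_⟩
        show (b (ω * q)).tp 0 n = true
        rw [← T.old38 h (hq.trans_le hl) hnm]
        exact h5
    · intro h2 δ hδ
      obtain ⟨q, hq, r, hr, rfl⟩ := lt_mul_iff.1 hδ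
      obtain ⟨m, rfl⟩ := lt_omega0.1 hr
      obtain ⟨γ', h3, h4, h5⟩ := h2 (q + 1) (hsl.add_one_lt hq)
      refine ⟨ω * γ', ?_, (mul_lt_mul_iff_right₀ omega0_pos).2 h4, h5⟩
      have h6 : q < γ' := (lt_add_one q).trans_le h3
      exact (lt_mul38 h6 m).le

end

end Pool.Agent.HKM
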