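import Pool.Agent.HKM.A1a23
import Pool.Agent.HKM.RunComp38

/-!
Rows A1c and A3 of MP_f7c501: accepting computations give runs; all computations halt.
-/

set_option autoImplicit false

namespace Pool.Agent.HKM

open Order Ordinal

/-- Row A1c. -/
theorem Trans.run_of_accept (T : Trans) {x : Rl} {b : Ordinal.{0} → Conf (St T.S)}
    {ξ : Ordinal.{0}} (h : T.machine.Branch x b ξ) (ho : (b ξ).Out true) :
    ∃ β V, β ≠ 0 ∧ T.Run x V β ∧ V β 0 = true :=
  T.run_of_accept_of (fun _ hc => T.run_of_comp hc) h ho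

/-- Row A3. -/
theorem Trans.allHalt (T : Trans) (x : Rl) (h : ¬ ∃ V, ∀ β, T.Run x V β) :
    T.machine.AllHalt x :=
  T.allHalt_of x (fun _ _ hc => T.run_of_comp hc) h

end Pool.Agent.HKM
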