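import Pool.Agent.HKM.Cont

/-!
# Row A2 (helper44): a computation of the machine from a run of the transducer
-/

set_option autoImplicit false

namespace Pool.Agent.HKM

open Order Ordinal

namespace A2

/-- the natural number `δ % ω` -/
noncomputable def rem (δ : Ordinal.{0}) : ℕ :=
  Classical.choose (lt_omega0.1 (mod_lt δ omega0_ne_zero))

theorem rem_spec (δ : Ordinal.{0}) : δ % ω = (rem δ : Ordinal.{0}) :=
  Classical.choose_spec (lt_omega0.1 (mod_lt δ omega0_ne_zero))

theorem split (δ : Ordinal.{0}) : ω * (δ / ω) + (rem δ : Ordinal.{0}) = δ := by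
  rw [← rem_spec]
  exact div_add_mod δ ω

theorem div_split (γ : Ordinal.{0}) (n : ℕ) : (ω * γ + (n : Ordinal.{0})) / ω = γ := by
  rw [mul_add_div _ omega0_ne_zero, div_eq_zero_of_lt (natCast_lt_omega0 n), add_zero]

theorem rem_split (γ : Ordinal.{0}) (n : ℕ) : rem (ω * γ + (n : Ordinal.{0})) = n := by
  have h := rem_spec (ω * γ + (n : Ordinal.{0}))
  rw [mul_add_mod_self, mod_eq_of_lt (natCast_lt_omega0 n)] at h
  exact_mod_cast h.symm

variable {T : Trans}

open Classical in
/-- the state of the machine after `n` steps of the sweep number `γ` -/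
noncomputable def stt (T : Trans) (V : Ordinal.{0} → Rl) (s : Ordinal.{0} → ℕ → T.S) (γ : Ordinal.{0})
    (n : ℕ) : St T.S :=
    if n = 0 then (if γ = 0 then .start else .lim)
    else if h : n % 10 = 0 then .cell (s γ (n / 10))
    else .mid (s γ (n / 10 + 1)) (cell (V γ) (n / 10)) (cell (V (γ + 1)) (n / 10))
      (Fin.mk (n % 10) (Nat.mod_lt _ (by norm_num)))

/-- the configuration of the machine after `n` steps of the sweep number `γ` -/
noncomputable def cf (T : Trans) (V : Ordinal.{0} → Rl) (s : Ordinal.{0} → ℕ → T.S) (γ : Ordinal.{0})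
    (n : ℕ) : Conf (St T.S) :=
  ⟨stt T V s γ n, n, fun i m => if i = 0 then (if m < n then V (γ + 1) m else V γ m) else false⟩

theorem cf_tp0 (V : Ordinal.{0} → Rl) (s : Ordinal.{0} → ℕ → T.S) (γ : Ordinal.{0}) (n m : ℕ) :
    (cf T V s γ n).tp 0 m = if m < n then V (γ + 1) m else V γ m := by
  simp [cf]

theorem cf_tp (V : Ordinal.{0} → Rl) (s : Ordinal.{0} → ℕ → T.S) (γ : Ordinal.{0}) (n m : ℕ)
    (i : Fin 3) (hi : i ≠ 0) : (cf T V s γ n).tp i m = false := by
  simp [cf, hi]

open Classical in
theorem stt_zero (V : Ordinal.{0} → Rl) (s : Ordinal.{0} → ℕ → T.S) (γ : Ordinal.{0}) :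
    stt T V s γ 0 = if γ = 0 then .start else .lim := by
  unfold stt
  rw [if_pos rfl]

theorem stt_ne_halt (V : Ordinal.{0} → Rl) (s : Ordinal.{0} → ℕ → T.S) (γ : Ordinal.{0}) (n : ℕ) :
    stt T V s γ n ≠ .halt := by
  unfold stt
  split_ifs <;> simp

theorem stt_lim {V : Ordinal.{0} → Rl} {s : Ordinal.{0} → ℕ → T.S} {γ : Ordinal.{0}} {n : ℕ}
    (h : stt T V s γ n = .lim) : n = 0 ∧ γ ≠ 0 := by
  unfold stt at h
  split_ifs at h with h1 h2
  exact ⟨h1, h2⟩

theorem stt_cell (V : Ordinal.{0} → Rl) (s : Ordinal.{0} → ℕ → T.S) (γ : Ordinal.{0}) (p : ℕ)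
    (hp : p ≠ 0) : stt T V s γ (10 * p) = .cell (s γ p) := by
  unfold stt
  rw [if_neg (by omega), dif_pos (by omega)]
  congr 2
  omega

theorem stt_mid (V : Ordinal.{0} → Rl) (s : Ordinal.{0} → ℕ → T.S) (γ : Ordinal.{0}) (p : ℕ)
    (i : Fin 10) (hi : i ≠ 0) : stt T V s γ (10 * p + i.val) =
      .mid (s γ (p + 1)) (cell (V γ) p) (cell (V (γ + 1)) p) i := by
  have hi' : i.val ≠ 0 := fun h => hi (Fin.ext h)
  have hi2 := i.isLt
  have h1 : (10 * p + i.val) % 10 = i.val := by omega
  have h2 : (10 * p + i.val) / 10 = p := by omega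
  unfold stt
  rw [if_neg (by omega), dif_neg (by omega)]
  congr 1
  · rw [h2]
  · rw [h2]
  · rw [h2]
  · exact Fin.ext h1

/-- the allowed actions of the machine -/
def act (T : Trans) (q : St T.S) (a : Sym) (q' : St T.S) (a' : Sym) (d : Dir) : Prop :=
    (q' = .halt ∧ a' = a ∧ d = .stay) ∨
    (q = .lim ∧ a 0 = true ∧ q' = .halt ∧ a' = Function.update a 2 true ∧ d = .stay) ∨
    (¬ (q = .lim ∧ a 0 = true) ∧ T.tr q (a 0) q' (a' 0) ∧ a' 1 = a 1 ∧ a' 2 = a 2 ∧ d = .right)

theorem step_of_act {c : Conf (St T.S)} (q : St T.S) (a' : Sym) (d : Dir)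
    (h : act T c.st c.rd q a' d) {c' : Conf (St T.S)} (hc : c' = c.upd q a' d) :
    T.machine.Step c c' := ⟨q, a', d, h, hc⟩

open Classical in
/-- one step inside a sweep -/
theorem step_cf {V : Ordinal.{0} → Rl} {s : Ordinal.{0} → ℕ → T.S} {γ : Ordinal.{0}}
    (hs0 : s γ 0 = if γ = 0 then T.s0 else T.s1)
    (hs : ∀ p, T.t (s γ p) (cell (V γ) p) (s γ (p + 1)) (cell (V (γ + 1)) p))
    (h0 : γ ≠ 0 → V γ 0 = false) (n : ℕ) :
    T.machine.Step (cf T V s γ n) (cf T V s γ (n + 1)) := by
  have hrd0 : (cf T V s γ n).rd 0 = V γ n := by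
    unfold Conf.rd
    rw [cf_tp0]
    simp [cf]
  have hrd1 : (cf T V s γ n).rd 1 = false := cf_tp V s γ n _ 1 (by decide)
  have hrd2 : (cf T V s γ n).rd 2 = false := cf_tp V s γ n _ 2 (by decide)
  let a' : Sym := fun i => if i = 0 then V (γ + 1) n else false
  refine step_of_act (stt T V s γ (n + 1)) a' .right (Or.inr (Or.inr ⟨?_, ?_, ?_, ?_, rfl⟩)) ?_
  · rintro ⟨h1, h2⟩
    obtain ⟨h3, h4⟩ := stt_lim (T := T) (V := V) (s := s) (γ := γ) (n := n) h1
    rw [hrd0, h3, h0 h4] at h2
    exact Bool.false_ne_true h2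
  · have ha' : a' 0 = V (γ + 1) n := rfl
    rw [hrd0, ha']
    change T.tr (stt T V s γ n) _ _ _
    obtain ⟨p, i, hn⟩ : ∃ (p : ℕ) (i : Fin 10), n = 10 * p + i.val :=
      ⟨n / 10, ⟨n % 10, Nat.mod_lt _ (by norm_num)⟩, by simp only; omega⟩
    by_cases hi : i = 0
    · left
      have hn' : n = 10 * p := by rw [hn, hi]; rfl
      refine ⟨s γ p, s γ (p + 1), cell (V γ) p, cell (V (γ + 1)) p, ?_, hs p, ?_, ?_, ?_⟩
      · by_cases hp : p = 0
        · subst hp
          rw [hn', Nat.mul_zero, stt_zero]
          by_cases hγ : γ = 0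
          · rw [if_pos hγ]
            rw [if_pos hγ] at hs0
            exact hs0
          · rw [if_neg hγ]
            rw [if_neg hγ] at hs0
            exact hs0
        · rw [hn', stt_cell _ _ _ _ hp]
          rfl
      · rw [hn']; rfl
      · rw [hn']; rfl
      · rw [hn']
        exact stt_mid V s γ p 1 (by decide)
    · right
      refine ⟨s γ (p + 1), cell (V γ) p, cell (V (γ + 1)) p, i, ?_, ?_, ?_, ?_⟩
      · rw [hn]
        exact stt_mid V s γ p i hi
      · rw [hn]; rfl
      · rw [hn]; rfl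
      · by_cases h9 : i = 9
        · rw [if_pos h9]
          have : n + 1 = 10 * (p + 1) := by
            rw [hn, h9]
            change 10 * p + 9 + 1 = _
            ring
          rw [this, stt_cell _ _ _ _ (by omega)]
        · rw [if_neg h9]
          have hi9 : i.val < 9 := by
            have h1 := i.isLt
            have h2 : i.val ≠ 9 := fun h => h9 (Fin.ext h)
            omega
          have hv : (i + 1).val = i.val + 1 := by
            rw [Fin.val_add]
            change (i.val + 1) % 10 = _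
            omega
          have : n + 1 = 10 * p + (i + 1).val := by rw [hv, hn]; ring
          rw [this]
          refine stt_mid V s γ p (i + 1) (fun h => ?_)
          have h3 := congrArg Fin.val h
          rw [hv] at h3
          exact absurd h3 (Nat.succ_ne_zero _)
  · rw [hrd1]; rfl
  · rw [hrd2]; rfl
  · unfold Conf.upd
    unfold cf
    congr 1
    funext i m
    simp only [a']
    by_cases hi : i = 0
    · subst hi
      simp only [if_true]
      by_cases hm : m = n
      · subst hm
        simp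
      · by_cases hm2 : m < n
        · rw [if_pos (by omega), if_neg hm, if_pos hm2]
        · rw [if_neg (by omega), if_neg hm, if_neg hm2]
    · simp [hi]

end A2

/- A2 -/
theorem Trans.branch_of_run (T : Trans) {x : Rl} {V : Ordinal.{0} → Rl} {β : Ordinal.{0}}
    (h : T.Run x V β) (h0 : β ≠ 0) (h1 : V β 0 = true) :
    ∃ (b : Ordinal.{0} → Conf (St T.S)) (ξ : Ordinal.{0}),
      T.machine.Branch x b ξ ∧ (b ξ).Out true := by
  classical
  have hsw : ∀ γ < β, ∃ s : ℕ → T.S, (s 0 = if γ = 0 then T.s0 else T.s1) ∧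
      ∀ p, T.t (s p) (cell (V γ) p) (s (p + 1)) (cell (V (γ + 1)) p) := by
    intro γ hγ
    by_cases hz : γ = 0
    · subst hz
      obtain ⟨s, hs⟩ := h.first hγ
      refine ⟨s, ?_, ?_⟩
      · rw [if_pos rfl]; exact hs.1
      · have h2 := hs.2
        rw [zero_add]
        exact h2
    · obtain ⟨s, hs⟩ := (h.step γ hγ hz).2
      exact ⟨s, by rw [if_neg hz]; exact hs.1, hs.2⟩
  let s : Ordinal.{0} → ℕ → T.S := fun γ =>
    if hγ : γ < β then Classical.choose (hsw γ hγ) else fun _ => T.s0
  have hs : ∀ γ < β, (s γ 0 = if γ = 0 then T.s0 else T.s1) ∧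
      ∀ p, T.t (s γ p) (cell (V γ) p) (s γ (p + 1)) (cell (V (γ + 1)) p) := by
    intro γ hγ
    have : s γ = Classical.choose (hsw γ hγ) := dif_pos hγ
    rw [this]
    exact Classical.choose_spec (hsw γ hγ)
  let ξ : Ordinal.{0} := ω * β + 1
  let fc : Conf (St T.S) := ⟨.halt, 0, fun i m => if i = 0 then V β m else
    (if i = 2 then decide (m = 0) else false)⟩
  let b : Ordinal.{0} → Conf (St T.S) := fun δ =>
    if δ = ξ then fc else A2.cf T V s (δ / ω) (A2.rem δ)
  have hbξ : b ξ = fc := if_pos rfl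
  have hb : ∀ γ (n : ℕ), ω * γ + (n : Ordinal.{0}) < ξ →
      b (ω * γ + (n : Ordinal.{0})) = A2.cf T V s γ n := by
    intro γ n hlt
    have : b (ω * γ + (n : Ordinal.{0})) = A2.cf T V s ((ω * γ + (n : Ordinal.{0})) / ω)
        (A2.rem (ω * γ + (n : Ordinal.{0}))) := if_neg hlt.ne
    rw [this, A2.div_split, A2.rem_split]
  have hb0 : ∀ γ, ω * γ < ξ → b (ω * γ) = A2.cf T V s γ 0 := by
    intro γ hlt
    have := hb γ 0 (by simpa using hlt)
    simpa using this
  have hlt : ∀ γ < β, ∀ n : ℕ, ω * γ + (n : Ordinal.{0}) < ω * β := by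
    intro γ hγ n
    calc ω * γ + (n : Ordinal.{0}) < ω * γ + ω := by
          rw [add_lt_add_iff_left]; exact natCast_lt_omega0 n
      _ = ω * succ γ := (mul_succ ω γ).symm
      _ ≤ ω * β := mul_le_mul_right (succ_le_of_lt hγ) ω
  have hξ : ω * β < ξ := by
    change ω * β < ω * β + 1
    exact lt_add_of_pos_right _ zero_lt_one
  have hcases : ∀ δ ≤ ω * β, δ = ω * β ∨ ∃ γ < β, ∃ n : ℕ, δ = ω * γ + (n : Ordinal.{0}) := by
    intro δ hδ
    rcases hδ.eq_or_lt with h2 | h2
    · exact Or.inl h2
    · refine Or.inr ⟨δ / ω, (lt_mul_iff_div_lt omega0_ne_zero).1 h2, A2.rem δ, (A2.split δ).symm⟩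
  have hlim : ∀ l ≤ ξ, IsSuccLimit l → T.machine.IsLim b l := by
    intro l hl hll
    have hlne : l ≠ ξ := by
      intro he
      have h2 : IsSuccLimit (succ (ω * β)) := by
        rw [Order.succ_eq_add_one]
        rw [he] at hll
        exact hll
      exact not_isSuccLimit_succ _ h2
    have hlt' : l < ξ := lt_of_le_of_ne hl hlne
    have hle : l ≤ ω * β := Order.lt_add_one_iff.1 hlt'
    have hl0 : l ≠ 0 := hll.ne_bot
    obtain ⟨δ, rfl⟩ := isSuccPrelimit_iff_omega0_dvd.1 hll.isSuccPrelimit
    have hδ0 : δ ≠ 0 := by rintro rfl; simp at hl0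
    have hδβ : δ ≤ β := by
      by_contra hc
      push Not at hc
      exact absurd (lt_of_lt_of_le ((mul_lt_mul_iff_right₀ omega0_pos).2 hc) hle) (lt_irrefl _)
    have hbl := hb0 δ hlt'
    have hval : ∀ ζ < ω * δ, ∃ γ < δ, ∃ n : ℕ, ζ = ω * γ + (n : Ordinal.{0}) ∧
        b ζ = A2.cf T V s γ n := by
      intro ζ hζ
      have h2 : ζ / ω < δ := (lt_mul_iff_div_lt omega0_ne_zero).1 hζ
      refine ⟨ζ / ω, h2, A2.rem ζ, (A2.split ζ).symm, ?_⟩
      have h3 := hb (ζ / ω) (A2.rem ζ) (by rw [A2.split]; exact hζ.trans hlt')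
      rw [A2.split] at h3
      exact h3
    refine ⟨?_, ?_, ?_⟩
    · rw [hbl]
      change A2.stt T V s δ 0 = St.lim
      rw [A2.stt_zero, if_neg hδ0]
    · rw [hbl]; rfl
    · intro i m
      by_cases hi : i = 0
      · subst hi
        rw [hbl, A2.cf_tp0, if_neg (Nat.not_lt_zero m)]
        rcases zero_or_succ_or_isSuccLimit δ with h2 | ⟨ε, h2⟩ | h2
        · exact absurd h2 hδ0
        · have hε : ε < δ := by rw [← h2]; exact lt_succ ε
          have hδε : δ = ε + 1 := by rw [← h2, Order.succ_eq_add_one]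
          constructor
          · intro hV ζ hζ
            obtain ⟨γ, hγ, n, hn, -⟩ := hval ζ hζ
            have hlt2 : ω * ε + ((max n m + 1 : ℕ) : Ordinal.{0}) < ω * δ := by
              calc ω * ε + ((max n m + 1 : ℕ) : Ordinal.{0}) < ω * ε + ω := by
                    rw [add_lt_add_iff_left]; exact natCast_lt_omega0 _
                _ = ω * δ := by rw [← mul_succ, h2]
            refine ⟨ω * ε + ((max n m + 1 : ℕ) : Ordinal.{0}), ?_, hlt2, ?_⟩
            · rw [hn]
              refine add_le_add (mul_le_mul_right ?_ ω) ?_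
              · rw [hδε, Order.lt_add_one_iff] at hγ
                exact hγ
              · exact_mod_cast (le_max_left n m).trans (Nat.le_succ _)
            · rw [hb _ _ (hlt2.trans hlt'), A2.cf_tp0, if_pos (by omega), ← hδε]
              exact hV
          · intro hR
            have hlt2 : ω * ε + ((m + 1 : ℕ) : Ordinal.{0}) < ω * δ := by
              calc ω * ε + ((m + 1 : ℕ) : Ordinal.{0}) < ω * ε + ω := by
                    rw [add_lt_add_iff_left]; exact natCast_lt_omega0 _
                _ = ω * δ := by rw [← mul_succ, h2]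
            obtain ⟨ζ, hz1, hz2, hz3⟩ := hR _ hlt2
            obtain ⟨γ, hγ, n, hn, hbz⟩ := hval ζ hz2
            have hγε : γ = ε := by
              have h5 : ε ≤ ζ / ω := by
                have h6 : (ω * ε + ((m + 1 : ℕ) : Ordinal.{0})) / ω ≤ ζ / ω := by
                  by_contra hc
                  push Not at hc
                  rw [← lt_mul_iff_div_lt omega0_ne_zero, A2.div_split] at hc
                  have h7 : ω * ε ≤ ζ := le_trans (le_self_add) hz1
                  exact absurd (lt_of_lt_of_le hc h7) (lt_irrefl _)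
                rwa [A2.div_split] at h6
              rw [hn, A2.div_split] at h5
              rw [hδε, Order.lt_add_one_iff] at hγ
              exact le_antisymm hγ h5
            have hmn : m < n := by
              rw [hn, hγε] at hz1
              have h8 := (add_le_add_iff_left (ω * ε)).1 hz1
              have h9 : m + 1 ≤ n := by exact_mod_cast h8
              omega
            rw [hbz, A2.cf_tp0, if_pos hmn, hγε, ← hδε] at hz3
            exact hz3
        · have hLS := h.lim δ hδβ h2 m
          rw [hLS]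
          constructor
          · intro hR ζ hζ
            obtain ⟨γ, hγ, n, hn, -⟩ := hval ζ hζ
            obtain ⟨γ', h3, h4, h5⟩ := hR (succ γ) (h2.succ_lt hγ)
            refine ⟨ω * γ', ?_, (mul_lt_mul_iff_right₀ omega0_pos).2 h4, ?_⟩
            · rw [hn]
              calc ω * γ + (n : Ordinal.{0}) ≤ ω * γ + ω := by
                    rw [add_le_add_iff_left]; exact (natCast_lt_omega0 n).le
                _ = ω * succ γ := (mul_succ ω γ).symm
                _ ≤ ω * γ' := mul_le_mul_right h3 ω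
            · rw [hb0 _ (((mul_lt_mul_iff_right₀ omega0_pos).2 h4).trans hlt'), A2.cf_tp0,
                if_neg (Nat.not_lt_zero m)]
              exact h5
          · intro hR γ hγ
            obtain ⟨ζ, hz1, hz2, hz3⟩ := hR (ω * γ) ((mul_lt_mul_iff_right₀ omega0_pos).2 hγ)
            obtain ⟨γ', hγ', n, hn, hbz⟩ := hval ζ hz2
            have hγγ : γ ≤ γ' := by
              by_contra hc
              push Not at hc
              have h5 : ζ < ω * γ := by
                rw [hn]
                calc ω * γ' + (n : Ordinal.{0}) < ω * γ' + ω := by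
                      rw [add_lt_add_iff_left]; exact natCast_lt_omega0 n
                  _ = ω * succ γ' := (mul_succ ω γ').symm
                  _ ≤ ω * γ := mul_le_mul_right (succ_le_of_lt hc) ω
              exact absurd (lt_of_lt_of_le h5 hz1) (lt_irrefl _)
            rw [hbz, A2.cf_tp0] at hz3
            by_cases hmn : m < n
            · rw [if_pos hmn] at hz3
              exact ⟨γ' + 1, hγγ.trans (le_self_add), by
                rw [← Order.succ_eq_add_one]; exact h2.succ_lt hγ', hz3⟩
            · rw [if_neg hmn] at hz3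
              exact ⟨γ', hγγ, hγ', hz3⟩
      · rw [hbl, A2.cf_tp V s δ 0 m i hi]
        constructor
        · intro h3
          exact absurd h3 Bool.false_ne_true
        · intro h3
          obtain ⟨ζ, -, hz2, hz3⟩ := h3 0 (pos_iff_ne_zero.2 hl0)
          obtain ⟨γ, -, n, -, hbz⟩ := hval ζ hz2
          rw [hbz, A2.cf_tp V s γ n m i hi] at hz3
          exact absurd hz3 Bool.false_ne_true
  refine ⟨b, ξ, ⟨⟨?_, ?_, hlim⟩, ?_⟩, ?_⟩
  · -- initial configuration
    have h2 : b 0 = A2.cf T V s 0 0 := by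
      have h3 := hb0 0 (by simp [ξ])
      simpa using h3
    rw [h2]
    unfold A2.cf NMachine.init
    have h3 : A2.stt T V s 0 0 = St.start := by rw [A2.stt_zero, if_pos rfl]
    rw [h3, h.zero]
    congr 1
  · intro δ hδ
    have hδ' : δ ≤ ω * β := Order.lt_add_one_iff.1 hδ
    rcases hcases δ hδ' with rfl | ⟨γ, hγ, n, rfl⟩
    · rw [hb0 β hξ]
      refine ⟨A2.stt_ne_halt (T := T) V s β 0, ?_⟩
      have h3 : b (ω * β + 1) = fc := hbξ
      rw [h3]
      refine A2.step_of_act St.halt (Function.update (A2.cf T V s β 0).rd 2 true) .stay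
        (Or.inr (Or.inl ⟨?_, ?_, rfl, rfl, rfl⟩)) ?_
      · change A2.stt T V s β 0 = St.lim
        rw [A2.stt_zero, if_neg h0]
      · unfold Conf.rd
        rw [A2.cf_tp0]
        simpa [A2.cf] using h1
      · unfold Conf.upd
        simp only [fc]
        congr 1
        funext i m
        by_cases hi : i = 0
        · subst hi
          by_cases hm : m = 0
          · subst hm
            simp [A2.cf, Conf.rd]
          · simp [A2.cf, hm]
        · by_cases hi2 : i = 2
          · subst hi2
            by_cases hm : m = 0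
            · subst hm
              simp [A2.cf]
            · simp [A2.cf, hm]
          · by_cases hm : m = 0
            · subst hm
              simp [A2.cf, Conf.rd, hi, hi2]
            · simp [A2.cf, hm, hi, hi2]
    · have h2 := hlt γ hγ n
      have h3 := hlt γ hγ (n + 1)
      have h4 : ω * γ + (n : Ordinal.{0}) + 1 = ω * γ + ((n + 1 : ℕ) : Ordinal.{0}) := by
        push_cast
        rw [add_assoc]
      rw [h4, hb γ n (h2.trans hξ), hb γ (n + 1) (h3.trans hξ)]
      refine ⟨A2.stt_ne_halt (T := T) V s γ n, ?_⟩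
      exact A2.step_cf (hs γ hγ).1 (hs γ hγ).2 (fun hz => (h.step γ hγ hz).1) n
  · rw [hbξ]; rfl
  · rw [hbξ]
    intro n
    change (if (2 : Fin 3) = 0 then V β n else if (2 : Fin 3) = 2 then decide (n = 0) else false) = _
    simp

end Pool.Agent.HKM
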