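import Mathlib

/-!
Row (a) of P10 (MP_f7c501_lc): sets decided by deterministic transfinite machines with lim sup
limits are Delta^1_2 (boldface).  Machine independent.  helper70.
-/

namespace Pool.Agent.HKM

open MeasureTheory Set Order

/-- An abstract transfinite machine: configurations `C`, countably many cells `K`. -/
structure AMach (C K : Type) where
  step : C → C
  cell : K → C → Bool
  mkLim : (K → Bool) → C

variable {C K : Type}

open Classical in
/-- `r` is the run from `c0` up to stage `θ`. -/
def IsRunTo (M : AMach C K) (c0 : C) (θ : Ordinal.{0}) (r : Ordinal.{0} → C) : Prop :=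
  r 0 = c0 ∧ (∀ a < θ, r (succ a) = M.step (r a)) ∧
    ∀ a ≤ θ, IsSuccLimit a →
      r a = M.mkLim (fun k => decide (∀ b < a, ∃ c, b < c ∧ c < a ∧ M.cell k (r c) = true))

open Classical in
/-- A run along a strict weak order on `ℕ`. -/
structure LocRun (M : AMach C K) (c0 : C) (w : ℕ → ℕ → Bool) (ρ : ℕ → C) : Prop where
  asym : ∀ i j, w i j = true → w j i = false
  neg : ∀ i j k, w i j = true → w i k = true ∨ w k j = true
  bot : ∀ i, (∀ j, w j i = false) → ρ i = c0
  suc : ∀ i j, w j i = true → (∀ k, w j k = false ∨ w k i = false) → ρ i = M.step (ρ j)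
  lim : ∀ i, (∃ j, w j i = true) → (∀ j, w j i = true → ∃ k, w j k = true ∧ w k i = true) →
    ρ i = M.mkLim (fun k => decide (∀ j, w j i = true →
      ∃ l, w j l = true ∧ w l i = true ∧ M.cell k (ρ l) = true))

theorem LocRun.trans {M : AMach C K} {c0 : C} {w : ℕ → ℕ → Bool} {ρ : ℕ → C}
    (h : LocRun M c0 w ρ) {i j k : ℕ} (h1 : w i j = true) (h2 : w j k = true) :
    w i k = true := by
  rcases h.neg j k i h2 with h3 | h3
  · have := h.asym i j h1
    rw [h3] at this
    exact absurd this (by simp)
  · exact h3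

/-- The local run follows the real run. -/
theorem LocRun.eq_run {M : AMach C K} {c0 : C} {w : ℕ → ℕ → Bool} {ρ : ℕ → C}
    (h : LocRun M c0 w ρ) [hW : IsWellFounded ℕ (fun i j => w i j = true)] (i0 : ℕ)
    {r : Ordinal.{0} → C} {θ : Ordinal.{0}} (hr : IsRunTo M c0 θ r)
    (hθ : IsWellFounded.rank (fun i j => w i j = true) i0 ≤ θ) :
    ∀ i, (w i i0 = true ∨ i = i0) → ρ i = r (IsWellFounded.rank (fun i j => w i j = true) i) := by
  classical
  set R : ℕ → ℕ → Prop := fun i j => w i j = true with hR
  set rk : ℕ → Ordinal.{0} := fun i => IsWellFounded.rank R i with hrk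
  have F1 : ∀ j i, w j i = true → rk j < rk i := fun j i hji =>
    IsWellFounded.rank_lt_of_rel (r := R) hji
  have F2 : ∀ j i, rk j < rk i → w j i = true := by
    intro j i hji
    by_contra hn
    have hle : rk i ≤ rk j := by
      change IsWellFounded.rank R i ≤ rk j
      rw [IsWellFounded.rank_eq]
      apply Ordinal.iSup_le
      rintro ⟨k, hk⟩
      have hk' : w k i = true := hk
      rw [Order.succ_le_iff]
      rcases h.neg k i j hk' with h1 | h1
      · exact F1 _ _ h1
      · exact absurd h1 hn
    exact absurd hji (not_lt.2 hle)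
  have F3 : ∀ i a, a < rk i → ∃ j, rk j = a ∧ w j i = true := by
    intro i a ha
    obtain ⟨j, hj⟩ := IsWellFounded.mem_range_rank_of_le (r := R) (a := i) ha.le
    have hj' : rk j = a := hj
    exact ⟨j, hj', F2 j i (by rw [hj']; exact ha)⟩
  have hle : ∀ i, (w i i0 = true ∨ i = i0) → rk i ≤ θ := by
    rintro i (hi | rfl)
    · exact (F1 _ _ hi).le.trans hθ
    · exact hθ
  intro i
  induction i using IsWellFounded.induction R with
  | ind i ih =>
    intro hi
    have hbelow : ∀ j, w j i = true → ρ j = r (rk j) := by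
      intro j hj
      refine ih j hj (Or.inl ?_)
      rcases hi with hi | rfl
      · exact h.trans hj hi
      · exact hj
    change ρ i = r (rk i)
    rcases Ordinal.zero_or_succ_or_isSuccLimit (rk i) with h0 | ⟨a, ha⟩ | hlim
    · rw [h0, hr.1]
      apply h.bot
      intro j
      by_contra hj
      have hj' : w j i = true := by simpa using hj
      have := F1 j i hj'
      rw [h0] at this
      exact absurd this (not_lt.2 bot_le)
    · obtain ⟨j, hj, hji⟩ := F3 i a (by rw [← ha]; exact Order.lt_succ a)
      have e1 : ρ i = M.step (ρ j) := by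
        apply h.suc i j hji
        intro k
        by_contra hk
        push Not at hk
        obtain ⟨hk1, hk2⟩ := hk
        have k1 := F1 _ _ (by simpa using hk1 : w j k = true)
        have k2 := F1 _ _ (by simpa using hk2 : w k i = true)
        rw [← ha] at k2
        rw [hj] at k1
        exact absurd (Order.lt_succ_iff.1 k2) (not_le.2 k1)
      rw [e1, hbelow j hji, hj, ← ha]
      symm
      apply hr.2.1
      have := hle i hi
      rw [← ha] at this
      exact lt_of_lt_of_le (Order.lt_succ a) this
    · have e1 := h.lim i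
        (by
          obtain ⟨j, _, hj⟩ := F3 i 0 hlim.bot_lt
          exact ⟨j, hj⟩)
        (by
          intro j hj
          obtain ⟨k, hk, hki⟩ := F3 i (succ (rk j)) (hlim.succ_lt (F1 j i hj))
          exact ⟨k, F2 _ _ (by rw [hk]; exact Order.lt_succ _), hki⟩)
      rw [e1, hr.2.2 (rk i) (hle i hi) hlim]
      congr 1
      funext k
      rw [decide_eq_decide]
      constructor
      · intro H b hb
        obtain ⟨j, hj, hji⟩ := F3 i b hb
        obtain ⟨l, h1, h2, h3⟩ := H j hji
        refine ⟨rk l, ?_, F1 _ _ h2, ?_⟩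
        · rw [← hj]
          exact F1 _ _ h1
        · rw [← hbelow l h2]
          exact h3
      · intro H j hj
        obtain ⟨c, h1, h2, h3⟩ := H (rk j) (F1 _ _ hj)
        obtain ⟨l, hl, hli⟩ := F3 i c h2
        refine ⟨l, F2 _ _ (by rw [hl]; exact h1), hli, ?_⟩
        rw [hbelow l hli, hl]
        exact h3

/-- Every run restricts to a local run along a countable set of stages. -/
theorem exists_locRun {M : AMach C K} [Countable K] {c0 : C} {θ : Ordinal.{0}}
    {r : Ordinal.{0} → C} (hr : IsRunTo M c0 θ r) :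
    ∃ (w : ℕ → ℕ → Bool) (ρ : ℕ → C) (i0 : ℕ), LocRun M c0 w ρ ∧
      WellFounded (fun i j => w i j = true) ∧ ρ i0 = r θ ∧
      ∀ j, w j i0 = true → ∃ a < θ, ρ j = r a := by
  classical
  -- the closure functions
  let bnd : Ordinal.{0} → K → Ordinal.{0} := fun s k =>
    if h : ∃ b < s, ∀ c, b < c → c < s → M.cell k (r c) = false then h.choose else 0
  let wit : Ordinal.{0} → Ordinal.{0} → K → Ordinal.{0} := fun s t k =>
    if h : ∃ c, t < c ∧ c < s ∧ M.cell k (r c) = true then h.choose else 0
  let F : Set Ordinal.{0} → Set Ordinal.{0} := fun A =>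
    A ∪ (fun a => min (succ a) θ) '' A ∪ Ordinal.pred '' A ∪ (⋃ k, (fun s => bnd s k) '' A) ∪
      ⋃ k, Set.image2 (fun s t => wit s t k) A A
  let S : Set Ordinal.{0} := ⋃ n : ℕ, F^[n] {0, θ}
  have hFc : ∀ A : Set Ordinal.{0}, A.Countable → (F A).Countable := by
    intro A hA
    refine (((hA.union (hA.image _)).union (hA.image _)).union ?_).union ?_
    · exact Set.countable_iUnion fun k => hA.image _
    · exact Set.countable_iUnion fun k => hA.image2 hA _
  have hSc : S.Countable := by
    refine Set.countable_iUnion fun n => ?_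
    induction n with
    | zero => exact (Set.countable_singleton θ).insert 0
    | succ n ih =>
      rw [Function.iterate_succ_apply']
      exact hFc _ ih
  have hsub : ∀ A : Set Ordinal.{0}, A ⊆ F A := fun A x hx =>
    Or.inl (Or.inl (Or.inl (Or.inl hx)))
  have hmono : ∀ n m, n ≤ m → F^[n] ({0, θ} : Set Ordinal.{0}) ⊆ F^[m] {0, θ} := by
    intro n m hnm
    induction m, hnm using Nat.le_induction with
    | base => exact subset_rfl
    | succ m _ ih =>
      rw [Function.iterate_succ_apply']
      exact ih.trans (hsub _)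
  have hbndle : ∀ s k, bnd s k ≤ s := by
    intro s k
    simp only [bnd]
    split_ifs with h
    · exact h.choose_spec.1.le
    · exact bot_le
  have hwitle : ∀ s t k, wit s t k ≤ s := by
    intro s t k
    simp only [wit]
    split_ifs with h
    · exact h.choose_spec.2.1.le
    · exact bot_le
  have hFle : ∀ A : Set Ordinal.{0}, (∀ a ∈ A, a ≤ θ) → ∀ a ∈ F A, a ≤ θ := by
    intro A hA a ha
    rcases ha with (((ha | ha) | ha) | ha) | ha
    · exact hA a ha
    · obtain ⟨b, hb, rfl⟩ := ha
      exact min_le_right _ _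
    · obtain ⟨b, hb, rfl⟩ := ha
      exact (Ordinal.pred_le_self b).trans (hA b hb)
    · obtain ⟨k, b, hb, rfl⟩ := Set.mem_iUnion.1 ha
      exact (hbndle b k).trans (hA b hb)
    · obtain ⟨k, b, hb, c, hc, rfl⟩ := Set.mem_iUnion.1 ha
      exact (hwitle b c k).trans (hA b hb)
  have hSle : ∀ a ∈ S, a ≤ θ := by
    intro a ha
    obtain ⟨n, hn⟩ := Set.mem_iUnion.1 ha
    have : ∀ n, ∀ a ∈ F^[n] ({0, θ} : Set Ordinal.{0}), a ≤ θ := by
      intro n
      induction n with
      | zero =>
        intro a ha
        rcases ha with rfl | ha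
        · exact bot_le
        · rw [Set.mem_singleton_iff] at ha
          exact ha.le
      | succ n ih =>
        rw [Function.iterate_succ_apply']
        exact hFle _ ih
    exact this n a hn
  have h0S : (0 : Ordinal.{0}) ∈ S := Set.mem_iUnion.2 ⟨0, Or.inl rfl⟩
  have hθS : θ ∈ S := Set.mem_iUnion.2 ⟨0, Or.inr rfl⟩
  have hstep : ∀ n a, a ∈ F (F^[n] ({0, θ} : Set Ordinal.{0})) → a ∈ S := by
    intro n a ha
    refine Set.mem_iUnion.2 ⟨n + 1, ?_⟩
    rw [Function.iterate_succ_apply']
    exact ha
  have hsucS : ∀ a ∈ S, a < θ → succ a ∈ S := by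
    intro a ha haθ
    obtain ⟨n, hn⟩ := Set.mem_iUnion.1 ha
    refine hstep n _ (Or.inl (Or.inl (Or.inl (Or.inr ⟨a, hn, ?_⟩))))
    exact min_eq_left (Order.succ_le_of_lt haθ)
  have hpreS : ∀ a ∈ S, Ordinal.pred a ∈ S := by
    intro a ha
    obtain ⟨n, hn⟩ := Set.mem_iUnion.1 ha
    exact hstep n _ (Or.inl (Or.inl (Or.inr ⟨a, hn, rfl⟩)))
  have hbndS : ∀ a ∈ S, ∀ k, bnd a k ∈ S := by
    intro a ha k
    obtain ⟨n, hn⟩ := Set.mem_iUnion.1 ha
    exact hstep n _ (Or.inl (Or.inr (Set.mem_iUnion.2 ⟨k, a, hn, rfl⟩)))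
  have hwitS : ∀ a ∈ S, ∀ b ∈ S, ∀ k, wit a b k ∈ S := by
    intro a ha b hb k
    obtain ⟨n, hn⟩ := Set.mem_iUnion.1 ha
    obtain ⟨m, hm⟩ := Set.mem_iUnion.1 hb
    refine hstep (max n m) _ (Or.inr (Set.mem_iUnion.2 ⟨k, a, ?_, b, ?_, rfl⟩))
    · exact hmono _ _ (le_max_left _ _) hn
    · exact hmono _ _ (le_max_right _ _) hm
  obtain ⟨e, he⟩ := hSc.exists_eq_range ⟨0, h0S⟩
  have heS : ∀ i, e i ∈ S := fun i => by rw [he]; exact Set.mem_range_self i
  have hSe : ∀ a ∈ S, ∃ i, e i = a := fun a ha => by rw [he] at ha; exact ha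
  obtain ⟨i0, hi0⟩ := hSe θ hθS
  refine ⟨fun i j => decide (e i < e j), fun i => r (e i), i0, ?_, ?_, ?_, ?_⟩
  · refine ⟨?_, ?_, ?_, ?_, ?_⟩
    · intro i j hij
      simp only [decide_eq_true_eq, decide_eq_false_iff_not, not_lt] at hij ⊢
      exact hij.le
    · intro i j k hij
      simp only [decide_eq_true_eq] at hij ⊢
      rcases lt_or_ge (e i) (e k) with h1 | h1
      · exact Or.inl h1
      · exact Or.inr (h1.trans_lt hij)
    · intro i hi
      obtain ⟨j, hj⟩ := hSe 0 h0S
      have := hi j
      simp only [decide_eq_false_iff_not, not_lt, hj] at this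
      have h0 : e i = 0 := le_antisymm this bot_le
      simp only [h0]
      exact hr.1
    · intro i j hji hk
      simp only [decide_eq_true_eq] at hji
      have hjθ : e j < θ := hji.trans_le (hSle _ (heS i))
      obtain ⟨k, hk'⟩ := hSe _ (hsucS _ (heS j) hjθ)
      have hki : e i = succ (e j) := by
        apply le_antisymm
        · rcases hk k with h1 | h1
          · simp only [decide_eq_false_iff_not, not_lt, hk'] at h1
            exact absurd h1 (not_le.2 (Order.lt_succ _))
          · simp only [decide_eq_false_iff_not, not_lt, hk'] at h1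
            exact h1
        · exact Order.succ_le_of_lt hji
      simp only [hki]
      exact hr.2.1 _ hjθ
    · rintro i ⟨j, hj⟩ hbetw
      simp only [decide_eq_true_eq] at hj hbetw
      have hlim : IsSuccLimit (e i) := by
        rcases Ordinal.zero_or_succ_or_isSuccLimit (e i) with h0 | ⟨a, ha⟩ | hlim
        · rw [h0] at hj
          exact absurd hj (not_lt.2 bot_le)
        · exfalso
          obtain ⟨j', hj'⟩ := hSe _ (hpreS _ (heS i))
          have e1 : Ordinal.pred (e i) = a := by
            rw [← ha]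
            exact Ordinal.pred_add_one a
          rw [e1] at hj'
          obtain ⟨k, h1, h2⟩ := hbetw j' (by rw [hj', ← ha]; exact Order.lt_succ a)
          rw [hj'] at h1
          rw [← ha] at h2
          exact absurd (Order.lt_succ_iff.1 h2) (not_le.2 h1)
        · exact hlim
      have h1 := hr.2.2 (e i) (hSle _ (heS i)) hlim
      simp only [h1]
      congr 1
      funext k
      rw [decide_eq_decide]
      constructor
      · intro H j hj
        simp only [decide_eq_true_eq] at hj ⊢
        have hw : ∃ c, e j < c ∧ c < e i ∧ M.cell k (r c) = true := H (e j) hj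
        have hwd : wit (e i) (e j) k = hw.choose := by
          simp only [wit]
          rw [dif_pos hw]
        obtain ⟨l, hl⟩ := hSe _ (hwitS _ (heS i) _ (heS j) k)
        rw [hwd] at hl
        refine ⟨l, ?_, ?_, ?_⟩
        · rw [hl]; exact hw.choose_spec.1
        · rw [hl]; exact hw.choose_spec.2.1
        · rw [hl]; exact hw.choose_spec.2.2
      · intro H
        by_contra hn
        push Not at hn
        obtain ⟨b, hb, hbc⟩ := hn
        have hw : ∃ b < e i, ∀ c, b < c → c < e i → M.cell k (r c) = false := by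
          refine ⟨b, hb, fun c h1 h2 => ?_⟩
          have := hbc c h1 h2
          simpa using this
        have hwd : bnd (e i) k = hw.choose := by
          simp only [bnd]
          rw [dif_pos hw]
        obtain ⟨j, hj⟩ := hSe _ (hbndS _ (heS i) k)
        rw [hwd] at hj
        have hji : e j < e i := by rw [hj]; exact hw.choose_spec.1
        obtain ⟨l, h1, h2, h3⟩ := H j (by simpa using hji)
        simp only [decide_eq_true_eq] at h1 h2
        have := hw.choose_spec.2 (e l) (by rw [← hj]; exact h1) h2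
        rw [this] at h3
        exact absurd h3 (by simp)
  · refine Subrelation.wf ?_ (InvImage.wf e Ordinal.lt_wf)
    intro i j hij
    change e i < e j
    simpa using hij
  · simp only [hi0]
  · intro j hj
    simp only [decide_eq_true_eq, hi0] at hj
    exact ⟨e j, hj, rfl⟩

/-- Boldface `Σ^1_2` sets of reals (projections of co-analytic sets). -/
def SigmaOneTwo (A : Set (ℕ → Bool)) : Prop :=
  ∃ D : Set ((ℕ → Bool) × (ℕ → Bool)), AnalyticSet Dᶜ ∧ ∀ x, x ∈ A ↔ ∃ w, (x, w) ∈ D

section Measurable

variable [MeasurableSpace C] [StandardBorelSpace C] [MeasurableEq C] [Countable K]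

omit [StandardBorelSpace C] [Countable K] in
theorem measurable_locRun (M : AMach C K) (hstep : Measurable M.step)
    (hcell : ∀ k, Measurable (M.cell k)) (hlim : Measurable M.mkLim)
    (ini : (ℕ → Bool) → C) (hini : Measurable ini) :
    Measurable (fun q : (ℕ → Bool) × ((ℕ → ℕ → Bool) × (ℕ → C) × ℕ) =>
      LocRun M (ini q.1) q.2.1 q.2.2.1) := by
  classical
  have e : (fun q : (ℕ → Bool) × ((ℕ → ℕ → Bool) × (ℕ → C) × ℕ) =>
      LocRun M (ini q.1) q.2.1 q.2.2.1) = fun q =>
      (∀ i j, q.2.1 i j = true → q.2.1 j i = false) ∧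
      (∀ i j k, q.2.1 i j = true → q.2.1 i k = true ∨ q.2.1 k j = true) ∧
      (∀ i, (∀ j, q.2.1 j i = false) → q.2.2.1 i = ini q.1) ∧
      (∀ i j, q.2.1 j i = true → (∀ k, q.2.1 j k = false ∨ q.2.1 k i = false) →
        q.2.2.1 i = M.step (q.2.2.1 j)) ∧
      (∀ i, (∃ j, q.2.1 j i = true) →
        (∀ j, q.2.1 j i = true → ∃ k, q.2.1 j k = true ∧ q.2.1 k i = true) →
        q.2.2.1 i = M.mkLim (fun k => decide (∀ j, q.2.1 j i = true →
          ∃ l, q.2.1 j l = true ∧ q.2.1 l i = true ∧ M.cell k (q.2.2.1 l) = true))) := by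
    funext q
    apply propext
    constructor
    · intro h
      exact ⟨h.asym, h.neg, h.bot, h.suc, h.lim⟩
    · rintro ⟨h1, h2, h3, h4, h5⟩
      exact ⟨h1, h2, h3, h4, h5⟩
  rw [e]
  have hw : ∀ i j, Measurable (fun q : (ℕ → Bool) × ((ℕ → ℕ → Bool) × (ℕ → C) × ℕ) =>
      q.2.1 i j) := fun i j => by fun_prop
  have hρ : ∀ i, Measurable (fun q : (ℕ → Bool) × ((ℕ → ℕ → Bool) × (ℕ → C) × ℕ) =>
      q.2.2.1 i) := fun i => by fun_prop
  have hT : ∀ i j, Measurable (fun q : (ℕ → Bool) × ((ℕ → ℕ → Bool) × (ℕ → C) × ℕ) =>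
      q.2.1 i j = true) := fun i j => (hw i j).eq_const true
  have hF : ∀ i j, Measurable (fun q : (ℕ → Bool) × ((ℕ → ℕ → Bool) × (ℕ → C) × ℕ) =>
      q.2.1 i j = false) := fun i j => (hw i j).eq_const false
  have hS : ∀ i, Measurable (fun q : (ℕ → Bool) × ((ℕ → ℕ → Bool) × (ℕ → C) × ℕ) =>
      (fun k => decide (∀ j, q.2.1 j i = true →
          ∃ l, q.2.1 j l = true ∧ q.2.1 l i = true ∧ M.cell k (q.2.2.1 l) = true) : K → Bool)) := by
    intro i
    rw [measurable_pi_iff]
    intro k
    apply measurable_to_bool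
    have : (fun q : (ℕ → Bool) × ((ℕ → ℕ → Bool) × (ℕ → C) × ℕ) =>
        decide (∀ j, q.2.1 j i = true →
          ∃ l, q.2.1 j l = true ∧ q.2.1 l i = true ∧ M.cell k (q.2.2.1 l) = true)) ⁻¹' {true} =
        {q | ∀ j, q.2.1 j i = true →
          ∃ l, q.2.1 j l = true ∧ q.2.1 l i = true ∧ M.cell k (q.2.2.1 l) = true} := by
      ext q
      simp
    rw [this, measurableSet_setOfPred]
    refine Measurable.forall fun j => (hT j i).imp (Measurable.exists fun l =>
      (hT j l).and ((hT l i).and ?_))
    exact ((hcell k).comp (hρ l)).eq_const true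
  refine (Measurable.forall fun i => Measurable.forall fun j => (hT i j).imp (hF j i)).and ?_
  refine (Measurable.forall fun i => Measurable.forall fun j => Measurable.forall fun k =>
    (hT i j).imp ((hT i k).or (hT k j))).and ?_
  refine (Measurable.forall fun i => (Measurable.forall fun j => hF j i).imp
    ((hρ i).eq (hini.comp measurable_fst))).and ?_
  refine (Measurable.forall fun i => Measurable.forall fun j => (hT j i).imp
    ((Measurable.forall fun k => (hF j k).or (hF k i)).imp ((hρ i).eq (hstep.comp (hρ j))))).and ?_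
  exact Measurable.forall fun i => (Measurable.exists fun j => hT j i).imp
    ((Measurable.forall fun j => (hT j i).imp (Measurable.exists fun k =>
      (hT j k).and (hT k i))).imp ((hρ i).eq (hlim.comp (hS i))))

theorem not_countable_real : ¬ Countable (ℕ → Bool) := by
  intro h
  obtain ⟨f, hf⟩ := exists_surjective_nat (ℕ → Bool)
  obtain ⟨n, hn⟩ := hf (fun n => !(f n n))
  have := congrFun hn n
  simp at this

/-- Codes of local runs. -/
abbrev PP (C : Type) : Type := (ℕ → ℕ → Bool) × (ℕ → C) × ℕ

omit [Countable K] in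
/-- The core: `{x | some local well-founded run halts first in O}` is `Σ^1_2`. -/
theorem sigma_of_locRun [Nonempty C] (M : AMach C K) (hstep : Measurable M.step)
    (hcell : ∀ k, Measurable (M.cell k)) (hlim : Measurable M.mkLim)
    (ini : (ℕ → Bool) → C) (hini : Measurable ini) (H O : Set C) (hH : MeasurableSet H)
    (hO : MeasurableSet O) :
    SigmaOneTwo {x | ∃ (w : ℕ → ℕ → Bool) (ρ : ℕ → C) (i0 : ℕ), LocRun M (ini x) w ρ ∧
      WellFounded (fun i j => w i j = true) ∧ ρ i0 ∈ H ∧ ρ i0 ∈ O ∧
      ∀ j, w j i0 = true → ρ j ∉ H} := by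
  classical
  have hP : ¬ Countable (PP C) := by
    intro hc
    have : Function.Injective (fun a : ℕ → Bool =>
        ((fun _ => a, fun _ => Classical.arbitrary C, 0) : PP C)) := by
      intro a b hab
      have := congrArg (fun p : PP C => p.1 0) hab
      exact this
    exact not_countable_real this.countable
  have hX : ¬ Countable (ℕ → Bool) := not_countable_real
  let φ : (ℕ → Bool) ≃ᵐ PP C := PolishSpace.measurableEquivOfNotCountable hX hP
  let G : (ℕ → Bool) × PP C → Prop := fun q => LocRun M (ini q.1) q.2.1 q.2.2.1 ∧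
    q.2.2.1 q.2.2.2 ∈ H ∧ q.2.2.1 q.2.2.2 ∈ O ∧ ∀ j, q.2.1 j q.2.2.2 = true → q.2.2.1 j ∉ H
  have hev : Measurable (fun q : (ℕ → Bool) × PP C => q.2.2.1 q.2.2.2) := by
    have h1 : Measurable (fun q : (ℕ → C) × ℕ => q.1 q.2) := by
      apply measurable_from_prod_countable_left
      intro n
      exact measurable_pi_apply n
    exact h1.comp (measurable_snd.comp measurable_snd)
  have hev2 : ∀ j, Measurable (fun q : (ℕ → Bool) × PP C => q.2.1 j q.2.2.2) := by
    intro j
    have h1 : Measurable (fun q : (ℕ → Bool) × ℕ => q.1 q.2) := by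
      apply measurable_from_prod_countable_left
      intro n
      exact measurable_pi_apply n
    have h2 : Measurable (fun q : (ℕ → Bool) × PP C => (q.2.1 j, q.2.2.2)) := by
      refine Measurable.prodMk ?_ ?_
      · exact (measurable_pi_apply j).comp (measurable_fst.comp measurable_snd)
      · exact measurable_snd.comp (measurable_snd.comp measurable_snd)
    exact h1.comp h2
  have hG : Measurable G := by
    refine (measurable_locRun M hstep hcell hlim ini hini).and ?_
    refine ((hH.mem).comp hev).and (((hO.mem).comp hev).and (Measurable.forall fun j => ?_))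
    refine ((hev2 j).eq_const true).imp (Measurable.not ?_)
    have : Measurable (fun q : (ℕ → Bool) × PP C => q.2.2.1 j) := by fun_prop
    exact (hH.mem).comp this
  let D : Set ((ℕ → Bool) × (ℕ → Bool)) :=
    {q | G (q.1, φ q.2) ∧ WellFounded (fun i j => (φ q.2).1 i j = true)}
  refine ⟨D, ?_, ?_⟩
  · have hD : Dᶜ = {q | ¬ G (q.1, φ q.2)} ∪
        Prod.fst '' {z : ((ℕ → Bool) × (ℕ → Bool)) × (ℕ → ℕ) |
          ∀ n, (φ z.1.2).1 (z.2 (n + 1)) (z.2 n) = true} := by
      ext q
      simp only [D, Set.mem_compl_iff, Set.mem_ofPred_eq, Set.mem_union, Set.mem_image]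
      rw [not_and_or]
      apply or_congr Iff.rfl
      rw [wellFounded_iff_isEmpty_descending_chain, not_isEmpty_iff]
      constructor
      · rintro ⟨f, hf⟩
        exact ⟨(q, f), hf, rfl⟩
      · rintro ⟨⟨q', f⟩, hf, rfl⟩
        exact ⟨⟨f, hf⟩⟩
    rw [hD]
    have h1 : MeasurableSet {q : (ℕ → Bool) × (ℕ → Bool) | ¬ G (q.1, φ q.2)} := by
      rw [measurableSet_setOfPred]
      exact (hG.comp (measurable_fst.prodMk (φ.measurable.comp measurable_snd))).not
    have h2 : MeasurableSet {z : ((ℕ → Bool) × (ℕ → Bool)) × (ℕ → ℕ) |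
          ∀ n, (φ z.1.2).1 (z.2 (n + 1)) (z.2 n) = true} := by
      rw [measurableSet_setOfPred]
      refine Measurable.forall fun n => Measurable.eq_const ?_ true
      have h3 : Measurable (fun q : (ℕ → ℕ → Bool) × (ℕ × ℕ) => q.1 q.2.1 q.2.2) := by
        apply measurable_from_prod_countable_left
        intro n
        exact (measurable_pi_apply n.2).comp (measurable_pi_apply n.1)
      refine h3.comp (Measurable.prodMk ?_ (Measurable.prodMk ?_ ?_))
      · exact measurable_fst.comp (φ.measurable.comp (measurable_snd.comp measurable_fst))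
      · exact (measurable_pi_apply _).comp measurable_snd
      · exact (measurable_pi_apply _).comp measurable_snd
    have a1 : AnalyticSet {q : (ℕ → Bool) × (ℕ → Bool) | ¬ G (q.1, φ q.2)} := by
      have := h1.analyticSet_image (f := id) measurable_id
      simpa using this
    have a2 := h2.analyticSet_image (f := Prod.fst) measurable_fst
    rw [Set.union_eq_iUnion]
    apply AnalyticSet.iUnion
    rintro (b | b)
    · exact a2
    · exact a1
  · intro x
    constructor
    · rintro ⟨w, ρ, i0, h1, h2, h3, h4, h5⟩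
      refine ⟨φ.symm (w, ρ, i0), ?_, ?_⟩
      · simp only [MeasurableEquiv.apply_symm_apply]
        exact ⟨h1, h3, h4, h5⟩
      · simp only [MeasurableEquiv.apply_symm_apply]
        exact h2
    · rintro ⟨y, ⟨h1, h3, h4, h5⟩, h2⟩
      exact ⟨(φ y).1, (φ y).2.1, (φ y).2.2, h1, h2, h3, h4, h5⟩

/-- **Row (a).**  Sets decided by deterministic machines are `Δ^1_2`. -/
theorem det_sigma12 [Nonempty C] (M : AMach C K) (hstep : Measurable M.step)
    (hcell : ∀ k, Measurable (M.cell k)) (hlim : Measurable M.mkLim)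
    (ini : (ℕ → Bool) → C) (hini : Measurable ini) (H O : Set C) (hH : MeasurableSet H)
    (hO : MeasurableSet O) (A : Set (ℕ → Bool))
    (hA : ∀ x, ∃ (θ : Ordinal.{0}) (r : Ordinal.{0} → C), (∀ η, IsRunTo M (ini x) η r) ∧
      r θ ∈ H ∧ (∀ a < θ, r a ∉ H) ∧ (x ∈ A ↔ r θ ∈ O)) :
    SigmaOneTwo A ∧ SigmaOneTwo Aᶜ := by
  have key : ∀ x (O' : Set C), (∃ (w : ℕ → ℕ → Bool) (ρ : ℕ → C) (i0 : ℕ),
      LocRun M (ini x) w ρ ∧ WellFounded (fun i j => w i j = true) ∧ ρ i0 ∈ H ∧ ρ i0 ∈ O' ∧
      ∀ j, w j i0 = true → ρ j ∉ H) ↔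
      ∀ (θ : Ordinal.{0}) (r : Ordinal.{0} → C), (∀ η, IsRunTo M (ini x) η r) →
        r θ ∈ H → (∀ a < θ, r a ∉ H) → r θ ∈ O' := by
    intro x O'
    constructor
    · rintro ⟨w, ρ, i0, h1, h2, h3, h4, h5⟩ θ r hr hθ hθ'
      have : IsWellFounded ℕ (fun i j => w i j = true) := ⟨h2⟩
      have hrun := h1.eq_run i0 (hr (IsWellFounded.rank (fun i j => w i j = true) i0)) le_rfl
      have e0 := hrun i0 (Or.inr rfl)
      have hle1 : θ ≤ IsWellFounded.rank (fun i j => w i j = true) i0 := by
        by_contra hlt
        rw [not_le] at hlt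
        apply hθ' _ hlt
        rw [← e0]
        exact h3
      have hle2 : IsWellFounded.rank (fun i j => w i j = true) i0 ≤ θ := by
        by_contra hlt
        rw [not_le] at hlt
        obtain ⟨j, hj⟩ := IsWellFounded.mem_range_rank_of_le (r := fun i j => w i j = true)
          (a := i0) hlt.le
        have hji : w j i0 = true := by
          by_contra hn
          have : IsWellFounded.rank (fun i j => w i j = true) i0 ≤
              IsWellFounded.rank (fun i j => w i j = true) j := by
            rw [IsWellFounded.rank_eq]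
            apply Ordinal.iSup_le
            rintro ⟨k, hk⟩
            rw [Order.succ_le_iff]
            rcases h1.neg k i0 j hk with h6 | h6
            · exact IsWellFounded.rank_lt_of_rel (r := fun i j => w i j = true) h6
            · exact absurd h6 hn
          rw [hj] at this
          exact absurd hlt (not_lt.2 this)
        apply h5 j hji
        rw [hrun j (Or.inl hji), hj]
        exact hθ
      have := le_antisymm hle1 hle2
      rw [this, ← e0]
      exact h4
    · intro h
      obtain ⟨θ, r, hr, h1, h2, -⟩ := hA x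
      obtain ⟨w, ρ, i0, g1, g2, g3, g4⟩ := exists_locRun (hr θ)
      refine ⟨w, ρ, i0, g1, g2, by rw [g3]; exact h1, by rw [g3]; exact h θ r hr h1 h2, ?_⟩
      intro j hj
      obtain ⟨a, ha, e⟩ := g4 j hj
      rw [e]
      exact h2 a ha
  have uniq : ∀ x (θ θ' : Ordinal.{0}) (r r' : Ordinal.{0} → C),
      (∀ η, IsRunTo M (ini x) η r) → (∀ η, IsRunTo M (ini x) η r') → r = r' := by
    intro x θ θ' r r' h h'
    funext a
    induction a using WellFoundedLT.induction with
    | ind a ih =>
      rcases Ordinal.zero_or_succ_or_isSuccLimit a with h0 | ⟨b, hb⟩ | hl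
      · rw [h0, (h 0).1, (h' 0).1]
      · rw [← hb, (h (succ b)).2.1 b (Order.lt_succ b), (h' (succ b)).2.1 b (Order.lt_succ b),
          ih b (by rw [← hb]; exact Order.lt_succ b)]
      · rw [(h a).2.2 a le_rfl hl, (h' a).2.2 a le_rfl hl]
        congr 1
        funext k
        rw [decide_eq_decide]
        constructor
        · intro H b hb
          obtain ⟨c, h1, h2, h3⟩ := H b hb
          exact ⟨c, h1, h2, by rw [← ih c h2]; exact h3⟩
        · intro H b hb
          obtain ⟨c, h1, h2, h3⟩ := H b hb
          exact ⟨c, h1, h2, by rw [ih c h2]; exact h3⟩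
  constructor
  · have := sigma_of_locRun M hstep hcell hlim ini hini H O hH hO
    convert this using 1
    ext x
    rw [Set.mem_ofPred_eq, key x O]
    obtain ⟨θ, r, hr, h1, h2, h3⟩ := hA x
    constructor
    · intro hx θ' r' hr' h1' h2'
      have e : r = r' := uniq x θ θ' r r' hr hr'
      subst e
      have : θ = θ' := by
        apply le_antisymm
        · by_contra hlt
          exact h2 θ' (not_le.1 hlt) h1'
        · by_contra hlt
          exact h2' θ (not_le.1 hlt) h1
      rw [← this]
      exact h3.1 hx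
    · intro h
      exact h3.2 (h θ r hr h1 h2)
  · have := sigma_of_locRun M hstep hcell hlim ini hini H Oᶜ hH hO.compl
    convert this using 1
    ext x
    rw [Set.mem_ofPred_eq, key x Oᶜ]
    obtain ⟨θ, r, hr, h1, h2, h3⟩ := hA x
    constructor
    · intro hx θ' r' hr' h1' h2'
      have e : r = r' := uniq x θ θ' r r' hr hr'
      subst e
      have : θ = θ' := by
        apply le_antisymm
        · by_contra hlt
          exact h2 θ' (not_le.1 hlt) h1'
        · by_contra hlt
          exact h2' θ (not_le.1 hlt) h1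
      rw [← this]
      exact fun hO => hx (h3.2 hO)
    · intro h hx
      exact h θ r hr h1 h2 (h3.1 hx)

end Measurable

end Pool.Agent.HKM
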