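import Pool.Agent.HKM.CoTab70
import Pool.Agent.HKM.DetS70

/-!
Rows (c0)+(c1) of P10: the universal `Σ^1_2` diagonal.  helper70.
-/

namespace Pool.Agent.HKM

open MeasureTheory Set

instance polishReal : PolishSpace (ℕ → Bool) :=
  { toSecondCountableTopology := inferInstance
    toIsCompletelyMetrizableSpace := inferInstance }

/-- The table coded by a real. -/
def tab (z : ℕ → Bool) (a b : List Bool) (s : List ℕ) : Bool :=
  z (Encodable.encode (a, b, s))

theorem exists_tab (t : List Bool → List Bool → List ℕ → Bool) :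
    ∃ z : ℕ → Bool, ∀ a b s, tab z a b s = t a b s := by
  classical
  refine ⟨fun n => match (Encodable.decode n : Option (List Bool × List Bool × List ℕ)) with
    | some p => t p.1 p.2.1 p.2.2
    | none => false, fun a b s => ?_⟩
  unfold tab
  simp [Encodable.encodek]

/-- If `A` reduces the diagonal of the universal `Σ^1_2` set then `Aᶜ` is not `Σ^1_2`. -/
theorem not_sigma_compl (A : Set (ℕ → Bool)) (φ : (ℕ → Bool) → (ℕ → Bool)) (hφ : Continuous φ)
    (h : ∀ z, φ z ∈ A ↔ ∃ y : ℕ → Bool, ¬ ∃ g : ℕ → ℕ, ∀ n,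
      tab z (ini z n) (ini y n) (ini g n) = true) :
    ¬ SigmaOneTwo Aᶜ := by
  rintro ⟨D, hD, hA⟩
  have hc : Continuous (fun q : (ℕ → Bool) × (ℕ → Bool) => (φ q.1, q.2)) :=
    (hφ.comp continuous_fst).prodMk continuous_snd
  have hD' : AnalyticSet ((fun q : (ℕ → Bool) × (ℕ → Bool) => (φ q.1, q.2)) ⁻¹' D)ᶜ := by
    rw [← Set.preimage_compl]
    exact hD.preimage hc
  obtain ⟨t, ht⟩ := coanalytic_table _ hD'
  obtain ⟨z, hz⟩ := exists_tab t
  have h1 : φ z ∈ A ↔ ∃ w, (φ z, w) ∈ D := by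
    rw [h z]
    apply exists_congr
    intro y
    have := ht z y
    simp only [hz]
    exact this.symm
  have h2 : φ z ∈ Aᶜ ↔ ∃ w, (φ z, w) ∈ D := hA (φ z)
  rw [← h1] at h2
  by_cases h3 : φ z ∈ A
  · exact (h2.2 h3) h3
  · exact h3 (h2.1 h3)

end Pool.Agent.HKM
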