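import Pool.Agent.HKM.Cont
import Pool.Agent.HKM.Diag70

/-!
Row C1 of P10: the accessible part of the coded tree.  helper50.
-/

set_option autoImplicit false

namespace Pool.Agent.HKM

theorem node_encode50 (l : List ℕ) : node (Encodable.encode l) = l := by
  unfold node; exact Denumerable.ofNat_encode l

theorem encode_node50 (k : ℕ) : Encodable.encode (node k) = k := by
  unfold node; exact Denumerable.encode_ofNat k

theorem node_zero50 : node 0 = [] := by
  have h := node_encode50 []
  simpa using h

theorem length_le_encode50 (l : List ℕ) : l.length ≤ Encodable.encode l := by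
  induction l with
  | nil => simp
  | cons a l ih =>
    rw [Encodable.encode_list_cons, List.length_cons]
    have := Nat.right_le_pair (Encodable.encode a) (Encodable.encode l)
    omega

theorem encode_lt_cons50 (a : ℕ) (l : List ℕ) :
    Encodable.encode l < Encodable.encode (a :: l) := by
  rw [Encodable.encode_list_cons]
  have := Nat.right_le_pair (Encodable.encode a) (Encodable.encode l)
  omega

theorem pre_eq_ini50 {α : Type} (f : ℕ → α) (n : ℕ) : pre f n = ini f n := by
  unfold pre ini
  apply List.ext_getElem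
  · simp
  · intro i h1 h2
    simp

theorem pre_succ50 {α : Type} (f : ℕ → α) (n : ℕ) : pre f (n + 1) = pre f n ++ [f n] := by
  simp [pre, List.range_succ]

theorem pre_length50 {α : Type} (f : ℕ → α) (n : ℕ) : (pre f n).length = n := by
  simp [pre]

/-- the node on the branch `(y, g)` at level `n` -/
def br50 (y : ℕ → Bool) (g : ℕ → ℕ) : ℕ → List ℕ
  | 0 => []
  | n + 1 => Nat.bit (y n) (g n) :: br50 y g n

theorem br_length50 (y : ℕ → Bool) (g : ℕ → ℕ) (n : ℕ) : (br50 y g n).length = n := by
  induction n with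
  | zero => rfl
  | succ n ih => simp [br50, ih]

theorem br_bodd50 (y : ℕ → Bool) (g : ℕ → ℕ) (n : ℕ) :
    (br50 y g n).reverse.map Nat.bodd = pre y n := by
  induction n with
  | zero => rfl
  | succ n ih =>
    rw [pre_succ50, br50, List.reverse_cons, List.map_append, ih]
    simp

theorem br_div50 (y : ℕ → Bool) (g : ℕ → ℕ) (n : ℕ) :
    (br50 y g n).reverse.map Nat.div2 = pre g n := by
  induction n with
  | zero => rfl
  | succ n ih =>
    rw [pre_succ50, br50, List.reverse_cons, List.map_append, ih]
    simp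

theorem good_eq50 (z : Rl) (y : ℕ → Bool) (g : ℕ → ℕ) (n : ℕ) (l : List ℕ) (h0 : l.length = n)
    (h1 : l.reverse.map Nat.bodd = pre y n) (h2 : l.reverse.map Nat.div2 = pre g n) :
    good z l = tab z (ini z n) (ini y n) (ini g n) := by
  unfold good tab
  rw [h0, h1, h2, pre_eq_ini50, pre_eq_ini50, pre_eq_ini50]

theorem getD_pre50 (y : ℕ → Bool) (n i : ℕ) (h : i < n) : (pre y n).getD i false = y i := by
  simp [pre, h]

theorem Pz_eq50 (i k : ℕ) : Pz i k = decide (i < (node k).length) := rfl

theorem Nz_eq50 (i k : ℕ) : Nz i k = ((node k).reverse.map Nat.bodd).getD i false := rfl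

theorem not_acs_of_branch50 (z : Rl) (y : ℕ → Bool) (g : ℕ → ℕ)
    (hg : ∀ n, tab z (ini z n) (ini y n) (ini g n) = true) (k : ℕ)
    (h : Acs (Ez z) Pz Nz y k) : ∀ n, node k ≠ br50 y g n := by
  induction h with
  | mis k i hi hP hy =>
    intro n hn
    apply hy
    have h1 : i < (node k).length := by simpa [Pz] using hP
    rw [hn, br_length50] at h1
    unfold Nz
    rw [hn, br_bodd50, getD_pre50 y n i h1]
  | all k _ ih =>
    intro n hn
    refine ih (Encodable.encode (br50 y g (n + 1))) ?_ ?_ (n + 1) (node_encode50 _)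
    · rw [← encode_node50 k, hn]
      exact encode_lt_cons50 _ _
    · unfold Ez
      rw [node_encode50, hn]
      have h3 : good z (br50 y g n) = true := by
        rw [good_eq50 z y g n _ (br_length50 _ _ _) (br_bodd50 _ _ _) (br_div50 _ _ _)]
        exact hg n
      rw [h3]
      simp [br50]

theorem bit_of_not_acs50 (z : Rl) (y : ℕ → Bool) (m : ℕ → ℕ) (k i : ℕ)
    (h : ¬ Acs (Ez z) Pz Nz y k) (hk : (node k).reverse = pre m (i + 1)) : y i = (m i).bodd := by
  by_contra hne
  have h0 : (node k).length = i + 1 := by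
    rw [← List.length_reverse, hk, pre_length50]
  refine h (Acs.mis k i ?_ ?_ ?_)
  · have h2 := length_le_encode50 (node k)
    rw [encode_node50] at h2
    omega
  · rw [Pz_eq50, h0]
    simp
  · rw [Nz_eq50, hk]
    have h3 : (pre m (i + 1)).map Nat.bodd = pre (fun i => (m i).bodd) (i + 1) := by
      simp [pre, Function.comp_def]
    rw [h3, getD_pre50 _ _ _ (Nat.lt_succ_self i)]
    exact hne

theorem exists_branch50 (z : Rl) (y : ℕ → Bool) (h : ¬ Acs (Ez z) Pz Nz y 0) :
    ∃ g : ℕ → ℕ, ∀ n, tab z (ini z n) (ini y n) (ini g n) = true := by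
  classical
  have hstep : ∀ k : {k : ℕ // ¬ Acs (Ez z) Pz Nz y k},
      ∃ k' : {k : ℕ // ¬ Acs (Ez z) Pz Nz y k}, Ez z k.1 k'.1 = true := by
    rintro ⟨k, hk⟩
    by_contra hcon
    apply hk
    refine Acs.all k ?_
    intro k' _ hE
    by_contra hk'
    exact hcon ⟨⟨k', hk'⟩, hE⟩
  choose f hf using hstep
  let s : ℕ → {k : ℕ // ¬ Acs (Ez z) Pz Nz y k} := fun n => Nat.rec ⟨0, h⟩ (fun _ k => f k) n
  have hs : ∀ n, Ez z (s n).1 (s (n + 1)).1 = true := fun n => hf (s n)
  have hs0 : node (s 0).1 = [] := node_zero50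
  have htail : ∀ n, (node (s (n + 1)).1).tail = node (s n).1 ∧ node (s (n + 1)).1 ≠ [] := by
    intro n
    have := hs n
    unfold Ez at this
    rw [Bool.and_eq_true] at this
    simpa using this.1
  have hgood : ∀ n, good z (node (s n).1) = true := by
    intro n
    have := hs n
    unfold Ez at this
    rw [Bool.and_eq_true] at this
    exact this.2
  let m : ℕ → ℕ := fun n => (node (s (n + 1)).1).head (htail n).2
  have hm : ∀ n, node (s (n + 1)).1 = m n :: node (s n).1 := by
    intro n
    rw [← (htail n).1]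
    exact (List.cons_head_tail (htail n).2).symm
  have hlen : ∀ n, (node (s n).1).length = n := by
    intro n
    induction n with
    | zero => rw [hs0]; rfl
    | succ n ih => rw [hm n, List.length_cons, ih]
  have hrev : ∀ n, (node (s n).1).reverse = pre m n := by
    intro n
    induction n with
    | zero => rw [hs0]; rfl
    | succ n ih => rw [hm n, List.reverse_cons, ih, pre_succ50]
  have hmap : ∀ (φ : ℕ → Bool) n, (pre m n).map φ = pre (fun i => φ (m i)) n := by
    intro φ n
    simp [pre, Function.comp_def]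
  have hmap' : ∀ (φ : ℕ → ℕ) n, (pre m n).map φ = pre (fun i => φ (m i)) n := by
    intro φ n
    simp [pre, Function.comp_def]
  have hy : ∀ i, y i = (m i).bodd := fun i =>
    bit_of_not_acs50 z y m (s (i + 1)).1 i (s (i + 1)).2 (hrev (i + 1))
  refine ⟨fun i => (m i).div2, fun n => ?_⟩
  rw [← good_eq50 z y (fun i => (m i).div2) n (node (s n).1) (hlen n)]
  · exact hgood n
  · rw [hrev, hmap]
    congr 1
    funext i
    exact (hy i).symm
  · rw [hrev, hmap']

/-- Row C1. -/
theorem acs_iff (z : Rl) : (∃ y : ℕ → Bool, Acs (Ez z) Pz Nz y 0) ↔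
    ∃ y : ℕ → Bool, ¬ ∃ g : ℕ → ℕ, ∀ n, tab z (ini z n) (ini y n) (ini g n) = true := by
  refine exists_congr fun y => ?_
  constructor
  · rintro h ⟨g, hg⟩
    exact not_acs_of_branch50 z y g hg 0 h 0 node_zero50
  · intro h
    by_contra hcon
    exact h (exists_branch50 z y hcon)

end Pool.Agent.HKM
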