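import Pool.Agent.HKM.Cont

/-!
# The sweeps of the transducer on the contents `cont` (row B2 of MP_f7c501)
-/

set_option autoImplicit false

namespace Pool.Agent.HKM

open Order

/-! ### Positions -/

theorem bp_le (p : ℕ) : (bp p).2 ≤ (bp p).1 := by
  induction p with
  | zero => exact le_rfl
  | succ p ih =>
    rw [bp]
    split_ifs with h
    · exact Nat.zero_le _
    · show (bp p).2 + 1 ≤ (bp p).1
      omega

theorem pos_succ (k : ℕ) : pos 0 (k + 1) = pos k k + 1 := by
  unfold pos
  have h : (k + 1) * (k + 1 + 1) = k * (k + 1) + (k + 1) * 2 := by ring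
  rw [h, Nat.add_mul_div_right _ _ (by norm_num)]
  omega

theorem pos_bp (p : ℕ) : pos (bp p).2 (bp p).1 = p := by
  induction p with
  | zero => rfl
  | succ p ih =>
    rw [bp]
    split_ifs with h
    · show pos 0 ((bp p).1 + 1) = p + 1
      rw [pos_succ]
      rw [h] at ih
      rw [ih]
    · show pos ((bp p).2 + 1) (bp p).1 = p + 1
      unfold pos at ih ⊢
      omega

theorem bp_pos {i k : ℕ} (h : i ≤ k) : bp (pos i k) = (k, i) := by
  induction k generalizing i with
  | zero =>
    have : i = 0 := by omega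
    subst this
    rfl
  | succ k ihk =>
    induction i with
    | zero =>
      rw [pos_succ, bp, ihk le_rfl]
      simp
    | succ i ihi =>
      have h1 : pos (i + 1) (k + 1) = pos i (k + 1) + 1 := by unfold pos; omega
      rw [h1, bp, ihi (by omega)]
      have h2 : ¬ (i = k + 1) := by omega
      simp [h2]

theorem bp_succ_last {p : ℕ} (h : (bp p).2 = (bp p).1) : bp (p + 1) = ((bp p).1 + 1, 0) := by
  rw [bp, if_pos h]

theorem bp_succ_mid {p : ℕ} (h : (bp p).2 ≠ (bp p).1) : bp (p + 1) = ((bp p).1, (bp p).2 + 1) := by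
  rw [bp, if_neg h]

theorem bp_zero : bp 0 = (0, 0) := rfl

/-! ### Cells -/

/-- The bits of a cell. -/
def bits (b0 b1 b2 b3 b4 b5 b6 b7 b8 b9 : Bool) : Bits := fun j =>
  match j with
  | 0 => b0
  | 1 => b1
  | 2 => b2
  | 3 => b3
  | 4 => b4
  | 5 => b5
  | 6 => b6
  | 7 => b7
  | 8 => b8
  | 9 => b9

theorem bits_ext {u v : Bits} (h0 : u 0 = v 0) (h1 : u 1 = v 1) (h2 : u 2 = v 2) (h3 : u 3 = v 3)
    (h4 : u 4 = v 4) (h5 : u 5 = v 5) (h6 : u 6 = v 6) (h7 : u 7 = v 7) (h8 : u 8 = v 8)
    (h9 : u 9 = v 9) : u = v := by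
  funext j
  fin_cases j <;> assumption

theorem cell_val {V : Rl} {p : ℕ} (j : Fin 10) : cell V p j = V (10 * p + j.val) := rfl

theorem rl_ext {V V' : Rl} (h : ∀ p, cell V p = cell V' p) : V = V' := by
  funext n
  have h1 := congrFun (h (n / 10)) ⟨n % 10, Nat.mod_lt _ (by norm_num)⟩
  rw [cell_val, cell_val] at h1
  have h2 : 10 * (n / 10) + n % 10 = n := Nat.div_add_mod n 10
  simpa [h2] using h1

theorem dm {p j : ℕ} (hj : j < 10) : (10 * p + j) / 10 = p ∧ (10 * p + j) % 10 = j := by
  omega

theorem cell_cont (E P N Y : ℕ → ℕ → Bool) (X : ℕ → Bool) (c : ℕ → Bool) (f₁ f₂ g : Bool) (p : ℕ) :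
    cell (cont E P N Y X c f₁ f₂ g) p =
      bits (decide ((bp p).2 = (bp p).1) && X (bp p).1) (decide (p = 0) && f₁)
        (!decide (p = 0) || f₂) (decide (p = 0) && g) (c p) (decide ((bp p).2 = (bp p).1))
        (E (bp p).2 (bp p).1) (P (bp p).2 (bp p).1) (N (bp p).2 (bp p).1) (Y (bp p).2 (bp p).1) := by
  apply bits_ext
  · show cont E P N Y X c f₁ f₂ g (10 * p + 0) = _
    simp only [cont, bits]
    rw [show (10 * p + 0) / 10 = p by omega, show (10 * p + 0) % 10 = 0 by omega]
    rfl
  · show cont E P N Y X c f₁ f₂ g (10 * p + 1) = _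
    simp only [cont, bits]
    rw [show (10 * p + 1) / 10 = p by omega, show (10 * p + 1) % 10 = 1 by omega]
    rfl
  · show cont E P N Y X c f₁ f₂ g (10 * p + 2) = _
    simp only [cont, bits]
    rw [show (10 * p + 2) / 10 = p by omega, show (10 * p + 2) % 10 = 2 by omega]
    rfl
  · show cont E P N Y X c f₁ f₂ g (10 * p + 3) = _
    simp only [cont, bits]
    rw [show (10 * p + 3) / 10 = p by omega, show (10 * p + 3) % 10 = 3 by omega]
    rfl
  · show cont E P N Y X c f₁ f₂ g (10 * p + 4) = _
    simp only [cont, bits]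
    rw [show (10 * p + 4) / 10 = p by omega, show (10 * p + 4) % 10 = 4 by omega]
    rfl
  · show cont E P N Y X c f₁ f₂ g (10 * p + 5) = _
    simp only [cont, bits]
    rw [show (10 * p + 5) / 10 = p by omega, show (10 * p + 5) % 10 = 5 by omega]
    rfl
  · show cont E P N Y X c f₁ f₂ g (10 * p + 6) = _
    simp only [cont, bits]
    rw [show (10 * p + 6) / 10 = p by omega, show (10 * p + 6) % 10 = 6 by omega]
    rfl
  · show cont E P N Y X c f₁ f₂ g (10 * p + 7) = _
    simp only [cont, bits]
    rw [show (10 * p + 7) / 10 = p by omega, show (10 * p + 7) % 10 = 7 by omega]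
    rfl
  · show cont E P N Y X c f₁ f₂ g (10 * p + 8) = _
    simp only [cont, bits]
    rw [show (10 * p + 8) / 10 = p by omega, show (10 * p + 8) % 10 = 8 by omega]
    rfl
  · show cont E P N Y X c f₁ f₂ g (10 * p + 9) = _
    simp only [cont, bits]
    rw [show (10 * p + 9) / 10 = p by omega, show (10 * p + 9) % 10 = 9 by omega]
    rfl

theorem cell_enc (E P N : ℕ → ℕ → Bool) (p : ℕ) :
    cell (enc E P N) p =
      bits false false false false false (decide ((bp p).2 = (bp p).1))
        (E (bp p).2 (bp p).1) (P (bp p).2 (bp p).1) (N (bp p).2 (bp p).1) false := by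
  apply bits_ext
  · show enc E P N (10 * p + 0) = _
    simp only [enc, bits]
    rw [show (10 * p + 0) / 10 = p by omega, show (10 * p + 0) % 10 = 0 by omega]
    rfl
  · show enc E P N (10 * p + 1) = _
    simp only [enc, bits]
    rw [show (10 * p + 1) / 10 = p by omega, show (10 * p + 1) % 10 = 1 by omega]
    rfl
  · show enc E P N (10 * p + 2) = _
    simp only [enc, bits]
    rw [show (10 * p + 2) / 10 = p by omega, show (10 * p + 2) % 10 = 2 by omega]
    rfl
  · show enc E P N (10 * p + 3) = _
    simp only [enc, bits]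
    rw [show (10 * p + 3) / 10 = p by omega, show (10 * p + 3) % 10 = 3 by omega]
    rfl
  · show enc E P N (10 * p + 4) = _
    simp only [enc, bits]
    rw [show (10 * p + 4) / 10 = p by omega, show (10 * p + 4) % 10 = 4 by omega]
    rfl
  · show enc E P N (10 * p + 5) = _
    simp only [enc, bits]
    rw [show (10 * p + 5) / 10 = p by omega, show (10 * p + 5) % 10 = 5 by omega]
    rfl
  · show enc E P N (10 * p + 6) = _
    simp only [enc, bits]
    rw [show (10 * p + 6) / 10 = p by omega, show (10 * p + 6) % 10 = 6 by omega]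
    rfl
  · show enc E P N (10 * p + 7) = _
    simp only [enc, bits]
    rw [show (10 * p + 7) / 10 = p by omega, show (10 * p + 7) % 10 = 7 by omega]
    rfl
  · show enc E P N (10 * p + 8) = _
    simp only [enc, bits]
    rw [show (10 * p + 8) / 10 = p by omega, show (10 * p + 8) % 10 = 8 by omega]
    rfl
  · show enc E P N (10 * p + 9) = _
    simp only [enc, bits]
    rw [show (10 * p + 9) / 10 = p by omega, show (10 * p + 9) % 10 = 9 by omega]
    rfl

theorem bits_iff (u : Bits) (b0 b1 b2 b3 b4 b5 b6 b7 b8 b9 : Bool) :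
    u = bits b0 b1 b2 b3 b4 b5 b6 b7 b8 b9 ↔ u 0 = b0 ∧ u 1 = b1 ∧ u 2 = b2 ∧ u 3 = b3 ∧
      u 4 = b4 ∧ u 5 = b5 ∧ u 6 = b6 ∧ u 7 = b7 ∧ u 8 = b8 ∧ u 9 = b9 := by
  constructor
  · rintro rfl
    exact ⟨rfl, rfl, rfl, rfl, rfl, rfl, rfl, rfl, rfl, rfl⟩
  · rintro ⟨h0, h1, h2, h3, h4, h5, h6, h7, h8, h9⟩
    exact bits_ext h0 h1 h2 h3 h4 h5 h6 h7 h8 h9

theorem forall_bits {u v : Bits} : (∀ i, i ≠ iX → i ≠ iC → u i = v i) ↔
    u 1 = v 1 ∧ u 2 = v 2 ∧ u 3 = v 3 ∧ u 5 = v 5 ∧ u 6 = v 6 ∧ u 7 = v 7 ∧ u 8 = v 8 ∧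
      u 9 = v 9 := by
  constructor
  · intro h
    exact ⟨h 1 (by decide) (by decide), h 2 (by decide) (by decide), h 3 (by decide) (by decide),
      h 5 (by decide) (by decide), h 6 (by decide) (by decide), h 7 (by decide) (by decide),
      h 8 (by decide) (by decide), h 9 (by decide) (by decide)⟩
  · rintro ⟨h1, h2, h3, h5, h6, h7, h8, h9⟩ i hX hC
    fin_cases i
    · exact absurd rfl hX
    · exact h1
    · exact h2
    · exact h3
    · exact absurd rfl hC
    · exact h5
    · exact h6
    · exact h7
    · exact h8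
    · exact h9

/-! ### The first sweep -/

theorem sweep_init {E P N : ℕ → ℕ → Bool} {V' : Rl} :
    TT.Sweep .init (enc E P N) V' ↔
      ∃ Y, V' = cont E P N Y (fun _ => false) (fun _ => false) false true false := by
  constructor
  · rintro ⟨s, h0, h⟩
    have hs : ∀ p, s p = TS.init := by
      intro p
      induction p with
      | zero => exact h0
      | succ p ih =>
        have h1 : tT (s p) (cell (enc E P N) p) (s (p + 1)) (cell V' p) := h p
        rw [ih] at h1
        exact h1.1
    refine ⟨fun i k => V' (10 * pos i k + 9), ?_⟩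
    apply rl_ext
    intro p
    have h1 : tT (s p) (cell (enc E P N) p) (s (p + 1)) (cell V' p) := h p
    rw [hs p] at h1
    obtain ⟨-, h2, h3, h4, h5, h6, h7, h8, h9, h10⟩ := h1
    rw [cell_enc] at h7 h8 h9 h10
    rw [cell_cont, bits_iff]
    refine ⟨?_, ?_, ?_, ?_, ?_, ?_, ?_, ?_, ?_, ?_⟩
    · rw [Bool.and_false]; exact h2
    · rw [Bool.and_false]; exact h3
    · rw [Bool.or_true]; exact h4
    · rw [Bool.and_false]; exact h5
    · exact h6
    · exact h7
    · exact h8
    · exact h9
    · exact h10
    · show cell V' p 9 = V' (10 * pos (bp p).2 (bp p).1 + 9)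
      rw [pos_bp]
      rfl
  · rintro ⟨Y, rfl⟩
    refine ⟨fun _ => TS.init, rfl, fun p => ?_⟩
    show tT TS.init _ TS.init _
    rw [cell_cont, cell_enc]
    refine ⟨rfl, ?_, ?_, ?_, ?_, rfl, rfl, rfl, rfl, rfl⟩
    · exact Bool.and_false _
    · exact Bool.and_false _
    · exact Bool.or_true _
    · exact Bool.and_false _

/-! ### The reset sweep -/

theorem sweep_reset {E P N Y : ℕ → ℕ → Bool} {X c : ℕ → Bool} {g : Bool} {V' : Rl} :
    TT.Sweep .lim (cont E P N Y X c true true g) V' ↔
      g = true ∧ V' = cont E P N Y X (fun _ => false) false true false := by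
  have hc0 : cell (cont E P N Y X c true true g) 0 = bits (X 0) true true g (c 0) true
      (E 0 0) (P 0 0) (N 0 0) (Y 0 0) := by
    rw [cell_cont]
    simp [bp_zero]
  have hd0 : cell (cont E P N Y X (fun _ => false) false true false) 0
      = Function.update (Function.update (Function.update
        (cell (cont E P N Y X c true true g) 0) iF1 false) iG false) iC false := by
    rw [hc0, cell_cont]
    apply bits_ext <;> simp [bp_zero, bits, Function.update, iF1, iG, iC]
  have hd : ∀ p, cell (cont E P N Y X (fun _ => false) false true false) (p + 1)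
      = Function.update (cell (cont E P N Y X c true true g) (p + 1)) iC false := by
    intro p
    rw [cell_cont, cell_cont]
    apply bits_ext <;> simp [bits, Function.update, iC]
  constructor
  · rintro ⟨s, h0, h⟩
    have h1 : tT (s 0) (cell (cont E P N Y X c true true g) 0) (s 1) (cell V' 0) := h 0
    rw [h0] at h1
    rcases h1 with ⟨-, -, h3, h4, h5⟩ | ⟨h2, -⟩
    · rw [hc0] at h3
      have hg : g = true := h3
      refine ⟨hg, ?_⟩
      have hs : ∀ p, s (p + 1) = TS.reset := by
        intro p
        induction p with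
        | zero => exact h4
        | succ p ih =>
          have h6 : tT (s (p + 1)) (cell (cont E P N Y X c true true g) (p + 1)) (s (p + 1 + 1))
            (cell V' (p + 1)) := h (p + 1)
          rw [ih] at h6
          exact h6.1
      apply rl_ext
      intro p
      rcases p with _ | p
      · rw [h5, hd0]
      · have h6 : tT (s (p + 1)) (cell (cont E P N Y X c true true g) (p + 1)) (s (p + 1 + 1))
          (cell V' (p + 1)) := h (p + 1)
        rw [hs p] at h6
        rw [h6.2, hd]
    · exfalso
      apply h2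
      rw [hc0]
      exact ⟨rfl, rfl⟩
  · rintro ⟨hg, rfl⟩
    refine ⟨fun p => if p = 0 then TS.lim else TS.reset, rfl, fun p => ?_⟩
    rcases p with _ | p
    · show tT TS.lim _ TS.reset _
      left
      refine ⟨?_, ?_, ?_, rfl, hd0⟩
      · rw [hc0]; rfl
      · rw [hc0]; rfl
      · rw [hc0]; exact hg
    · show tT TS.reset _ TS.reset _
      exact ⟨rfl, hd p⟩

/-! ### The ordinary sweep -/

/-- a mismatch among the first `i` bits of node `k` -/
def mmB (P N Y : ℕ → ℕ → Bool) (k : ℕ) : ℕ → Bool
  | 0 => false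
  | i + 1 => mmB P N Y k i || (P i k && (Y i k != N i k))

theorem mmB_iff (P N Y : ℕ → ℕ → Bool) (k i : ℕ) :
    mmB P N Y k i = true ↔ ∃ j < i, P j k = true ∧ Y j k ≠ N j k := by
  induction i with
  | zero => simp [mmB]
  | succ i ih =>
    rw [mmB, Bool.or_eq_true, ih, Bool.and_eq_true, bne_iff_ne]
    constructor
    · rintro (⟨j, h1, h2⟩ | h)
      · exact ⟨j, by omega, h2⟩
      · exact ⟨i, by omega, h⟩
    · rintro ⟨j, h1, h2⟩
      by_cases h : j = i
      · subst h; exact Or.inr h2
      · exact Or.inl ⟨j, by omega, h2⟩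

/-- the registers before the cell `p` in the sweep number `n` -/
def regO (E P N Y : ℕ → ℕ → Bool) (n : ℕ) (w : Bool) (p : ℕ) : Reg :=
  if (bp p).1 ≤ n then ⟨w, false, false, false, false, false, mmB P N Y (bp p).1 (bp p).2⟩
  else ⟨w, true, w && !mmB P N Y n (n + 1), Y n n, decide (n < (bp p).2),
    decide (n < (bp p).2) && E n (bp p).1, false⟩

/-- the condition at the cell `p` -/
def condO (E P N Y : ℕ → ℕ → Bool) (X : ℕ → Bool) (n : ℕ) (w : Bool) (p : ℕ) : Prop :=
  ((bp p).1 = n → (bp p).2 = n → w = true → X n = false) ∧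
  (n < (bp p).1 → (bp p).2 = n → Y n (bp p).1 = Y n n) ∧
  (n < (bp p).1 → (bp p).2 = (bp p).1 →
    ¬ ((w && !mmB P N Y n (n + 1)) = true ∧ E n (bp p).1 = true ∧ X (bp p).1 = false))

theorem runT_iff {E P N Y : ℕ → ℕ → Bool} {X : ℕ → Bool} {n : ℕ} {w : Bool} {p : ℕ}
    {u u1 : Bits} {r' : Reg}
    (hX : u 0 = (decide ((bp p).2 = (bp p).1) && X (bp p).1))
    (hC : u 4 = decide ((bp p).2 < n)) (hD : u 5 = decide ((bp p).2 = (bp p).1))
    (hE : u 6 = E (bp p).2 (bp p).1) (hP : u 7 = P (bp p).2 (bp p).1)
    (hN : u 8 = N (bp p).2 (bp p).1) (hY : u 9 = Y (bp p).2 (bp p).1) :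
    runT (regO E P N Y n w p) u r' u1 ↔
      condO E P N Y X n w p ∧ r' = regO E P N Y n w (p + 1) ∧
      (∀ i, i ≠ iX → i ≠ iC → u1 i = u i) ∧
      u1 0 = (decide ((bp p).2 = (bp p).1) &&
        (if w = true then Function.update X n true else X) (bp p).1) ∧
      u1 4 = decide ((bp p).2 < n + 1) := by
  have hle := bp_le p
  have hsucc : bp (p + 1) = if (bp p).2 = (bp p).1 then ((bp p).1 + 1, 0)
    else ((bp p).1, (bp p).2 + 1) := by rw [bp]
  unfold regO condO
  rw [hsucc]
  generalize (bp p).1 = k at *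
  generalize (bp p).2 = i at *
  clear hsucc
  unfold runT
  simp only [iX, iC, iD, iE, iP, iN, iY, Fin.isValue, hX, hC, hD, hE, hP, hN, hY]
  rcases lt_or_ge n k with hk | hk
  · -- blocks after the block `n`
    have hk1 : ¬ k ≤ n := by omega
    have hk2 : k ≠ n := by omega
    rcases lt_trichotomy i n with hi | hi | hi
    · have h1 : ¬ i = k := by omega
      have h2 : ¬ n < i := by omega
      have h3 : i < n + 1 := by omega
      have h4 : ¬ n < i + 1 := by omega
      have h5 : ¬ i = n := by omega
      simp [hk, hk1, hk2, hi, h1, h2, h3, h4, h5]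
      tauto
    · subst hi
      have h1 : ¬ i = k := by omega
      simp [hk, hk1, hk2, h1]
      tauto
    · have h2 : ¬ i < n := by omega
      have h3 : ¬ i < n + 1 := by omega
      have h5 : ¬ i = n := by omega
      by_cases h1 : i = k
      · subst h1
        have h6 : ¬ i + 1 ≤ n := by omega
        have h7 : ¬ i ≤ n := by omega
        have hX' : (if w = true then Function.update X n true else X) i = X i := by
          split_ifs
          · rw [Function.update_of_ne hk2]
          · rfl
        simp only [hX']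
        simp [h2, h3, hi, h6, h7, hk2]
        tauto
      · have h4 : n < i + 1 := by omega
        simp [hk, hk1, hk2, hi, h1, h2, h3, h4, h5]
        tauto
  · have hk0 : ¬ n < k := by omega
    rcases lt_or_ge i n with hi | hi
    · have h3 : i < n + 1 := by omega
      have h5 : ¬ i = n := by omega
      by_cases h1 : i = k
      · subst h1
        have h6 : i + 1 ≤ n := by omega
        have hX' : (if w = true then Function.update X n true else X) i = X i := by
          split_ifs
          · rw [Function.update_of_ne h5]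
          · rfl
        simp only [hX']
        simp [hk, hk0, hi, h3, h5, h6, mmB]
        tauto
      · simp [hk, hk0, hi, h1, h3, h5, mmB]
        tauto
    · have h1 : k = n := by omega
      have h2 : i = n := by omega
      subst h1
      subst h2
      cases w
      · simp [mmB]
        tauto
      · simp [mmB]
        tauto

theorem cell_cont_succ {E P N Y : ℕ → ℕ → Bool} {X X' c c' : ℕ → Bool} {f₁ f₂ g f₁' f₂' g' : Bool}
    {p : ℕ} (hp : p ≠ 0) {u' : Bits}
    (h : ∀ i, i ≠ iX → i ≠ iC → u' i = cell (cont E P N Y X c f₁ f₂ g) p i)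
    (h0 : u' 0 = (decide ((bp p).2 = (bp p).1) && X' (bp p).1)) (h4 : u' 4 = c' p) :
    u' = cell (cont E P N Y X' c' f₁' f₂' g') p := by
  rw [cell_cont] at h
  rw [forall_bits] at h
  obtain ⟨h1, h2, h3, h5, h6, h7, h8, h9⟩ := h
  rw [cell_cont, bits_iff]
  refine ⟨h0, ?_, ?_, ?_, h4, h5, h6, h7, h8, h9⟩
  · rw [h1]; simp [bits, hp]
  · rw [h2]; simp [bits, hp]
  · rw [h3]; simp [bits, hp]

theorem sweepO_iff {E P N Y : ℕ → ℕ → Bool} {X : ℕ → Bool} {n : ℕ} {f g : Bool} {V' : Rl} :
    TT.Sweep .lim (cont E P N Y X (cN n) f (!f) g) V' ↔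
      ∃ w : Bool, (∀ p, condO E P N Y X n w p) ∧
        V' = cont E P N Y (if w = true then Function.update X n true else X) (cN (n + 1)) (!f) f
          (g || w) := by
  have hreg0 : ∀ w, regO E P N Y n w 0 = ⟨w, false, false, false, false, false, false⟩ := by
    intro w
    simp [regO, bp_zero, mmB]
  constructor
  · rintro ⟨s, h0, h⟩
    have h1 : tT (s 0) (cell (cont E P N Y X (cN n) f (!f) g) 0) (s 1) (cell V' 0) := h 0
    rw [h0] at h1
    rcases h1 with ⟨h2, h3, -⟩ | ⟨-, w, r', u1, h2, h3, h4⟩
    · exfalso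
      rw [cell_cont] at h2 h3
      simp [bits, iF1] at h2
      simp [bits, iF2, h2] at h3
    · rw [← hreg0 w] at h2
      rw [runT_iff (X := X) (by rw [cell_cont]; rfl) (by rw [cell_cont]; rfl)
        (by rw [cell_cont]; rfl) (by rw [cell_cont]; rfl) (by rw [cell_cont]; rfl)
        (by rw [cell_cont]; rfl) (by rw [cell_cont]; rfl)] at h2
      obtain ⟨c0, e1, e2, e3, e4⟩ := h2
      have hs : ∀ p, s (p + 1) = TS.run (regO E P N Y n w (p + 1)) ∧
          condO E P N Y X n w (p + 1) ∧ cell V' (p + 1) = cell (cont E P N Y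
            (if w = true then Function.update X n true else X) (cN (n + 1)) (!f) f (g || w))
              (p + 1) := by
        have step : ∀ p, s (p + 1) = TS.run (regO E P N Y n w (p + 1)) →
            (s (p + 1 + 1) = TS.run (regO E P N Y n w (p + 1 + 1)) ∧
            condO E P N Y X n w (p + 1) ∧ cell V' (p + 1) = cell (cont E P N Y
              (if w = true then Function.update X n true else X) (cN (n + 1)) (!f) f (g || w))
              (p + 1)) := by
          intro p hp
          have h5 : tT (s (p + 1)) (cell (cont E P N Y X (cN n) f (!f) g) (p + 1))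
            (s (p + 1 + 1)) (cell V' (p + 1)) := h (p + 1)
          rw [hp] at h5
          obtain ⟨r'', h6, h7⟩ := h5
          rw [runT_iff (X := X) (by rw [cell_cont]; rfl) (by rw [cell_cont]; rfl)
            (by rw [cell_cont]; rfl) (by rw [cell_cont]; rfl) (by rw [cell_cont]; rfl)
            (by rw [cell_cont]; rfl) (by rw [cell_cont]; rfl)] at h7
          obtain ⟨c1, g1, g2, g3, g4⟩ := h7
          refine ⟨by rw [h6, g1], c1, ?_⟩
          exact cell_cont_succ (Nat.succ_ne_zero p) g2 g3 g4
        intro p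
        have hstate : ∀ p, s (p + 1) = TS.run (regO E P N Y n w (p + 1)) := by
          intro p
          induction p with
          | zero => rw [← e1]; exact h3
          | succ p ih => exact (step p ih).1
        exact ⟨hstate p, (step p (hstate p)).2⟩
      refine ⟨w, fun p => ?_, ?_⟩
      · rcases p with _ | p
        · exact c0
        · exact (hs p).2.1
      · apply rl_ext
        intro p
        rcases p with _ | p
        · rw [h4]
          rw [cell_cont] at e2
          rw [cell_cont, cell_cont]
          rw [forall_bits] at e2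
          obtain ⟨k1, k2, k3, k5, k6, k7, k8, k9⟩ := e2
          apply bits_ext
          · exact e3
          · simp [Function.update, iF1, iF2, iG, bits]
          · simp [Function.update, iF1, iF2, iG, bits]
          · simp [Function.update, iF1, iF2, iG, bits]
          · exact e4
          · exact k5
          · exact k6
          · exact k7
          · exact k8
          · exact k9
        · exact (hs p).2.2
  · rintro ⟨w, hc, rfl⟩
    refine ⟨fun p => if p = 0 then TS.lim else TS.run (regO E P N Y n w p), rfl, fun p => ?_⟩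
    rcases p with _ | p
    · show limT (cell (cont E P N Y X (cN n) f (!f) g) 0) (TS.run (regO E P N Y n w 1)) _
      right
      refine ⟨?_, w, regO E P N Y n w 1, fun j => if j = 0 then (decide ((bp 0).2 = (bp 0).1) &&
        (if w = true then Function.update X n true else X) (bp 0).1) else
        if j = 4 then decide ((bp 0).2 < n + 1) else cell (cont E P N Y X (cN n) f (!f) g) 0 j,
        ?_, rfl, ?_⟩
      · rw [cell_cont]
        simp [bits, iF1, iF2]
      · rw [← hreg0 w]
        rw [runT_iff (X := X) (by rw [cell_cont]; rfl) (by rw [cell_cont]; rfl)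
          (by rw [cell_cont]; rfl) (by rw [cell_cont]; rfl) (by rw [cell_cont]; rfl)
          (by rw [cell_cont]; rfl) (by rw [cell_cont]; rfl)]
        refine ⟨hc 0, rfl, ?_, ?_, ?_⟩
        · intro i hi hi'
          simp only [iX, iC] at hi hi'
          simp [hi, hi']
        · simp
        · simp
      · rw [cell_cont, cell_cont]
        apply bits_ext <;> simp [bits, Function.update, iF1, iF2, iG, cN]
    · show ∃ r', TS.run (regO E P N Y n w (p + 1 + 1)) = TS.run r' ∧
        runT (regO E P N Y n w (p + 1)) _ r' _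
      refine ⟨_, rfl, ?_⟩
      rw [runT_iff (X := X) (by rw [cell_cont]; rfl) (by rw [cell_cont]; rfl)
        (by rw [cell_cont]; rfl) (by rw [cell_cont]; rfl) (by rw [cell_cont]; rfl)
        (by rw [cell_cont]; rfl) (by rw [cell_cont]; rfl)]
      refine ⟨hc (p + 1), rfl, ?_, ?_, ?_⟩
      · rw [cell_cont, cell_cont, forall_bits]
        simp [bits]
      · rw [cell_cont]; rfl
      · rw [cell_cont]; rfl

/-- the ordinary sweep number `n` of a round -/
theorem sweep_cont {E P N Y : ℕ → ℕ → Bool} {X : ℕ → Bool} {n : ℕ} {f g : Bool} {V' : Rl} :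
    TT.Sweep .lim (cont E P N Y X (cN n) f (!f) g) V' ↔
      (∀ k, n ≤ k → Y n k = Y n n) ∧ ∃ w : Bool,
        (w = true → X n = false ∧ ((∃ i ≤ n, P i n = true ∧ Y i n ≠ N i n) ∨
          ∀ k, n < k → E n k = true → X k = true)) ∧
        V' = cont E P N Y (if w then Function.update X n true else X) (cN (n + 1)) (!f) f
          (g || w) := by
  rw [sweepO_iff]
  have hmm : mmB P N Y n (n + 1) = true ↔ ∃ i ≤ n, P i n = true ∧ Y i n ≠ N i n := by
    rw [mmB_iff]
    constructor
    · rintro ⟨j, h1, h2⟩; exact ⟨j, by omega, h2⟩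
    · rintro ⟨j, h1, h2⟩; exact ⟨j, by omega, h2⟩
  have key : ∀ w : Bool, (∀ p, condO E P N Y X n w p) ↔
      (∀ k, n ≤ k → Y n k = Y n n) ∧ (w = true → X n = false ∧
        ((∃ i ≤ n, P i n = true ∧ Y i n ≠ N i n) ∨ ∀ k, n < k → E n k = true → X k = true)) := by
    intro w
    rw [← hmm]
    constructor
    · intro h
      refine ⟨fun k hk => ?_, fun hw => ⟨?_, ?_⟩⟩
      · rcases hk.eq_or_lt with h1 | h1
        · rw [← h1]
        · have h2 := (h (pos n k)).2.1
          rw [bp_pos hk] at h2
          exact h2 h1 rfl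
      · have h2 := (h (pos n n)).1
        rw [bp_pos le_rfl] at h2
        exact h2 rfl rfl hw
      · by_cases hm : mmB P N Y n (n + 1) = true
        · exact Or.inl hm
        · right
          intro k hk hE
          have h2 := (h (pos k k)).2.2
          rw [bp_pos le_rfl] at h2
          by_contra hXk
          exact h2 hk rfl ⟨by simp [hw, hm], hE, by simpa using hXk⟩
    · rintro ⟨h1, h2⟩ p
      refine ⟨fun a b hw => (h2 hw).1, fun a b => h1 _ a.le, fun a b hh => ?_⟩
      obtain ⟨h3, h4, h5⟩ := hh
      rw [Bool.and_eq_true, Bool.not_eq_true'] at h3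
      rcases (h2 h3.1).2 with h6 | h6
      · rw [h6] at h3
        exact absurd h3.2 (by simp)
      · have := h6 _ a h4
        rw [h5] at this
        exact absurd this (by simp)
  constructor
  · rintro ⟨w, h1, h2⟩
    obtain ⟨h3, h4⟩ := (key w).1 h1
    exact ⟨h3, w, h4, h2⟩
  · rintro ⟨h3, w, h4, h2⟩
    exact ⟨w, (key w).2 ⟨h3, h4⟩, h2⟩

end Pool.Agent.HKM
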