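import Pool.Agent.HKM.Space93

/-!
# `ω₁^c` is countable
-/

set_option autoImplicit false

namespace Pool.Agent.HKM

open Order Ordinal

/-- codes of functions which are recursive in one oracle -/
inductive OC
  | zero | succ | left | right | oracle
  | pair (a b : OC)
  | comp (a b : OC)
  | prec (a b : OC)
  | rfind (a : OC)
deriving Countable

/-- the function with a code -/
def OC.eval (g : ℕ →. ℕ) : OC → (ℕ →. ℕ)
  | .zero => fun _ => 0
  | .succ => fun n => Part.some (n + 1)
  | .left => fun n => Part.some (Nat.unpair n).1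
  | .right => fun n => Part.some (Nat.unpair n).2
  | .oracle => g
  | .pair a b => fun n => (Nat.pair <$> a.eval g n <*> b.eval g n)
  | .comp a b => fun n => b.eval g n >>= a.eval g
  | .prec a b => fun p =>
      let (x, n) := Nat.unpair p
      n.rec (a.eval g x) fun y IH => do
        let i ← IH
        b.eval g (Nat.pair x (Nat.pair y i))
  | .rfind a => fun x => Nat.rfind fun n => (fun m => m = 0) <$> a.eval g (Nat.pair x n)

theorem exists_OC {g f : ℕ →. ℕ} (h : Nat.RecursiveIn {g} f) : ∃ c : OC, c.eval g = f := by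
  induction h with
  | zero => exact ⟨.zero, rfl⟩
  | succ => exact ⟨.succ, rfl⟩
  | left => exact ⟨.left, rfl⟩
  | right => exact ⟨.right, rfl⟩
  | oracle k hk => exact ⟨.oracle, hk.symm⟩
  | pair _ _ h1 h2 =>
    obtain ⟨a, rfl⟩ := h1
    obtain ⟨b, rfl⟩ := h2
    exact ⟨.pair a b, rfl⟩
  | comp _ _ h1 h2 =>
    obtain ⟨a, rfl⟩ := h1
    obtain ⟨b, rfl⟩ := h2
    exact ⟨.comp a b, rfl⟩
  | prec _ _ h1 h2 =>
    obtain ⟨a, rfl⟩ := h1
    obtain ⟨b, rfl⟩ := h2
    exact ⟨.prec a b, rfl⟩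
  | rfind _ h1 =>
    obtain ⟨a, rfl⟩ := h1
    exact ⟨.rfind a, rfl⟩

/-- the relation with a code -/
def relOC (y : Rl) (c : OC) (m n : ℕ) : Prop :=
  c.eval (orc y) (Encodable.encode (m, n)) = Part.some (Encodable.encode true)

theorem CompRel.exists_OC {y : Rl} {r : ℕ → ℕ → Prop} (h : CompRel y r) :
    ∃ c : OC, r = relOC y c := by
  obtain ⟨g, h1, h2⟩ := h
  unfold ComputableIn₂ ComputableIn RecursiveIn at h1
  obtain ⟨c, hc⟩ := Pool.Agent.HKM.exists_OC h1
  refine ⟨c, ?_⟩
  funext m n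
  unfold relOC
  have h3 : c.eval (orc y) = _ := hc
  rw [h3, h2]
  simp only [Encodable.encodek, Part.coe_some, Part.bind_some, Part.map_some, eq_iff_iff]
  constructor
  · intro h
    rw [h]
  · intro h
    have h4 := Part.some_injective h
    exact Encodable.encode_injective h4

theorem compOrd_countable (y : Rl) : {α | CompOrd y α}.Countable := by
  classical
  have h : {α | CompOrd y α} ⊆ Set.range (fun p : OC × OC =>
      if h : IsWellOrder {n : ℕ | relOC y p.2 n n} (fun a b => relOC y p.1 a b) then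
        Ordinal.type (fun a b : {n : ℕ | relOC y p.2 n n} => relOC y p.1 a b) else 0) := by
    rintro α ⟨r, D, h1, h2, h3, h4⟩
    obtain ⟨c, rfl⟩ := h1.exists_OC
    obtain ⟨d, hd⟩ := h2.exists_OC
    have hD : D = {n : ℕ | relOC y d n n} := by
      ext n
      have := congrFun (congrFun hd n) n
      simp only [true_and, eq_iff_iff] at this
      exact this
    subst hD
    exact ⟨(c, d), by rw [← h4]; exact dif_pos h3⟩
  exact (Set.countable_range _).mono h

theorem ck_lt (y : Rl) : ck y < ω₁ := by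
  obtain ⟨s, hs⟩ : ∃ s : Ordinal.{0}, s < ω₁ ∧ ∀ α, CompOrd y α → α < s := by
    have := (compOrd_countable y).to_subtype
    refine ⟨⨆ α : {α | CompOrd y α}, (α.1 + 1), ?_, ?_⟩
    · refine Ordinal.iSup_lt_omega_one fun α => ?_
      have h1 := CompOrd.lt_omega α.2
      exact (Cardinal.isSuccLimit_omega 1).add_one_lt h1
    · intro α hα
      have h2 := Ordinal.le_iSup (fun α : {α | CompOrd y α} => (α.1 + 1 : Ordinal.{0})) ⟨α, hα⟩
      exact lt_of_lt_of_le (lt_add_one α) h2
  refine lt_of_le_of_lt ?_ hs.1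
  unfold ck
  exact csInf_le (OrderBot.bddBelow _) fun h => lt_irrefl _ (hs.2 s h)

/-- the space measure `1` of a countable computation is countable -/
theorem space_one_lt {Q : Type} (x : Rl) (b : Ordinal.{0} → Conf Q) {ξ : Ordinal.{0}} (h : ξ < ω₁) :
    space 1 x b ξ < ((ω₁ : Ordinal.{0}) : WithTop Ordinal.{0}) := by
  have hc : Countable (Set.Iio ξ) := by
    rw [← Cardinal.mk_le_aleph0_iff, Cardinal.mk_Iio_ordinal, ← Cardinal.lift_aleph0.{1, 0},
      Cardinal.lift_le, ← Cardinal.lt_aleph_one_iff]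
    exact Cardinal.lt_omega_iff_card_lt.1 h
  have h1 : (⨆ γ : Set.Iio ξ, (ck (whole (b γ.1).tp) + 1 : Ordinal.{0})) < ω₁ :=
    Ordinal.iSup_lt_omega_one fun γ => (Cardinal.isSuccLimit_omega 1).add_one_lt (ck_lt _)
  refine lt_of_le_of_lt ?_ (WithTop.coe_lt_coe.2 h1)
  unfold space
  refine iSup₂_le fun γ hγ => ?_
  have h2 : size 1 x (whole (b γ).tp) = ((ck (whole (b γ).tp) + 1 : Ordinal.{0}) : WithTop Ordinal.{0}) := by
    unfold size
    rw [if_neg (by decide)]
  rw [h2]
  refine WithTop.coe_le_coe.2 ?_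
  exact Ordinal.le_iSup (fun γ : Set.Iio ξ => (ck (whole (b γ.1).tp) + 1 : Ordinal.{0})) ⟨γ, hγ⟩

end Pool.Agent.HKM
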