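import Pool.Agent.HKM.SweepGen99

/-!
# Every run of the transducer ends
-/

set_option autoImplicit false

namespace Pool.Agent.HKM

open Order Ordinal

namespace NI58

/-- one cell of an ordinary sweep never removes a mark -/
private lemma runT_X {r r' : Reg} {u u' : Bits} (h : runT r u r' u') (hX : u iX = true) :
    u' iX = true := by
  unfold runT at h
  obtain ⟨-, -, h⟩ := h
  split_ifs at h with h1 h2 h3 h4
  · obtain ⟨-, h3, h4, -⟩ := h
    rcases Bool.eq_false_or_eq_true r.w with hw | hw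
    · exact (h3 hw).2
    · rw [h4 hw]; exact hX
  · rw [h.1]; exact hX
  · rw [h.1]; exact hX
  · rw [h.1]; exact hX
  · rw [h.1]; exact hX

private lemma iXne : iX ≠ iF1 ∧ iX ≠ iF2 ∧ iX ≠ iG ∧ iX ≠ iC := by decide

private lemma limT_X {u u' : Bits} {s' : TS} (h : limT u s' u') (hX : u iX = true) :
    s' ≠ .init ∧ u' iX = true := by
  obtain ⟨n1, n2, n3, n4⟩ := iXne
  rcases h with ⟨-, -, -, h4, h5⟩ | ⟨-, w, r', u1, h2, h3, h4⟩
  · subst h4
    refine ⟨by simp, ?_⟩
    rw [h5, Function.update_of_ne n4, Function.update_of_ne n3, Function.update_of_ne n1]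
    exact hX
  · subst h3
    refine ⟨by simp, ?_⟩
    rw [h4, Function.update_of_ne n3, Function.update_of_ne n2, Function.update_of_ne n1]
    exact runT_X h2 hX

private lemma limT_st {u u' : Bits} {s' : TS} (h : limT u s' u') : s' ≠ .init := by
  rcases h with ⟨-, -, -, h4, h5⟩ | ⟨-, w, r', u1, h2, h3, h4⟩
  · subst h4; simp
  · subst h3; simp

private lemma tT_st {s s' : TS} {u u' : Bits} (hs : s ≠ .init) (h : tT s u s' u') :
    s' ≠ .init := by
  cases s with
  | init => exact absurd rfl hs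
  | lim => exact limT_st h
  | reset => rw [h.1]; simp
  | run r => obtain ⟨r', h1, -⟩ := h; rw [h1]; simp

private lemma tT_X {s s' : TS} {u u' : Bits} (hs : s ≠ .init) (h : tT s u s' u')
    (hX : u iX = true) : u' iX = true := by
  cases s with
  | init => exact absurd rfl hs
  | lim => exact (limT_X h hX).2
  | reset => rw [h.2, Function.update_of_ne iXne.2.2.2]; exact hX
  | run r => obtain ⟨r', -, h1⟩ := h; exact runT_X h1 hX

/-- a sweep never removes a mark -/
lemma sweep_X {V V' : Rl} (h : TT.Sweep .lim V V') {p : ℕ} (hX : cell V p iX = true) :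
    cell V' p iX = true := by
  obtain ⟨s, h0, h1⟩ := h
  have h2 : ∀ p, s p ≠ .init := by
    intro p
    induction p with
    | zero => rw [h0]; intro h; cases h
    | succ p ih => exact tT_st ih (h1 p)
  exact tT_X (h2 p) (h1 p) hX

/-- the state of the content after `n` ordinary sweeps of a round -/
structure Stt (n : ℕ) (V : Rl) : Prop where
  f1 : cell V 0 iF1 = decide (n % 2 = 1)
  f2 : cell V 0 iF2 = !decide (n % 2 = 1)
  c : ∀ p, cell V p iC = decide (idxD (fun p => cell V p iD) p < n)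
  ex : ∃ p, idxD (fun p => cell V p iD) p = n

lemma Stt.succ {n : ℕ} {V V' : Rl} (h : Stt n V) (hs : TT.Sweep .lim V V') :
    Stt (n + 1) V' ∧ ∃ w : Bool, cell V' 0 iG = (cell V 0 iG || w) ∧
      (w = true → ∃ p, cell V p iX = false ∧ cell V' p iX = true) := by
  have hf : ¬ (cell V 0 iF1 = true ∧ cell V 0 iF2 = true) := by
    rw [h.f1, h.f2]
    rintro ⟨h1, h2⟩
    rw [h1] at h2
    simp at h2
  obtain ⟨w, g1, g2, g3, g4, g5, g6, g7, g8⟩ := sweep_gen hs hf h.c h.ex
  have hD : (fun p => cell V' p iD) = fun p => cell V p iD := by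
    funext p
    exact g1 p iD (by decide) (by decide) (fun _ => by decide)
  have hm : decide ((n + 1) % 2 = 1) = !decide (n % 2 = 1) := by
    rcases Nat.mod_two_eq_zero_or_one n with h1 | h1
    · have h2 : (n + 1) % 2 = 1 := by omega
      simp [h1, h2]
    · have h2 : (n + 1) % 2 = 0 := by omega
      simp [h1, h2]
  refine ⟨⟨?_, ?_, ?_, ?_⟩, w, g4, g8⟩
  · rw [g2, h.f1, hm]
  · rw [g3, h.f2, hm]
  · rw [hD]; exact g5
  · rw [hD]; exact g6

lemma sweep_first {x V' : Rl} (h : TT.Sweep .init x V') :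
    Stt 0 V' ∧ cell V' 0 iG = false := by
  obtain ⟨s, h0, h1⟩ := h
  have h2 : ∀ p, s p = .init := by
    intro p
    induction p with
    | zero => exact h0
    | succ p ih =>
      have h3 := h1 p
      rw [ih] at h3
      exact h3.1
  have h3 : ∀ p, cell V' p iF1 = false ∧ cell V' p iF2 = true ∧ cell V' p iG = false ∧
      cell V' p iC = false := by
    intro p
    have h4 := h1 p
    rw [h2 p] at h4
    obtain ⟨-, -, a, b, c, d, -⟩ := h4
    exact ⟨a, b, c, d⟩
  refine ⟨⟨?_, ?_, ?_, ⟨0, rfl⟩⟩, (h3 0).2.2.1⟩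
  · rw [(h3 0).1]; rfl
  · rw [(h3 0).2.1]; rfl
  · intro p
    rw [(h3 p).2.2.2]
    simp

/-- the sweep after a limit stage -/
lemma sweep_lim {V V' : Rl} (h : TT.Sweep .lim V V') (h1 : cell V 0 iF1 = true)
    (h2 : cell V 0 iF2 = true) : cell V 0 iG = true ∧ Stt 0 V' ∧ cell V' 0 iG = false := by
  obtain ⟨s, h0, h3⟩ := h
  have h4 := h3 0
  rw [h0] at h4
  rcases h4 with ⟨-, -, a, b, c⟩ | ⟨a, -⟩
  · have h5 : ∀ p, s (p + 1) = .reset ∧
        (p ≠ 0 → cell V' p = Function.update (cell V p) iC false) := by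
      intro p
      induction p with
      | zero => exact ⟨b, fun h => absurd rfl h⟩
      | succ p ih =>
        have h6 := h3 (p + 1)
        rw [ih.1] at h6
        exact ⟨h6.1, fun _ => h6.2⟩
    refine ⟨a, ⟨?_, ?_, ?_, ⟨0, rfl⟩⟩, ?_⟩
    · rw [c]; rfl
    · rw [c, Function.update_of_ne (by decide), Function.update_of_ne (by decide),
        Function.update_of_ne (by decide), h2]
      rfl
    · intro p
      have h6 : cell V' p iC = false := by
        rcases Nat.eq_zero_or_pos p with h7 | h7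
        · subst h7; rw [c]; rfl
        · rw [(h5 p).2 (by omega)]; rfl
      rw [h6]
      simp
    · rw [c]; rfl
  · exact absurd ⟨h1, h2⟩ a

end NI58

open NI58

/-- ordinals below `ω * β` -/
lemma lt_mul_cases {γ β : Ordinal.{0}} (h : γ < ω * β) :
    ∃ β' < β, ∃ k : ℕ, γ = ω * β' + k := by
  refine ⟨γ / ω, (lt_mul_iff_div_lt omega0_ne_zero).1 h, ?_⟩
  obtain ⟨k, hk⟩ := lt_omega0.1 (mod_lt γ omega0_ne_zero)
  exact ⟨k, by rw [← hk, div_add_mod]⟩

lemma add_nat_lt_mul {β' β : Ordinal.{0}} (h : β' < β) (k : ℕ) : ω * β' + k < ω * β := by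
  have h1 : ω * β' + k < ω * (β' + 1) := by
    rw [mul_add, mul_one]
    exact (add_lt_add_iff_left _).2 (natCast_lt_omega0 k)
  exact h1.trans_le (mul_le_mul_right (add_one_le_iff.2 h) _)

/-- no run of the transducer has length `ω₁` -/
theorem no_run_omega1 (x : Rl) : ¬ ∃ V : Ordinal.{0} → Rl, TT.Run x V (ω_ 1) := by
  rintro ⟨V, hV⟩
  have hO : (0 : Ordinal.{0}) < ω_ 1 := omega_pos 1
  have hOl : IsSuccLimit (ω_ 1 : Ordinal.{0}) := Cardinal.isSuccLimit_omega 1
  have hfirst : TT.Sweep .init (V 0) (V 1) := hV.first hO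
  have hstep : ∀ γ : Ordinal.{0}, γ ≠ 0 → γ < ω_ 1 → TT.Sweep .lim (V γ) (V (γ + 1)) :=
    fun γ h h1 => (hV.step γ h1 h).2
  have hlim : ∀ l : Ordinal.{0}, IsSuccLimit l → l < ω_ 1 → LimSup V l :=
    fun l h h1 => hV.lim l h1.le h
  have hmul : ∀ β : Ordinal.{0}, β < ω_ 1 → ω * β < ω_ 1 := fun β h =>
    isPrincipal_mul_omega 1 omega0_lt_omega_one h
  have hsucc : ∀ β : Ordinal.{0}, β < ω_ 1 → β + 1 < ω_ 1 := fun β h => hOl.add_one_lt h
  -- marks stay
  have hX : ∀ p, ∀ γ' γ : Ordinal.{0}, γ' < ω_ 1 → γ ≠ 0 → γ ≤ γ' → cell (V γ) p iX = true →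
      cell (V γ') p iX = true := by
    intro p γ'
    induction γ' using Ordinal.limitRecOn with
    | zero =>
      intro γ _ h0 h1
      exact absurd (le_antisymm h1 zero_le) h0
    | add_one δ ih =>
      intro γ hb h0 h1 h2
      rcases eq_or_lt_of_le h1 with h3 | h3
      · rw [← h3]; exact h2
      · have h4 : γ ≤ δ := lt_add_one_iff.1 h3
        have h5 : δ ≠ 0 := fun h => h0 (le_antisymm (h ▸ h4) zero_le)
        have h6 : δ < ω_ 1 := (lt_add_one δ).trans hb
        exact sweep_X (hstep δ h5 h6) (ih γ h6 h0 h4 h2)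
    | limit l hl ih =>
      intro γ hb h0 h1 h2
      rcases eq_or_lt_of_le h1 with h3 | h3
      · rw [← h3]; exact h2
      · refine (hlim l hl hb _).2 fun δ hδ => ⟨max γ δ, le_max_right _ _, max_lt h3 hδ, ?_⟩
        exact ih (max γ δ) (max_lt h3 hδ) γ ((max_lt h3 hδ).trans hb) h0 (le_max_left _ _) h2
  have hne1 : ∀ β : Ordinal.{0}, ∀ n : ℕ, ω * β + 1 + n ≠ 0 := by
    intro β n h
    have h1 : (0 : Ordinal.{0}) < ω * β + 1 + n :=
      lt_of_lt_of_le (lt_of_le_of_lt zero_le (lt_add_one _)) (le_add_right le_rfl)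
    exact h1.ne' h
  have hadd : ∀ β : Ordinal.{0}, ∀ n : ℕ, ω * β + 1 + ((n + 1 : ℕ) : Ordinal.{0}) =
      ω * β + 1 + n + 1 := by
    intro β n
    rw [Nat.cast_add, Nat.cast_one, ← add_assoc]
  have hlt : ∀ β' β : Ordinal.{0}, β' < β → ∀ n : ℕ, ω * β' + 1 + n < ω * β := by
    intro β' β h n
    have h1 : ω * β' + 1 + (n : Ordinal.{0}) = ω * β' + ((1 + n : ℕ) : Ordinal.{0}) := by
      rw [add_assoc, Nat.cast_add, Nat.cast_one]
    rw [h1]
    exact add_nat_lt_mul h _
  have hltO : ∀ β : Ordinal.{0}, β < ω_ 1 → ∀ n : ℕ, ω * β + 1 + n < ω_ 1 := fun β h n =>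
    (hlt β (β + 1) (lt_add_one β) n).trans (hmul _ (hsucc β h))
  have hltO0 : ∀ β : Ordinal.{0}, β < ω_ 1 → ω * β + 1 < ω_ 1 := fun β h =>
    hsucc _ (hmul β h)
  -- the rounds
  have hS : ∀ β : Ordinal.{0}, β < ω_ 1 → Stt 0 (V (ω * β + 1)) →
      ∀ n : ℕ, Stt n (V (ω * β + 1 + n)) := by
    intro β hβ h0 n
    induction n with
    | zero => simpa using h0
    | succ n ih =>
      rw [hadd]
      exact (ih.succ (hstep _ (hne1 β n) (hltO β hβ n))).1
  have hR : ∀ β : Ordinal.{0}, β < ω_ 1 →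
      (Stt 0 (V (ω * β + 1)) ∧ cell (V (ω * β + 1)) 0 iG = false) ∧
      (β ≠ 0 → cell (V (ω * β)) 0 iG = true) := by
    intro β
    induction β using WellFoundedLT.induction with
    | ind β ih =>
      intro hb
      rcases eq_or_ne β 0 with h0 | h0
      · subst h0
        rw [mul_zero, zero_add]
        exact ⟨sweep_first hfirst, fun h => absurd rfl h⟩
      · have hl : IsSuccLimit (ω * β) := isSuccLimit_mul_left isSuccLimit_omega0
          (pos_iff_ne_zero.2 h0)
        have hne : ω * β ≠ 0 := hl.bot_lt.ne'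
        have hF : ∀ γ < ω * β, ∃ γ', γ ≤ γ' ∧ γ' < ω * β ∧
            cell (V γ') 0 iF1 = true ∧ cell (V (γ' + 1)) 0 iF2 = true := by
          intro γ hγ
          obtain ⟨β', hβ, k, rfl⟩ := lt_mul_cases hγ
          have h1 := hS β' (hβ.trans hb) (ih β' hβ (hβ.trans hb)).1.1
          refine ⟨ω * β' + 1 + (2 * k + 1 : ℕ), ?_, hlt β' β hβ _, ?_, ?_⟩
          · rw [add_assoc]
            refine (add_le_add_iff_left _).2 ?_
            have h2 : (k : Ordinal.{0}) ≤ ((1 + (2 * k + 1) : ℕ) : Ordinal.{0}) := by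
              exact_mod_cast (by omega : k ≤ 1 + (2 * k + 1))
            refine h2.trans_eq ?_
            rw [Nat.cast_add, Nat.cast_one]
          · rw [(h1 (2 * k + 1)).f1]
            exact decide_eq_true (by omega)
          · have h3 := (h1 (2 * k + 1 + 1)).f2
            rw [hadd] at h3
            rw [h3]
            simp
            omega
        have h1 : cell (V (ω * β)) 0 iF1 = true := by
          refine (hlim _ hl (hmul β hb) _).2 fun γ hγ => ?_
          obtain ⟨γ', a, b, c, d⟩ := hF γ hγ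
          exact ⟨γ', a, b, c⟩
        have h2 : cell (V (ω * β)) 0 iF2 = true := by
          refine (hlim _ hl (hmul β hb) _).2 fun γ hγ => ?_
          obtain ⟨γ', a, b, c, d⟩ := hF γ hγ
          exact ⟨γ' + 1, a.trans (le_add_right le_rfl), hl.add_one_lt b, d⟩
        have h3 := sweep_lim (hstep _ hne (hmul β hb)) h1 h2
        exact ⟨h3.2, fun _ => h3.1⟩
  -- a claim in every round
  have hC : ∀ β : Set.Iio (ω_ 1 : Ordinal.{0}), ∃ p, cell (V (ω * β.1 + 1)) p iX = false ∧
      cell (V (ω * (β.1 + 1))) p iX = true := by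
    rintro ⟨β, hβ⟩
    have hβ : β < ω_ 1 := hβ
    show ∃ p, cell (V (ω * β + 1)) p iX = false ∧ cell (V (ω * (β + 1))) p iX = true
    have hl : IsSuccLimit (ω * (β + 1)) := isSuccLimit_mul_left isSuccLimit_omega0
      (lt_of_le_of_lt zero_le (lt_add_one β))
    have hG := (hR (β + 1) (hsucc β hβ)).2 (lt_of_le_of_lt zero_le (lt_add_one β)).ne'
    obtain ⟨γ', h1, h2, h3⟩ := (hlim _ hl (hmul _ (hsucc β hβ)) _).1 hG (ω * β + 1) (by
      have := hlt β (β + 1) (lt_add_one β) 0
      simpa using this)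
    have h4 : ∃ n : ℕ, γ' = ω * β + 1 + n := by
      have h5 : γ' < ω * β + 1 + ω := by
        rw [mul_add, mul_one] at h2
        refine h2.trans_le ?_
        rw [add_assoc]
        exact (add_le_add_iff_left _).2 (le_add_left le_rfl)
      have h6 : ω * β + 1 + (γ' - (ω * β + 1)) = γ' := Ordinal.add_sub_cancel_of_le h1
      rw [← h6] at h5
      obtain ⟨n, hn⟩ := lt_omega0.1 ((add_lt_add_iff_left _).1 h5)
      exact ⟨n, by rw [← hn, h6]⟩
    obtain ⟨n, rfl⟩ := h4
    -- the first claim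
    have key : ∀ n : ℕ, (∀ m < n, ∀ p, cell (V (ω * β + 1 + m)) p iX = false →
        cell (V (ω * β + 1 + m + 1)) p iX = false) → cell (V (ω * β + 1 + n)) 0 iG = false := by
      intro n
      induction n with
      | zero => intro _; simpa using (hR β hβ).1.2
      | succ n ih =>
        intro h
        obtain ⟨-, w, h7, h8⟩ :=
          (hS β hβ (hR β hβ).1.1 n).succ (hstep _ (hne1 β n) (hltO β hβ n))
        rw [hadd, h7, ih fun m hm => h m (by omega)]
        rcases Bool.eq_false_or_eq_true w with hw | hw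
        · obtain ⟨p, h9, h10⟩ := h8 hw
          rw [h n (by omega) p h9] at h10
          exact absurd h10 (by simp)
        · rw [hw]; rfl
    by_contra hno
    push Not at hno
    have h5 := key n fun m hm p hp => by
      by_contra h6
      have h7 : cell (V (ω * β + 1 + m + 1)) p iX = true := by
        rcases Bool.eq_false_or_eq_true (cell (V (ω * β + 1 + m + 1)) p iX) with h8 | h8
        · exact h8
        · exact absurd h8 h6
      refine hno p ?_ ?_
      · rcases Bool.eq_false_or_eq_true (cell (V (ω * β + 1)) p iX) with h8 | h8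
        · have h9 := hX p (ω * β + 1 + m) (ω * β + 1) (hltO β hβ m) (by simp)
            (le_add_right le_rfl) h8
          rw [hp] at h9
          exact absurd h9 (by simp)
        · exact h8
      · refine hX p _ _ (hmul _ (hsucc β hβ)) ?_ ?_ h7
        · rw [← hadd]; exact hne1 β _
        · rw [← hadd]; exact (hlt β (β + 1) (lt_add_one β) _).le
    have h3' : cell (V (ω * β + 1 + n)) 0 iG = true := h3
    rw [h5] at h3'
    exact absurd h3' (by simp)
  choose f hf using hC
  have hinj : Function.Injective f := by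
    intro β β' he
    by_contra hne
    have hne' : β.1 ≠ β'.1 := fun h => hne (Subtype.ext h)
    rcases lt_or_gt_of_ne hne' with h | h
    · have h1 := hX (f β) (ω * β'.1 + 1) (ω * (β.1 + 1)) (hltO0 _ β'.2)
        (isSuccLimit_mul_left isSuccLimit_omega0 (lt_of_le_of_lt zero_le (lt_add_one β.1))).bot_lt.ne'
        ((mul_le_mul_right (add_one_le_iff.2 h) _).trans (le_add_right le_rfl)) (hf β).2
      rw [he, (hf β').1] at h1
      exact absurd h1 (by simp)
    · have h1 := hX (f β') (ω * β.1 + 1) (ω * (β'.1 + 1)) (hltO0 _ β.2)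
        (isSuccLimit_mul_left isSuccLimit_omega0 (lt_of_le_of_lt zero_le (lt_add_one β'.1))).bot_lt.ne'
        ((mul_le_mul_right (add_one_le_iff.2 h) _).trans (le_add_right le_rfl)) (hf β').2
      rw [← he, (hf β).1] at h1
      exact absurd h1 (by simp)
  have hc : Countable (Set.Iio (ω_ 1 : Ordinal.{0})) := hinj.countable
  have h1 := Cardinal.mk_le_aleph0_iff.2 hc
  rw [Cardinal.mk_Iio_ordinal, Cardinal.lift_le_aleph0, card_omega] at h1
  exact absurd h1 (not_le.2 Cardinal.aleph0_lt_aleph_one)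

theorem no_infinite_run (x : Rl) : ¬ ∃ V : Ordinal.{0} → Rl, ∀ β, TT.Run x V β :=
  fun ⟨V, hV⟩ => no_run_omega1 x ⟨V, hV (ω_ 1)⟩

end Pool.Agent.HKM
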