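import Pool.Agent.HKM.RunComp38
import Pool.Agent.HKM.A1a23
import Pool.Agent.HKM.NoInf58

/-!
Every computation of the machine of the problem has countable length, if no run of the transducer
has length `ω₁`.
-/

set_option autoImplicit false

namespace Pool.Agent.HKM

open Order Ordinal

lemma omega0_mul_omega_one : ω * (ω_ 1 : Ordinal.{0}) = ω_ 1 :=
  isPrincipal_mul_iff_mul_left_eq.1 (isPrincipal_mul_omega 1) ω omega0_pos
    (by simp)

/-- A halting computation of the machine of a transducer without runs of length `ω₁` has countable
length. -/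
theorem Trans.branch_countable_of (T : Trans) {x : Rl} (hno : ¬ ∃ V, T.Run x V (ω_ 1))
    {b : Ordinal.{0} → Conf (St T.S)} {ξ : Ordinal.{0}} (h : T.machine.Branch x b ξ) :
    ξ < ω_ 1 := by
  by_contra hcon
  have h1 : T.machine.IsComp x b (ω * ω_ 1) := by
    rw [omega0_mul_omega_one]
    exact h.1.mono (not_lt.1 hcon)
  exact hno ⟨_, T.run_of_comp h1⟩

/-- Every computation of the machine of the problem halts at a countable stage. -/
theorem branch_countable {x : Rl} {b : Ordinal.{0} → Conf (St TT.S)} {ξ : Ordinal.{0}}
    (h : TT.machine.Branch x b ξ) : ξ < ω_ 1 := TT.branch_countable_of (no_run_omega1 x) h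

end Pool.Agent.HKM
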