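import Mathlib

/-!
Co-analytic subsets of `2^ω × 2^ω` through tables of finite triples, and the diagonal argument.
Row (c0), (c1) of P10 (MP_f7c501_lc).  helper70.
-/

namespace Pool.Agent.HKM

open MeasureTheory Set Filter Topology

/-- The initial segment of length `n` of a sequence. -/
def ini {A : Type} (x : ℕ → A) (n : ℕ) : List A := List.ofFn fun i : Fin n => x i

theorem ini_length {A : Type} (x : ℕ → A) (n : ℕ) : (ini x n).length = n := by
  simp [ini]

theorem ini_eq_iff {A : Type} (x y : ℕ → A) (n : ℕ) :
    ini x n = ini y n ↔ ∀ i < n, x i = y i := by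
  unfold ini
  rw [List.ofFn_inj]
  constructor
  · intro h i hi
    exact congrFun h ⟨i, hi⟩
  · intro h
    funext i
    exact h i i.2

theorem tendsto_of_ini {A : Type} [TopologicalSpace A] (y : ℕ → ℕ → A) (x : ℕ → A)
    (h : ∀ n, ini (y n) n = ini x n) : Tendsto y atTop (𝓝 x) := by
  rw [tendsto_pi_nhds]
  intro i
  apply tendsto_const_nhds.congr'
  filter_upwards [eventually_gt_atTop i] with n hn
  exact ((ini_eq_iff _ _ _).1 (h n) i hn).symm

theorem coanalytic_table (C : Set ((ℕ → Bool) × (ℕ → Bool))) (hC : AnalyticSet Cᶜ) :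
    ∃ t : List Bool → List Bool → List ℕ → Bool, ∀ x w,
      (x, w) ∈ C ↔ ¬ ∃ g : ℕ → ℕ, ∀ n, t (ini x n) (ini w n) (ini g n) = true := by
  classical
  rw [AnalyticSet] at hC
  rcases hC with h | ⟨f, hf, hr⟩
  · refine ⟨fun _ _ _ => false, fun x w => ?_⟩
    have : (x, w) ∈ C := by
      by_contra hx
      have : (x, w) ∈ Cᶜ := hx
      rw [h] at this
      exact this
    simp [this]
  · refine ⟨fun a b s => decide (∃ x w g, ini x a.length = a ∧ ini w b.length = b ∧
      ini g s.length = s ∧ f g = (x, w)), fun x w => ?_⟩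
    have key : (x, w) ∈ Cᶜ ↔ ∃ g : ℕ → ℕ, ∀ n, decide (∃ x' w' g', ini x' (ini x n).length = ini x n
        ∧ ini w' (ini w n).length = ini w n ∧ ini g' (ini g n).length = ini g n ∧
        f g' = (x', w')) = true := by
      rw [← hr]
      constructor
      · rintro ⟨g, hg⟩
        refine ⟨g, fun n => ?_⟩
        rw [decide_eq_true_iff]
        exact ⟨x, w, g, by rw [ini_length], by rw [ini_length], by rw [ini_length], hg⟩
      · rintro ⟨g, hg⟩
        refine ⟨g, ?_⟩
        simp only [decide_eq_true_iff, ini_length] at hg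
        choose x' w' g' h1 h2 h3 h4 using hg
        have t1 : Tendsto x' atTop (𝓝 x) := tendsto_of_ini _ _ h1
        have t2 : Tendsto w' atTop (𝓝 w) := tendsto_of_ini _ _ h2
        have t3 : Tendsto g' atTop (𝓝 g) := tendsto_of_ini _ _ h3
        have t4 : Tendsto (fun n => f (g' n)) atTop (𝓝 (f g)) := (hf.tendsto g).comp t3
        have t5 : Tendsto (fun n => f (g' n)) atTop (𝓝 (x, w)) := by
          simp only [h4]
          exact t1.prodMk_nhds t2
        exact tendsto_nhds_unique t4 t5
    constructor
    · intro hx hg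
      exact (key.2 hg) hx
    · intro hg
      by_contra hx
      exact hg (key.1 hx)

/-- The abstract diagonal: a family of sets closed under `U ↦ {x | U x x}ᶜ` has no universal
member. -/
theorem no_universal {X : Type} (U : X → X → Prop) (z : X) :
    ¬ ∀ x, U z x ↔ ¬ U x x := by
  intro h
  have := h z
  tauto

end Pool.Agent.HKM
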