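import Pool.Agent.HKM.Cont

/-!
# B3: the run which makes every legal claim accepts (helper99)
-/

set_option autoImplicit false

namespace Pool.Agent.HKM

open Order Ordinal

namespace B399

/-- logical state of the run -/
structure SS where
  X : ℕ → Bool
  ph : Option ℕ
  f : Bool
  g : Bool

variable (E P N : ℕ → ℕ → Bool) (y : ℕ → Bool)

/-- the claim of node `n` is legal -/
def legal (X : ℕ → Bool) (n : ℕ) : Prop :=
  X n = false ∧ ((∃ i ≤ n, P i n = true ∧ y i ≠ N i n) ∨ ∀ k, n < k → E n k = true → X k = true)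

open scoped Classical in
/-- one sweep -/
noncomputable def nxt (s : SS) : SS :=
  match s.ph with
  | none => ⟨s.X, some 0, false, false⟩
  | some n => ⟨if decide (legal E P N y s.X n) = true then Function.update s.X n true else s.X,
      some (n + 1), !s.f, s.g || decide (legal E P N y s.X n)⟩

open scoped Classical in
/-- a limit stage -/
noncomputable def lm (l : Ordinal.{0}) (h : ∀ o < l, SS) : SS :=
  ⟨fun k => decide (∃ o, ∃ ho : o < l, (h o ho).X k = true), none, true,
    decide (∀ γ < l, ∃ γ', ∃ h' : γ' < l, γ ≤ γ' ∧ (h γ' h').g = true)⟩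

/-- the states of the run -/
noncomputable def st (o : Ordinal.{0}) : SS :=
  Ordinal.limitRecOn (motive := fun _ => SS) o ⟨fun _ => false, none, true, true⟩
    (fun _ s => nxt E P N y s) (fun l _ h => lm l h)

lemma st_zero : st E P N y 0 = ⟨fun _ => false, none, true, true⟩ := by
  unfold st; rw [Ordinal.limitRecOn_zero]

lemma st_succ (o : Ordinal.{0}) : st E P N y (o + 1) = nxt E P N y (st E P N y o) := by
  unfold st; rw [Ordinal.limitRecOn_add_one]

lemma st_lim (l : Ordinal.{0}) (hl : IsSuccLimit l) :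
    st E P N y l = lm l (fun o _ => st E P N y o) := by
  unfold st; rw [Ordinal.limitRecOn_limit (h := hl)]

/-- content of the tape -/
def val (s : SS) : Rl :=
  match s.ph with
  | none => cont E P N (fun i _ => y i) s.X (fun _ => true) true true s.g
  | some n => cont E P N (fun i _ => y i) s.X (cN n) s.f (!s.f) s.g

open scoped Classical in
/-- the contents -/
noncomputable def VV (o : Ordinal.{0}) : Rl :=
  if o = 0 then enc E P N else val E P N y (st E P N y o)

lemma lea (a b : Ordinal.{0}) : a ≤ a + b := le_self_add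

lemma add_nat_lt {l γ : Ordinal.{0}} (hl : IsSuccLimit l) (h : γ < l) (j : ℕ) : γ + j < l := by
  induction j with
  | zero => simpa using h
  | succ j ih =>
    have : γ + ((j + 1 : ℕ) : Ordinal.{0}) = γ + j + 1 := by push_cast; rw [add_assoc]
    rw [this]
    exact hl.add_one_lt ih

lemma ph_succ (γ : Ordinal.{0}) : ∃ n, (st E P N y (γ + 1)).ph = some n := by
  rw [st_succ]
  unfold nxt
  cases (st E P N y γ).ph with
  | none => exact ⟨0, rfl⟩
  | some n => exact ⟨n + 1, rfl⟩

lemma st_next {γ : Ordinal.{0}} {n : ℕ} (h : (st E P N y γ).ph = some n) :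
    (st E P N y (γ + 1)).ph = some (n + 1) ∧ (st E P N y (γ + 1)).f = !(st E P N y γ).f := by
  rw [st_succ]
  unfold nxt
  rw [h]
  exact ⟨rfl, rfl⟩

lemma ph_add (γ : Ordinal.{0}) (j : ℕ) : ∃ n, j ≤ n ∧ (st E P N y (γ + 1 + j)).ph = some n := by
  induction j with
  | zero =>
    obtain ⟨n, hn⟩ := ph_succ E P N y γ
    exact ⟨n, Nat.zero_le _, by simpa using hn⟩
  | succ j ih =>
    obtain ⟨n, hn, h⟩ := ih
    refine ⟨n + 1, by omega, ?_⟩
    have : γ + 1 + ((j + 1 : ℕ) : Ordinal.{0}) = γ + 1 + j + 1 := by push_cast; rw [add_assoc _ _ 1]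
    rw [this]
    exact (st_next E P N y h).1

/-- unboundedly often the sweep number is large and the flag has a given value -/
lemma often {l γ : Ordinal.{0}} (hl : IsSuccLimit l) (h : γ < l) (m : ℕ) (b : Bool) :
    ∃ γ', γ ≤ γ' ∧ γ' < l ∧ γ' ≠ 0 ∧ ∃ n, m ≤ n ∧ (st E P N y γ').ph = some n ∧
      (st E P N y γ').f = b := by
  obtain ⟨n, hn, h1⟩ := ph_add E P N y γ m
  have h2 := st_next E P N y h1
  have e1 : γ ≤ γ + 1 + m := le_trans (lea γ 1) (lea _ _)
  have e2 : γ + 1 + (m : Ordinal.{0}) < l := add_nat_lt hl (hl.add_one_lt h) m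
  have e3 : γ + 1 + (m : Ordinal.{0}) ≠ 0 := by
    intro h0
    have : γ + 1 ≤ 0 := by rw [← h0]; exact lea _ _
    exact absurd (lt_of_lt_of_le (lt_add_one γ) this) (not_lt_bot)
  by_cases hb : (st E P N y (γ + 1 + m)).f = b
  · exact ⟨_, e1, e2, e3, n, hn, h1, hb⟩
  · refine ⟨γ + 1 + m + 1, e1.trans (lea _ 1), hl.add_one_lt e2, ?_, n + 1, by omega,
      h2.1, ?_⟩
    · intro h0
      exact absurd (lt_of_lt_of_le (lt_add_one _) h0.le) (not_lt_bot)
    · rw [h2.2]
      revert hb
      cases (st E P N y (γ + 1 + m)).f <;> cases b <;> simp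

lemma X_succ (γ : Ordinal.{0}) (k : ℕ) (h : (st E P N y γ).X k = true) :
    (st E P N y (γ + 1)).X k = true := by
  rw [st_succ]
  unfold nxt
  cases (st E P N y γ).ph with
  | none => exact h
  | some n =>
    dsimp only
    split_ifs
    · by_cases hk : k = n
      · subst hk; simp
      · rw [Function.update_of_ne hk]; exact h
    · exact h

lemma X_lim {l : Ordinal.{0}} (hl : IsSuccLimit l) (k : ℕ) :
    (st E P N y l).X k = true ↔ ∃ o < l, (st E P N y o).X k = true := by
  rw [st_lim E P N y l hl]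
  unfold lm
  simp

lemma X_mono {γ γ' : Ordinal.{0}} (h : γ ≤ γ') (k : ℕ) (hX : (st E P N y γ).X k = true) :
    (st E P N y γ').X k = true := by
  induction γ' using Ordinal.limitRecOn with
  | zero =>
    have : γ = 0 := le_antisymm h zero_le
    rwa [this] at hX
  | add_one o ih =>
    rcases h.eq_or_lt with h1 | h1
    · rwa [← h1]
    · exact X_succ E P N y o k (ih (Order.lt_add_one_iff.1 h1))
  | limit l hl ih =>
    rcases h.eq_or_lt with h1 | h1
    · rwa [← h1]
    · exact (X_lim E P N y hl k).2 ⟨γ, h1, hX⟩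

lemma g_lim {l : Ordinal.{0}} (hl : IsSuccLimit l) :
    (st E P N y l).g = true ↔ ∀ γ < l, ∃ γ', γ ≤ γ' ∧ γ' < l ∧ (st E P N y γ').g = true := by
  rw [st_lim E P N y l hl]
  unfold lm
  simp only [decide_eq_true_eq]
  constructor
  · intro h γ hγ
    obtain ⟨γ', h1, h2, h3⟩ := h γ hγ
    exact ⟨γ', h2, h1, h3⟩
  · intro h γ hγ
    obtain ⟨γ', h1, h2, h3⟩ := h γ hγ
    exact ⟨γ', h2, h1, h3⟩

lemma ph_lim {l : Ordinal.{0}} (hl : IsSuccLimit l) : (st E P N y l).ph = none := by
  rw [st_lim E P N y l hl]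
  rfl

/-- nodes passed in a round without claim are not legal -/
lemma inv (γ : Ordinal.{0}) {m : ℕ} (h : (st E P N y γ).ph = some m)
    (hg : (st E P N y γ).g = false) : ∀ n < m, ¬ legal E P N y (st E P N y γ).X n := by
  classical
  induction γ using Ordinal.limitRecOn generalizing m with
  | zero => rw [st_zero] at h; cases h
  | add_one o ih =>
    rw [st_succ] at h hg ⊢
    unfold nxt at h hg ⊢
    cases hp : (st E P N y o).ph with
    | none =>
      rw [hp] at h
      intro n hn
      have : m = 0 := by simpa using h.symm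
      omega
    | some n0 =>
      rw [hp] at h hg
      simp only [Option.some.injEq] at h
      simp only [Bool.or_eq_false_iff, decide_eq_false_iff_not] at hg
      intro n hn
      simp only [hg.2, decide_false, Bool.false_eq_true, if_false]
      by_cases hnn : n = n0
      · subst hnn; exact hg.2
      · exact ih hp hg.1 n (by omega)
  | limit l hl ih => rw [ph_lim E P N y hl] at h; cases h

/-- nothing changes while no claim is made -/
lemma const {l γ₀ : Ordinal.{0}} (h0 : γ₀ < l)
    (hg : ∀ γ', γ₀ ≤ γ' → γ' < l → (st E P N y γ').g = false) (γ : Ordinal.{0}) (h1 : γ₀ ≤ γ)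
    (h2 : γ < l ∨ (γ = l ∧ IsSuccLimit l)) : (st E P N y γ).X = (st E P N y γ₀).X := by
  classical
  induction γ using Ordinal.limitRecOn with
  | zero =>
    have : γ₀ = 0 := le_antisymm h1 zero_le
    rw [this]
  | add_one o ih =>
    rcases h1.eq_or_lt with h3 | h3
    · rw [← h3]
    · have h4 : γ₀ ≤ o := Order.lt_add_one_iff.1 h3
      have h5 : o + 1 < l := by
        rcases h2 with h2 | ⟨h2, h6⟩
        · exact h2
        · exfalso
          rw [← h2] at h6
          exact not_isSuccLimit_add_one _ h6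
      have h6 := ih h4 (Or.inl ((lt_add_one o).trans h5))
      rw [← h6]
      have h7 := hg (o + 1) h1 h5
      rw [st_succ] at h7 ⊢
      unfold nxt at h7 ⊢
      cases hp : (st E P N y o).ph with
      | none => rfl
      | some n0 =>
        rw [hp] at h7
        simp only [Bool.or_eq_false_iff, decide_eq_false_iff_not] at h7
        simp [h7.2]
  | limit o ho ih =>
    rcases h1.eq_or_lt with h3 | h3
    · rw [← h3]
    · have hol : o ≤ l := by
        rcases h2 with h2 | h2
        · exact h2.le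
        · exact h2.1.le
      funext k
      rw [Bool.eq_iff_iff, X_lim E P N y ho k]
      constructor
      · rintro ⟨o', h4, h5⟩
        rcases le_total γ₀ o' with h6 | h6
        · rwa [ih o' h4 h6 (Or.inl (h4.trans_le hol))] at h5
        · exact X_mono E P N y h6 k h5
      · intro h4
        exact ⟨γ₀, h3, h4⟩

/-- a round without claim: everything accessible is marked -/
lemma closed {l : Ordinal.{0}} (hl : IsSuccLimit l) (hg : (st E P N y l).g = false) (k : ℕ)
    (h : Acs E P N y k) : (st E P N y l).X k = true := by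
  have h1 : ¬ (∀ γ < l, ∃ γ', γ ≤ γ' ∧ γ' < l ∧ (st E P N y γ').g = true) := by
    intro h1
    rw [(g_lim E P N y hl).2 h1] at hg
    cases hg
  push Not at h1
  obtain ⟨γ₀, h2, h3⟩ := h1
  have h3 : ∀ γ', γ₀ ≤ γ' → γ' < l → (st E P N y γ').g = false := by
    intro γ' a b
    have := h3 γ' a b
    simpa using this
  have hc := const E P N y h2 h3
  have hl1 := hc l h2.le (Or.inr ⟨rfl, hl⟩)
  have nl : ∀ n, ¬ legal E P N y (st E P N y l).X n := by
    intro n
    obtain ⟨γ', a, b, -, m, c, d, -⟩ := often E P N y hl h2 (n + 1) true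
    have := inv E P N y γ' d (h3 γ' a b) n (by omega)
    rwa [hc γ' a (Or.inl b), ← hl1] at this
  induction h with
  | mis k i hi hP hy =>
    by_contra hX
    exact nl k ⟨by simpa using hX, Or.inl ⟨i, hi, hP, hy⟩⟩
  | all k _ ih =>
    by_contra hX
    exact nl k ⟨by simpa using hX, Or.inr ih⟩

lemma VV_pos {γ : Ordinal.{0}} (h : γ ≠ 0) : VV E P N y γ = val E P N y (st E P N y γ) := by
  unfold VV; rw [if_neg h]

/-- all contents as `cont` -/
lemma VV_cont {γ : Ordinal.{0}} (h : γ ≠ 0) : ∃ c f₁ f₂,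
    VV E P N y γ = cont E P N (fun i _ => y i) (st E P N y γ).X c f₁ f₂ (st E P N y γ).g ∧
    (∀ n, (st E P N y γ).ph = some n → c = cN n ∧ f₁ = (st E P N y γ).f ∧
      f₂ = !(st E P N y γ).f) := by
  rw [VV_pos E P N y h]
  unfold val
  cases hp : (st E P N y γ).ph with
  | none => exact ⟨_, _, _, rfl, fun n hn => by cases hn⟩
  | some n => exact ⟨_, _, _, rfl, fun m hm => by cases hm; exact ⟨rfl, rfl, rfl⟩⟩

lemma VV_lim {l : Ordinal.{0}} (hl : IsSuccLimit l) :
    VV E P N y l = cont E P N (fun i _ => y i) (st E P N y l).X (fun _ => true) true true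
      (st E P N y l).g := by
  have h0 : l ≠ 0 := by
    rintro rfl
    exact not_isSuccLimit_bot hl
  rw [VV_pos E P N y h0]
  unfold val
  rw [ph_lim E P N y hl]

lemma limSup {l : Ordinal.{0}} (hl : IsSuccLimit l) : LimSup (VV E P N y) l := by
  have h0 : (0 : Ordinal.{0}) < l := hl.bot_lt
  have h1 : (0 : Ordinal.{0}) + 1 < l := hl.add_one_lt h0
  have ne1 : ∀ γ : Ordinal.{0}, γ + 1 ≠ 0 := by
    intro γ h
    exact absurd (lt_of_lt_of_le (lt_add_one _) h.le) (not_lt_bot)
  have pos1 : ∀ γ : Ordinal.{0}, (0 : Ordinal.{0}) + 1 ≤ γ → γ ≠ 0 := by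
    intro γ h h2
    subst h2
    exact absurd (lt_of_lt_of_le (lt_add_one _) h) (not_lt_bot)
  intro m
  rw [VV_lim E P N y hl]
  have hz : VV E P N y 0 = enc E P N := by unfold VV; rw [if_pos rfl]
  have hm : m % 10 = 0 ∨ m % 10 = 1 ∨ m % 10 = 2 ∨ m % 10 = 3 ∨ m % 10 = 4 ∨ m % 10 = 5 ∨
      m % 10 = 6 ∨ m % 10 = 7 ∨ m % 10 = 8 ∨ m % 10 = 9 := by omega
  -- constant bits
  have cst : ∀ B : Bool, (∀ γ, VV E P N y γ m = B) → (B = true ↔
      ∀ γ < l, ∃ γ', γ ≤ γ' ∧ γ' < l ∧ VV E P N y γ' m = true) := by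
    intro B hB
    constructor
    · intro hb γ hγ
      exact ⟨γ, le_rfl, hγ, (hB γ).trans hb⟩
    · intro h
      obtain ⟨γ', -, -, h3⟩ := h 0 h0
      rw [← hB γ']; exact h3
  rcases hm with hm | hm | hm | hm | hm | hm | hm | hm | hm | hm
  · -- X
    have hB : ∀ γ, VV E P N y γ m = (decide ((bp (m / 10)).2 = (bp (m / 10)).1) &&
        (st E P N y γ).X (bp (m / 10)).1) := by
      intro γ
      by_cases hγ : γ = 0
      · subst hγ; rw [hz, st_zero]; simp [enc, hm]
      · obtain ⟨c, f1, f2, h2, -⟩ := VV_cont E P N y hγ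
        rw [h2]; simp [cont, hm]
    have e1 : cont E P N (fun i _ => y i) (st E P N y l).X (fun _ => true) true true
      (st E P N y l).g m = (decide ((bp (m / 10)).2 = (bp (m / 10)).1) &&
        (st E P N y l).X (bp (m / 10)).1) := by simp [cont, hm]
    rw [e1]
    constructor
    · intro h γ hγ
      rw [Bool.and_eq_true] at h
      obtain ⟨o, ho, h3⟩ := (X_lim E P N y hl _).1 h.2
      refine ⟨max γ o, le_max_left _ _, max_lt hγ ho, ?_⟩
      rw [hB, Bool.and_eq_true]
      exact ⟨h.1, X_mono E P N y (le_max_right _ _) _ h3⟩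
    · intro h
      obtain ⟨γ', -, h2, h3⟩ := h 0 h0
      rw [hB, Bool.and_eq_true] at h3
      rw [Bool.and_eq_true]
      exact ⟨h3.1, (X_lim E P N y hl _).2 ⟨γ', h2, h3.2⟩⟩
  · -- F1
    by_cases hp : m / 10 = 0
    · constructor
      · intro _ γ hγ
        obtain ⟨γ', a, b, c, n, -, d, e⟩ := often E P N y hl hγ 0 true
        refine ⟨γ', a, b, ?_⟩
        obtain ⟨c1, f1, f2, h2, h3⟩ := VV_cont E P N y c
        rw [h2]
        simp [cont, hm, hp, (h3 n d).2.1, e]
      · intro _
        simp [cont, hm, hp]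
    · have hB : ∀ γ, VV E P N y γ m = false := by
        intro γ
        by_cases hγ : γ = 0
        · subst hγ; rw [hz]; simp [enc, hm]
        · obtain ⟨c, f1, f2, h2, -⟩ := VV_cont E P N y hγ
          rw [h2]; simp only [cont, hm, hp, decide_false, Bool.false_and]
      have e1 := cst false hB
      rw [← e1]
      simp only [cont, hm, hp, decide_false, Bool.false_and]
  · -- F2
    constructor
    · intro _ γ hγ
      obtain ⟨γ', a, b, c, n, -, d, e⟩ := often E P N y hl hγ 0 false
      refine ⟨γ', a, b, ?_⟩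
      obtain ⟨c1, f1, f2, h2, h3⟩ := VV_cont E P N y c
      rw [h2]
      simp [cont, hm, (h3 n d).2.2, e]
    · intro _
      simp [cont, hm]
  · -- G
    have hB : ∀ γ, γ ≠ 0 → VV E P N y γ m = (decide (m / 10 = 0) && (st E P N y γ).g) := by
      intro γ hγ
      obtain ⟨c, f1, f2, h2, -⟩ := VV_cont E P N y hγ
      rw [h2]; simp only [cont, hm]
    have e1 : cont E P N (fun i _ => y i) (st E P N y l).X (fun _ => true) true true
      (st E P N y l).g m = (decide (m / 10 = 0) && (st E P N y l).g) := by simp only [cont, hm]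
    rw [e1]
    constructor
    · intro h γ hγ
      rw [Bool.and_eq_true] at h
      obtain ⟨γ', a, b, c⟩ := (g_lim E P N y hl).1 h.2 (γ + 1) (hl.add_one_lt hγ)
      have hne : γ' ≠ 0 := by
        rintro rfl
        exact absurd (lt_of_lt_of_le (lt_add_one _) a) (not_lt_bot)
      refine ⟨γ', le_trans (lea γ 1) a, b, ?_⟩
      rw [hB γ' hne, Bool.and_eq_true]
      exact ⟨h.1, c⟩
    · intro h
      have hz0 : VV E P N y 0 m = false := by rw [hz]; simp [enc, hm]
      have key : ∀ γ < l, ∃ γ', γ ≤ γ' ∧ γ' < l ∧ decide (m / 10 = 0) = true ∧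
          (st E P N y γ').g = true := by
        intro γ hγ
        obtain ⟨γ', a, b, c⟩ := h γ hγ
        have hne : γ' ≠ 0 := by
          rintro rfl
          rw [hz0] at c; cases c
        rw [hB γ' hne, Bool.and_eq_true] at c
        exact ⟨γ', a, b, c.1, c.2⟩
      rw [Bool.and_eq_true]
      obtain ⟨-, -, -, q, -⟩ := key 0 h0
      exact ⟨q, (g_lim E P N y hl).2 fun γ hγ => by
        obtain ⟨γ', a, b, -, d⟩ := key γ hγ
        exact ⟨γ', a, b, d⟩⟩
  · -- C
    constructor
    · intro _ γ hγ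
      obtain ⟨γ', a, b, c, n, h4, d, e⟩ := often E P N y hl hγ ((bp (m / 10)).2 + 1) false
      refine ⟨γ', a, b, ?_⟩
      obtain ⟨c1, f1, f2, h2, h3⟩ := VV_cont E P N y c
      rw [h2, (h3 n d).1]
      simp only [cont, hm, cN, decide_eq_true_eq]
      omega
    · intro _
      simp [cont, hm]
  · have hB : ∀ γ, VV E P N y γ m = decide ((bp (m / 10)).2 = (bp (m / 10)).1) := by
      intro γ
      by_cases hγ : γ = 0
      · subst hγ; rw [hz]; simp [enc, hm]
      · obtain ⟨c, f1, f2, h2, -⟩ := VV_cont E P N y hγ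
        rw [h2]; simp [cont, hm]
    have e1 := cst _ hB
    rw [← e1]
    simp [cont, hm]
  · have hB : ∀ γ, VV E P N y γ m = E (bp (m / 10)).2 (bp (m / 10)).1 := by
      intro γ
      by_cases hγ : γ = 0
      · subst hγ; rw [hz]; simp [enc, hm]
      · obtain ⟨c, f1, f2, h2, -⟩ := VV_cont E P N y hγ
        rw [h2]; simp [cont, hm]
    have e1 := cst _ hB
    rw [← e1]
    simp [cont, hm]
  · have hB : ∀ γ, VV E P N y γ m = P (bp (m / 10)).2 (bp (m / 10)).1 := by
      intro γ
      by_cases hγ : γ = 0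
      · subst hγ; rw [hz]; simp [enc, hm]
      · obtain ⟨c, f1, f2, h2, -⟩ := VV_cont E P N y hγ
        rw [h2]; simp [cont, hm]
    have e1 := cst _ hB
    rw [← e1]
    simp [cont, hm]
  · have hB : ∀ γ, VV E P N y γ m = N (bp (m / 10)).2 (bp (m / 10)).1 := by
      intro γ
      by_cases hγ : γ = 0
      · subst hγ; rw [hz]; simp [enc, hm]
      · obtain ⟨c, f1, f2, h2, -⟩ := VV_cont E P N y hγ
        rw [h2]; simp [cont, hm]
    have e1 := cst _ hB
    rw [← e1]
    simp [cont, hm]
  · have hB : ∀ γ, γ ≠ 0 → VV E P N y γ m = y (bp (m / 10)).2 := by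
      intro γ hγ
      obtain ⟨c, f1, f2, h2, -⟩ := VV_cont E P N y hγ
      rw [h2]; simp [cont, hm]
    have e1 : cont E P N (fun i _ => y i) (st E P N y l).X (fun _ => true) true true
      (st E P N y l).g m = y (bp (m / 10)).2 := by simp [cont, hm]
    rw [e1]
    constructor
    · intro h γ hγ
      exact ⟨γ + 1, lea γ 1, hl.add_one_lt hγ, (hB _ (ne1 γ)).trans h⟩
    · intro h
      obtain ⟨γ', a, -, c⟩ := h (0 + 1) h1
      rw [hB γ' (pos1 γ' a)] at c
      exact c

/-- the run -/
theorem run_of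
    (hinit : ∀ {E P N : ℕ → ℕ → Bool} {V' : Rl}, TT.Sweep .init (enc E P N) V' ↔
      ∃ Y, V' = cont E P N Y (fun _ => false) (fun _ => false) false true false)
    (hreset : ∀ {E P N Y : ℕ → ℕ → Bool} {X c : ℕ → Bool} {g : Bool} {V' : Rl},
      TT.Sweep .lim (cont E P N Y X c true true g) V' ↔
        g = true ∧ V' = cont E P N Y X (fun _ => false) false true false)
    (hcont : ∀ {E P N Y : ℕ → ℕ → Bool} {X : ℕ → Bool} {n : ℕ} {f g : Bool} {V' : Rl},
      TT.Sweep .lim (cont E P N Y X (cN n) f (!f) g) V' ↔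
      (∀ k, n ≤ k → Y n k = Y n n) ∧ ∃ w : Bool,
        (w = true → X n = false ∧ ((∃ i ≤ n, P i n = true ∧ Y i n ≠ N i n) ∨
          ∀ k, n < k → E n k = true → X k = true)) ∧
        V' = cont E P N Y (if w then Function.update X n true else X) (cN (n + 1)) (!f) f (g || w))
    (h : Acs E P N y 0) (β : Ordinal.{0}) (hb : ∀ γ < β, γ ≠ 0 → VV E P N y γ 0 = false) :
    TT.Run (enc E P N) (VV E P N y) β := by
  classical
  have hz : VV E P N y 0 = enc E P N := by unfold VV; rw [if_pos rfl]
  have c0 : cN 0 = fun _ => false := by funext p; simp [cN]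
  have ne1 : ∀ γ : Ordinal.{0}, γ + 1 ≠ 0 := by
    intro γ h
    exact absurd (lt_of_lt_of_le (lt_add_one _) h.le) (not_lt_bot)
  refine ⟨hz, ?_, ?_, fun l _ hl => limSup E P N y hl⟩
  · intro _
    have h1 : VV E P N y 1 = cont E P N (fun i _ => y i) (fun _ => false) (fun _ => false)
        false true false := by
      have e : (1 : Ordinal.{0}) = 0 + 1 := by rw [zero_add]
      rw [e, VV_pos E P N y (ne1 0), st_succ, st_zero, ← c0]
      rfl
    rw [hz, h1]
    exact hinit.2 ⟨_, rfl⟩
  · intro γ hγ hne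
    refine ⟨hb γ hγ hne, ?_⟩
    have h2 : VV E P N y (γ + 1) = val E P N y (nxt E P N y (st E P N y γ)) := by
      rw [VV_pos E P N y (ne1 γ), st_succ]
    rcases zero_or_succ_or_isSuccLimit γ with h3 | ⟨δ, h3⟩ | h3
    · exact absurd h3 hne
    · obtain ⟨n, hn⟩ := ph_succ E P N y δ
      have h3 : γ = δ + 1 := h3.symm
      rw [← h3] at hn
      rw [h2, VV_pos E P N y hne]
      unfold val nxt
      rw [hn]
      refine hcont.2 ⟨fun _ _ => rfl, decide (legal E P N y (st E P N y γ).X n), ?_, ?_⟩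
      · intro hw
        have hw : legal E P N y (st E P N y γ).X n := of_decide_eq_true hw
        exact hw
      · simp
    · rw [h2, VV_lim E P N y h3]
      have hg : (st E P N y γ).g = true := by
        by_contra hg
        have hX := closed E P N y h3 (by simpa using hg) 0 h
        have h4 := hb γ hγ hne
        rw [VV_lim E P N y h3] at h4
        simp [cont, bp, hX] at h4
      unfold val nxt
      rw [ph_lim E P N y h3]
      exact hreset.2 ⟨hg, by rw [← c0]; rfl⟩

end B399

/-- B3 from B1 and the sweep lemmas -/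
theorem complete_of
    (hinit : ∀ {E P N : ℕ → ℕ → Bool} {V' : Rl}, TT.Sweep .init (enc E P N) V' ↔
      ∃ Y, V' = cont E P N Y (fun _ => false) (fun _ => false) false true false)
    (hreset : ∀ {E P N Y : ℕ → ℕ → Bool} {X c : ℕ → Bool} {g : Bool} {V' : Rl},
      TT.Sweep .lim (cont E P N Y X c true true g) V' ↔
        g = true ∧ V' = cont E P N Y X (fun _ => false) false true false)
    (hcont : ∀ {E P N Y : ℕ → ℕ → Bool} {X : ℕ → Bool} {n : ℕ} {f g : Bool} {V' : Rl},
      TT.Sweep .lim (cont E P N Y X (cN n) f (!f) g) V' ↔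
      (∀ k, n ≤ k → Y n k = Y n n) ∧ ∃ w : Bool,
        (w = true → X n = false ∧ ((∃ i ≤ n, P i n = true ∧ Y i n ≠ N i n) ∨
          ∀ k, n < k → E n k = true → X k = true)) ∧
        V' = cont E P N Y (if w then Function.update X n true else X) (cN (n + 1)) (!f) f (g || w))
    (hno : ∀ x : Rl, ¬ ∃ V : Ordinal.{0} → Rl, ∀ β, TT.Run x V β)
    {E P N : ℕ → ℕ → Bool} {y : ℕ → Bool} (h : Acs E P N y 0) :
    ∃ (V : Ordinal.{0} → Rl) (β : Ordinal.{0}), β ≠ 0 ∧ TT.Run (enc E P N) V β ∧ V β 0 = true := by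
  by_contra hc
  push Not at hc
  have key : ∀ γ : Ordinal.{0}, γ ≠ 0 → B399.VV E P N y γ 0 = false := by
    intro γ
    induction γ using WellFoundedLT.induction with
    | ind γ ih =>
      intro hne
      have hr := B399.run_of E P N y hinit hreset hcont h γ ih
      have := hc _ γ hne hr
      simpa using this
  exact hno (enc E P N) ⟨B399.VV E P N y, fun β =>
    B399.run_of E P N y hinit hreset hcont h β (fun γ _ hne => key γ hne)⟩

end Pool.Agent.HKM
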