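import Pool.Agent.HKM.Trans

/-!
# Contents of the input tape, codes of trees
-/

set_option autoImplicit false

namespace Pool.Agent.HKM

open Order

/-- position in the current block, if `D` marks the last cells of the blocks -/
def idxD (D : ℕ → Bool) : ℕ → ℕ
  | 0 => 0
  | p + 1 => if D p = true then 0 else idxD D p + 1

/-- block and position in the block of the cell `p`, when block `k` has the `k + 1` cells
`(k, 0), ..., (k, k)` -/
def bp : ℕ → ℕ × ℕ
  | 0 => (0, 0)
  | p + 1 => if (bp p).2 = (bp p).1 then ((bp p).1 + 1, 0) else ((bp p).1, (bp p).2 + 1)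

/-- the cell number `i` of block `k` -/
def pos (i k : ℕ) : ℕ := k * (k + 1) / 2 + i

/-- The content of the input tape during the run: `E i k`, `P i k`, `N i k` are the bits of the
input at the cell `(k, i)`, `Y i k` the guessed bit, `X k` the mark of node `k` (in the last cell of
block `k`), `c p` the bit `C` of the cell `p`, and `f₁, f₂, g` the flags (in cell `0`). -/
def cont (E P N Y : ℕ → ℕ → Bool) (X : ℕ → Bool) (c : ℕ → Bool) (f₁ f₂ g : Bool) : Rl := fun n =>
  let p := n / 10
  let k := (bp p).1
  let i := (bp p).2
  match n % 10 with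
  | 0 => decide (i = k) && X k
  | 1 => decide (p = 0) && f₁
  | 2 => !decide (p = 0) || f₂
  | 3 => decide (p = 0) && g
  | 4 => c p
  | 5 => decide (i = k)
  | 6 => E i k
  | 7 => P i k
  | 8 => N i k
  | _ => Y i k

/-- the input which codes `E`, `P`, `N` -/
def enc (E P N : ℕ → ℕ → Bool) : Rl := fun n =>
  let k := (bp (n / 10)).1
  let i := (bp (n / 10)).2
  match n % 10 with
  | 5 => decide (i = k)
  | 6 => E i k
  | 7 => P i k
  | 8 => N i k
  | _ => false

/-- the bits `C` after the first `n` ordinary sweeps of a round -/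
def cN (n : ℕ) : ℕ → Bool := fun p => decide ((bp p).2 < n)

/-- node `k` is accessible: the bit `y i` differs from the one that `k` asks for, or all children
of `k` are accessible -/
inductive Acs (E P N : ℕ → ℕ → Bool) (y : ℕ → Bool) : ℕ → Prop
  | mis (k i : ℕ) : i ≤ k → P i k = true → y i ≠ N i k → Acs E P N y k
  | all (k : ℕ) : (∀ k', k < k' → E k k' = true → Acs E P N y k') → Acs E P N y k

/-! ### Coding of `Σ¹₂` sets -/

/-- the first `n` values -/
def pre {α : Type} (f : ℕ → α) (n : ℕ) : List α := (List.range n).map f

/-- the set with code `e`: all `z` such that for some `y ∈ 2^ω` there is no `w ∈ ω^ω` with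
`e (z ↾ n, y ↾ n, w ↾ n) = 1` for all `n` -/
def Bset (e : Rl) : Set Rl :=
  {z | ∃ y : Rl, ∀ w : ℕ → ℕ, ∃ n, e (Encodable.encode (pre z n, pre y n, pre w n)) = false}

/-- the diagonal set -/
def KK : Set Rl := {z | z ∈ Bset z}

/-- the projections of coanalytic sets -/
def Gam (A : Set Rl) : Prop :=
  ∃ C : Set (Rl × Rl), MeasureTheory.AnalyticSet Cᶜ ∧ A = {z | ∃ y, (z, y) ∈ C}

/-- node number `k`: a list of numbers, the last entry first; the entry `m` codes the bit
`m.bodd` of `y` and the value `m.div2` of `w` -/
def node (k : ℕ) : List ℕ := Denumerable.ofNat (List ℕ) k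

/-- the node `l` belongs to the tree of `z` -/
def good (z : Rl) (l : List ℕ) : Bool :=
  z (Encodable.encode (pre z l.length, l.reverse.map Nat.bodd, l.reverse.map Nat.div2))

/-- `k` is a child of the node `i`, and the node `i` belongs to the tree of `z` -/
def Ez (z : Rl) (i k : ℕ) : Bool :=
  decide ((node k).tail = node i ∧ node k ≠ []) && good z (node i)

/-- node `k` asks for the bit number `i` -/
def Pz (i k : ℕ) : Bool := decide (i < (node k).length)

/-- the bit number `i` which node `k` asks for -/
def Nz (i k : ℕ) : Bool := ((node k).reverse.map Nat.bodd).getD i false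

/-- the code of the tree of `z` -/
def FF (z : Rl) : Rl := enc (Ez z) Pz Nz

end Pool.Agent.HKM
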