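import Pool.Agent.HKM.Cont

/-!
# The code of the tree of `z` depends continuously on `z`
-/

set_option autoImplicit false

namespace Pool.Agent.HKM

open Filter Topology

theorem ev_eq24 (z₀ : Rl) (j : ℕ) : ∀ᶠ z in 𝓝 z₀, z j = z₀ j := by
  have h : {b : Bool | b = z₀ j} ∈ 𝓝 (z₀ j) := (isOpen_discrete _).mem_nhds rfl
  exact (continuous_apply j).continuousAt.preimage_mem_nhds h

theorem ev_good24 (z₀ : Rl) (l : List ℕ) : ∀ᶠ z in 𝓝 z₀, good z l = good z₀ l := by
  have h1 : ∀ᶠ z in 𝓝 z₀, ∀ j ∈ Finset.range l.length, z j = z₀ j :=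
    (Filter.eventually_all_finset _).2 (fun j _ => ev_eq24 z₀ j)
  filter_upwards [h1, ev_eq24 z₀ (Encodable.encode (pre z₀ l.length, l.reverse.map Nat.bodd,
    l.reverse.map Nat.div2))] with z hz hz'
  have h2 : pre z l.length = pre z₀ l.length := by
    unfold pre
    refine List.map_congr_left ?_
    intro j hj
    exact hz j (Finset.mem_range.2 (List.mem_range.1 hj))
  unfold good
  rw [h2]
  exact hz'

theorem continuous_FF : Continuous FF := by
  refine continuous_pi (fun n => continuous_iff_continuousAt.2 (fun z₀ => ?_))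
  have h : ∀ᶠ z in 𝓝 z₀, FF z₀ n = FF z n := by
    filter_upwards [ev_good24 z₀ (node (bp (n / 10)).2)] with z hz
    have h1 : Ez z (bp (n / 10)).2 (bp (n / 10)).1 = Ez z₀ (bp (n / 10)).2 (bp (n / 10)).1 := by
      unfold Ez
      rw [hz]
    simp only [FF, enc, h1]
  exact tendsto_const_nhds.congr' h

end Pool.Agent.HKM
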