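import Pool.Agent.HKM.Defs
import Pool.Agent.HKM.DetS70

/-!
Row D of P10: sets decided by deterministic machines are `Δ^1_2` (boldface).  helper70.
-/

set_option autoImplicit false

namespace Pool.Agent.HKM

open MeasureTheory Set Order

/-- Total runs exist. -/
theorem exists_run {C K : Type} (M : AMach C K) (c0 : C) :
    ∃ r : Ordinal.{0} → C, ∀ η, IsRunTo M c0 η r := by
  classical
  let r : Ordinal.{0} → C := fun a => Ordinal.limitRecOn (motive := fun _ => C) a c0
    (fun _ c => M.step c)
    (fun o _ h => M.mkLim (fun k => decide (∀ b < o, ∃ c, ∃ hc : c < o, b < c ∧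
      M.cell k (h c hc) = true)))
  refine ⟨r, fun η => ⟨?_, ?_, ?_⟩⟩
  · simp only [r, Ordinal.limitRecOn_zero]
  · intro a _
    simp only [r]
    rw [show succ a = a + 1 from Order.succ_eq_add_one a, Ordinal.limitRecOn_add_one]
  · intro a _ ha
    have h1 : r a = M.mkLim (fun k => decide (∀ b < a, ∃ c, ∃ hc : c < a, b < c ∧
        M.cell k (r c) = true)) := by
      simp only [r]
      rw [Ordinal.limitRecOn_limit _ _ _ _ ha]
    rw [h1]
    congr 1
    funext k
    rw [decide_eq_decide]
    constructor
    · intro H b hb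
      obtain ⟨c, hc, h2, h3⟩ := H b hb
      exact ⟨c, h2, hc, h3⟩
    · intro H b hb
      obtain ⟨c, h2, hc, h3⟩ := H b hb
      exact ⟨c, hc, h2, h3⟩

/-- configurations as a product -/
abbrev CP (Q : Type) : Type := Q × ℕ × Tapes

/-- the product form of a configuration -/
def toCP {Q : Type} (c : Conf Q) : CP Q := (c.st, c.hd, c.tp)

/-- from the product form -/
def ofCP {Q : Type} (c : CP Q) : Conf Q := ⟨c.1, c.2.1, c.2.2⟩

/-- the abstract machine of a deterministic machine -/
def DMachine.toA (T : DMachine) : AMach (CP T.Q) (Fin 3 × ℕ) where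
  step c := toCP ((ofCP c).upd (T.δ c.1 (ofCP c).rd).1 (T.δ c.1 (ofCP c).rd).2.1
    (T.δ c.1 (ofCP c).rd).2.2)
  cell k c := c.2.2 k.1 k.2
  mkLim F := (T.lim, 0, fun i n => F (i, n))

theorem DMachine.step_iff (T : DMachine) (c c' : Conf T.Q) :
    T.toN.Step c c' ↔ toCP c' = T.toA.step (toCP c) := by
  unfold NMachine.Step
  constructor
  · rintro ⟨q, s, d, h1, h2⟩
    have h1' : T.δ c.st c.rd = (q, s, d) := h1
    subst h2
    change toCP (c.upd q s d) = toCP ((ofCP (toCP c)).upd (T.δ c.st (ofCP (toCP c)).rd).1
      (T.δ c.st (ofCP (toCP c)).rd).2.1 (T.δ c.st (ofCP (toCP c)).rd).2.2)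
    have e : ofCP (toCP c) = c := rfl
    rw [e, h1']
  · intro h
    refine ⟨(T.δ c.st c.rd).1, (T.δ c.st c.rd).2.1, (T.δ c.st c.rd).2.2, rfl, ?_⟩
    have e : ofCP (toCP c') = ofCP (T.toA.step (toCP c)) := by rw [h]
    exact e

/-- A computation agrees with the total run. -/
theorem DMachine.comp_eq_run (T : DMachine) {x : Rl} {b : Ordinal.{0} → Conf T.Q}
    {ξ : Ordinal.{0}} (h : T.toN.IsComp x b ξ) {r : Ordinal.{0} → CP T.Q}
    (hr : ∀ η, IsRunTo T.toA (toCP (T.toN.init x)) η r) : ∀ a ≤ ξ, toCP (b a) = r a := by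
  classical
  intro a
  induction a using WellFoundedLT.induction with
  | ind a ih =>
    intro ha
    rcases Ordinal.zero_or_succ_or_isSuccLimit a with h0 | ⟨c, hc⟩ | hl
    · rw [h0, h.zero, (hr 0).1]
    · have hca : c < a := by rw [← hc]; exact Order.lt_succ c
      have h1 := (h.step c (hca.trans_le ha)).2
      rw [T.step_iff, ih c hca (hca.le.trans ha)] at h1
      have h2 := (hr a).2.1 c hca
      have e : c + 1 = a := by
        rw [← Order.succ_eq_add_one]
        exact hc
      rw [e] at h1
      rw [h1, ← h2, hc]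
    · obtain ⟨h1, h2, h3⟩ := h.lim a ha hl
      have h4 := (hr a).2.2 a le_rfl hl
      rw [h4]
      change ((b a).st, (b a).hd, (b a).tp) = (T.lim, 0, _)
      have h1' : (b a).st = T.lim := h1
      rw [h1', h2]
      have e : (b a).tp = fun i n => decide (∀ c < a, ∃ c', c < c' ∧ c' < a ∧
          T.toA.cell (i, n) (r c') = true) := by
        funext i n
        have h5 := h3 i n
        rw [Bool.eq_iff_iff, h5, decide_eq_true_iff]
        constructor
        · intro H c hc
          obtain ⟨γ', g1, g2, g3⟩ := H (succ c) (hl.succ_lt hc)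
          refine ⟨γ', (Order.lt_succ c).trans_le g1, g2, ?_⟩
          rw [← ih γ' g2 (g2.le.trans ha)]
          exact g3
        · intro H c hc
          obtain ⟨γ', g1, g2, g3⟩ := H c hc
          refine ⟨γ', g1.le, g2, ?_⟩
          rw [← ih γ' g2 (g2.le.trans ha)] at g3
          exact g3
      rw [e]

/-- **Row D.** -/
theorem DMachine.sigma (T : DMachine) {A : Set Rl} (h : T.Decides A) :
    SigmaOneTwo A ∧ SigmaOneTwo Aᶜ := by
  classical
  have := T.fin
  let : MeasurableSpace T.Q := ⊤
  have hd : DiscreteMeasurableSpace T.Q := ⟨fun _ => trivial⟩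
  have hne : Nonempty (CP T.Q) := ⟨(T.start, 0, fun _ _ => false)⟩
  have hev : Measurable (fun c : CP T.Q => (fun i => c.2.2 i c.2.1 : Sym)) := by
    rw [measurable_pi_iff]
    intro i
    have h1 : Measurable (fun q : (ℕ → Bool) × ℕ => q.1 q.2) := by
      apply measurable_from_prod_countable_left
      intro n
      exact measurable_pi_apply n
    have h2 : Measurable (fun c : CP T.Q => (c.2.2 i, c.2.1)) := by
      refine Measurable.prodMk ?_ ?_
      · exact (measurable_pi_apply i).comp (measurable_snd.comp measurable_snd)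
      · exact measurable_fst.comp measurable_snd
    exact h1.comp h2
  have hδ : Measurable (fun c : CP T.Q => (c.1, (fun i => c.2.2 i c.2.1 : Sym), c.2.1)) :=
    measurable_fst.prodMk (hev.prodMk (measurable_fst.comp measurable_snd))
  have hstep : Measurable T.toA.step := by
    let e : T.Q × Sym × ℕ → T.Q := fun q => (T.δ q.1 q.2.1).1
    let e2 : T.Q × Sym × ℕ → ℕ := fun q => (T.δ q.1 q.2.1).2.2.mv q.2.2
    have m1 : Measurable (fun c : CP T.Q =>
        e (c.1, (fun i => c.2.2 i c.2.1 : Sym), c.2.1)) :=
      (measurable_of_countable e).comp hδ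
    have m2 : Measurable (fun c : CP T.Q =>
        e2 (c.1, (fun i => c.2.2 i c.2.1 : Sym), c.2.1)) :=
      (measurable_of_countable e2).comp hδ
    have m3 : Measurable (fun c : CP T.Q => (fun i n => if n = c.2.1 then
        (T.δ c.1 (fun i => c.2.2 i c.2.1 : Sym)).2.1 i else c.2.2 i n : Tapes)) := by
      rw [measurable_pi_iff]
      intro i
      rw [measurable_pi_iff]
      intro n
      have e3 : (fun c : CP T.Q => if n = c.2.1 then
          (T.δ c.1 (fun i => c.2.2 i c.2.1 : Sym)).2.1 i else c.2.2 i n) =
          (fun q : (T.Q × Sym × ℕ) × Bool => if n = q.1.2.2 then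
            (T.δ q.1.1 q.1.2.1).2.1 i else q.2) ∘ (fun c : CP T.Q =>
            ((c.1, (fun i => c.2.2 i c.2.1 : Sym), c.2.1), c.2.2 i n)) := rfl
      rw [e3]
      refine (measurable_of_countable _).comp (hδ.prodMk ?_)
      exact (measurable_pi_apply n).comp ((measurable_pi_apply i).comp
        (measurable_snd.comp measurable_snd))
    exact m1.prodMk (m2.prodMk m3)
  have hcell : ∀ k, Measurable (T.toA.cell k) := by
    intro k
    exact (measurable_pi_apply k.2).comp ((measurable_pi_apply k.1).comp
        (measurable_snd.comp measurable_snd))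
  have hlim : Measurable T.toA.mkLim := by
    have m1 : Measurable (fun F : Fin 3 × ℕ → Bool => (fun i n => F (i, n) : Tapes)) := by
      rw [measurable_pi_iff]
      intro i
      rw [measurable_pi_iff]
      intro n
      exact measurable_pi_apply _
    exact measurable_const.prodMk (measurable_const.prodMk m1)
  have hini : Measurable (fun x : ℕ → Bool => (toCP (T.toN.init x) : CP T.Q)) := by
    have m1 : Measurable (fun x : ℕ → Bool => (fun i n => if i = 0 then x n else false : Tapes)) := by
      rw [measurable_pi_iff]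
      intro i
      rw [measurable_pi_iff]
      intro n
      by_cases hi : i = 0
      · simp only [hi, if_true]
        exact measurable_pi_apply _
      · simp only [hi, if_false]
        exact measurable_const
    exact measurable_const.prodMk (measurable_const.prodMk m1)
  have hH : MeasurableSet {c : CP T.Q | c.1 = T.halt} := by
    rw [measurableSet_setOfPred]
    exact measurable_fst.eq_const _
  have hO : MeasurableSet {c : CP T.Q | ∀ n, c.2.2 2 n = decide (n = 0)} := by
    rw [measurableSet_setOfPred]
    refine Measurable.forall fun n => Measurable.eq_const ?_ _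
    exact (measurable_pi_apply n).comp ((measurable_pi_apply 2).comp
        (measurable_snd.comp measurable_snd))
  refine det_sigma12 T.toA hstep hcell hlim (fun x => toCP (T.toN.init x)) hini
    {c : CP T.Q | c.1 = T.halt} {c : CP T.Q | ∀ n, c.2.2 2 n = decide (n = 0)} hH hO A ?_
  intro x
  obtain ⟨b, ξ, ⟨h1, h2⟩, v, h3, h4⟩ := h x
  obtain ⟨r, hr⟩ := exists_run T.toA (toCP (T.toN.init x))
  have h5 := T.comp_eq_run h1 hr
  refine ⟨ξ, r, hr, ?_, ?_, ?_⟩
  · rw [← h5 ξ le_rfl]
    exact h2
  · intro a ha hh
    rw [← h5 a ha.le] at hh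
    exact (h1.step a ha).1 hh
  · rw [← h5 ξ le_rfl, ← h4]
    constructor
    · intro hv n
      have := h3 n
      rw [hv, Bool.true_and] at this
      exact this
    · intro hn
      have e1 := h3 0
      have e2 : (b ξ).tp 2 0 = decide ((0 : ℕ) = 0) := hn 0
      rw [e2] at e1
      simpa using e1.symm

end Pool.Agent.HKM
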