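import Mathlib

/-!
# Hamkins–Kidder machines (infinite time Turing machines) and their space classes

Problem MP_f7c501_lc.  The definitions of the problem file: deterministic and nondeterministic
Hamkins–Kidder machines with three tapes (input, scratch, output), the two space measures, and the
classes `PSPACE` and `NPSPACE` for a bound `f`.
-/

set_option autoImplicit false

namespace Pool.Agent.HKM

open Order

/-- the reals: points of the Cantor space -/
abbrev Rl := ℕ → Bool

/-- contents of the three tapes: `0` is the input tape, `1` the scratch tape, `2` the output tape -/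
abbrev Tapes := Fin 3 → ℕ → Bool

/-- what the head reads or writes: one symbol for each tape -/
abbrev Sym := Fin 3 → Bool

/-- the moves of the head -/
inductive Dir
  | left
  | right
  | stay

/-- the new position of the head; at cell `0` it cannot move further to the left -/
def Dir.mv : Dir → ℕ → ℕ
  | .left, n => n - 1
  | .right, n => n + 1
  | .stay, n => n

/-- a configuration: state, position of the head, contents of the tapes -/
structure Conf (Q : Type) where
  st : Q
  hd : ℕ
  tp : Tapes

/-- the symbols under the head -/
def Conf.rd {Q : Type} (c : Conf Q) : Sym := fun i => c.tp i c.hd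

/-- write `s`, go to state `q`, and move the head in direction `d` -/
def Conf.upd {Q : Type} (c : Conf Q) (q : Q) (s : Sym) (d : Dir) : Conf Q :=
  ⟨q, d.mv c.hd, fun i n => if n = c.hd then s i else c.tp i n⟩

/-- A nondeterministic Hamkins–Kidder machine: finitely many states, among them the start state, the
halting state and the limit state; the program is a relation listing the allowed actions: in state
`q`, reading `s`, it may go to state `q'`, write `s'` and move in direction `d`. -/
structure NMachine where
  Q : Type
  fin : Finite Q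
  start : Q
  halt : Q
  lim : Q
  act : Q → Sym → Q → Sym → Dir → Prop

/-- A deterministic Hamkins–Kidder machine. -/
structure DMachine where
  Q : Type
  fin : Finite Q
  start : Q
  halt : Q
  lim : Q
  δ : Q → Sym → Q × Sym × Dir

/-- a deterministic machine as a nondeterministic one with exactly one allowed action -/
def DMachine.toN (T : DMachine) : NMachine where
  Q := T.Q
  fin := T.fin
  start := T.start
  halt := T.halt
  lim := T.lim
  act q s q' s' d := T.δ q s = (q', s', d)

/-- the configuration at stage `0` on input `x` -/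
def NMachine.init (T : NMachine) (x : Rl) : Conf T.Q :=
  ⟨T.start, 0, fun i n => if i = 0 then x n else false⟩

/-- one step of the computation -/
def NMachine.Step (T : NMachine) (c c' : Conf T.Q) : Prop :=
  ∃ q s d, T.act c.st c.rd q s d ∧ c' = c.upd q s d

/-- At the limit stage `l` of the sequence `b` of configurations the machine is in the limit state,
the head is at cell `0`, and every cell has the lim sup of its earlier values. -/
def NMachine.IsLim (T : NMachine) (b : Ordinal.{0} → Conf T.Q) (l : Ordinal.{0}) : Prop :=
  (b l).st = T.lim ∧ (b l).hd = 0 ∧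
    ∀ i n, (b l).tp i n = true ↔ ∀ γ < l, ∃ γ', γ ≤ γ' ∧ γ' < l ∧ (b γ').tp i n = true

/-- `b`, restricted to the stages `≤ ξ`, is a computation of `T` on input `x` which has not halted
before stage `ξ`. -/
structure NMachine.IsComp (T : NMachine) (x : Rl) (b : Ordinal.{0} → Conf T.Q)
    (ξ : Ordinal.{0}) : Prop where
  zero : b 0 = T.init x
  step : ∀ γ < ξ, (b γ).st ≠ T.halt ∧ T.Step (b γ) (b (γ + 1))
  lim : ∀ l ≤ ξ, IsSuccLimit l → T.IsLim b l

/-- a branch: a computation which halts, at stage `ξ` -/
def NMachine.Branch (T : NMachine) (x : Rl) (b : Ordinal.{0} → Conf T.Q) (ξ : Ordinal.{0}) : Prop :=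
  T.IsComp x b ξ ∧ (b ξ).st = T.halt

/-- Every computation on input `x` halts: no computation gets stuck, and none goes through all the
ordinals. -/
def NMachine.AllHalt (T : NMachine) (x : Rl) : Prop :=
  (∀ b ξ, T.IsComp x b ξ → (b ξ).st ≠ T.halt → ∃ c, T.Step (b ξ) c) ∧
    ¬ ∃ b, ∀ ξ, T.IsComp x b ξ

/-- the output is `1` (for `v = true`) or `0` (for `v = false`): cell `0` of the output tape
contains it, all other cells of the output tape are `0` -/
def Conf.Out {Q : Type} (c : Conf Q) (v : Bool) : Prop :=
  ∀ n, c.tp 2 n = (v && decide (n = 0))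

/-! ### The constructible hierarchy relative to a real -/

/-- the finite von Neumann ordinals -/
noncomputable def vN : ℕ → ZFSet.{0}
  | 0 => ∅
  | n + 1 => insert (vN n) (vN n)

/-- the real `x` as a set: the subset `{n : x n = 1}` of `ω` -/
noncomputable def realSet (x : Rl) : ZFSet.{0} :=
  ZFSet.sep (fun z => ∃ n, x n = true ∧ z = vN n) ZFSet.omega

/-- the relation symbols of the language: a binary one for membership, a unary one for the real -/
inductive LRel : ℕ → Type
  | mem : LRel 2
  | real : LRel 1

/-- the language of set theory with a predicate for a real -/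
def Lang : FirstOrder.Language.{0, 0} := ⟨fun _ => Empty, LRel⟩

/-- the structure `(A, ∈, x ∩ A)` -/
@[reducible] noncomputable def strA (x : Rl) (A : ZFSet.{0}) :
    Lang.Structure {z : ZFSet.{0} // z ∈ A} where
  funMap := fun {_} f _ => nomatch f
  RelMap := fun {_} r =>
    match r with
    | .mem => fun v => (v 0).1 ∈ (v 1).1
    | .real => fun v => (v 0).1 ∈ realSet x

/-- the set of all subsets of `A` which are definable with parameters over `(A, ∈, x ∩ A)` -/
noncomputable def defSet (x : Rl) (A : ZFSet.{0}) : ZFSet.{0} :=
  ZFSet.sep (fun b => @Set.Definable₁ {z : ZFSet.{0} // z ∈ A} Set.univ Lang (strA x A)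
    {z | z.1 ∈ b}) (ZFSet.powerset A)

/-- the constructible hierarchy `L_η[x]` -/
noncomputable def L (x : Rl) (η : Ordinal.{0}) : ZFSet.{0} :=
  Ordinal.limitRecOn (motive := fun _ => ZFSet.{0}) η ∅ (fun _ A => defSet x A)
    (fun o _ h => ZFSet.iUnion (fun β : Set.Iio o => h β.1 β.2))

/-! ### The least ordinal which is not computable from a real -/

/-- a relation on `ℕ` which is computable from `y` -/
def CompRel (y : Rl) (r : ℕ → ℕ → Prop) : Prop :=
  ∃ g : ℕ → ℕ → Bool, ComputableIn₂ {(fun n => Part.some (y n).toNat : ℕ →. ℕ)} g ∧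
    ∀ m n, r m n ↔ g m n = true

/-- the ordinal `α` is computable from `y`: it is the order type of a well-ordering of a subset `D`
of `ℕ`, both computable from `y` -/
def CompOrd (y : Rl) (α : Ordinal.{0}) : Prop :=
  ∃ (r : ℕ → ℕ → Prop) (D : Set ℕ), CompRel y r ∧ CompRel y (fun m n => m = n ∧ m ∈ D) ∧
    ∃ _h : IsWellOrder D (fun a b => r a b), Ordinal.type (fun a b : D => r a b) = α

/-- `ω₁^y`: the least ordinal which is not computable from `y` -/
noncomputable def ck (y : Rl) : Ordinal.{0} := sInf {α | ¬ CompOrd y α}

/-! ### Space -/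

/-- the size of a tape content `c` for the space measure `i`, on input `x`:
`min {η : c ∈ L_η[x]}` for `i = 0`, and `ω₁^c + 1` for `i = 1` -/
noncomputable def size (i : Fin 2) (x c : Rl) : WithTop Ordinal.{0} :=
  if i = 0 then ⨅ (η : Ordinal.{0}) (_ : realSet c ∈ L x η), (η : WithTop Ordinal.{0})
  else ((ck c + 1 : Ordinal.{0}) : WithTop Ordinal.{0})

/-- the content of all three tapes as one real -/
def whole (t : Tapes) : Rl := fun n => t (Fin.ofNat 3 (n % 3)) (n / 3)

/-- deterministic space: all three tapes count -/
noncomputable def space {Q : Type} (i : Fin 2) (x : Rl) (b : Ordinal.{0} → Conf Q)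
    (ξ : Ordinal.{0}) : WithTop Ordinal.{0} :=
  ⨆ (γ : Ordinal.{0}) (_ : γ < ξ), size i x (whole (b γ).tp)

/-- space of a branch of a nondeterministic machine: the scratch tape counts -/
noncomputable def scratchSpace {Q : Type} (i : Fin 2) (x : Rl) (b : Ordinal.{0} → Conf Q)
    (ξ : Ordinal.{0}) : WithTop Ordinal.{0} :=
  ⨆ (γ : Ordinal.{0}) (_ : γ < ξ), size i x ((b γ).tp 1)

/-- the deterministic machine `T` decides `A`: on every input it halts, with output `1` for the
elements of `A` and `0` for the others -/
def DMachine.Decides (T : DMachine) (A : Set Rl) : Prop :=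
  ∀ x, ∃ b ξ, T.toN.Branch x b ξ ∧ ∃ v : Bool, (b ξ).Out v ∧ (v = true ↔ x ∈ A)

/-- `PSPACE_f^{HK,i}` -/
def PSPACE (i : Fin 2) (f : Rl → Ordinal.{0}) : Set (Set Rl) :=
  {A | ∃ T : DMachine, T.Decides A ∧
    ∀ x b ξ, T.toN.Branch x b ξ → space i x b ξ < (f x : WithTop Ordinal.{0})}

/-- the nondeterministic machine `T` decides `A`: all computations on all inputs halt, and `x ∈ A`
if and only if some computation on `x` halts with output `1` -/
def NMachine.Decides (T : NMachine) (A : Set Rl) : Prop :=
  (∀ x, T.AllHalt x) ∧ ∀ x, x ∈ A ↔ ∃ b ξ, T.Branch x b ξ ∧ (b ξ).Out true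

/-- `NPSPACE_f^{HK,i}` -/
def NPSPACE (i : Fin 2) (f : Rl → Ordinal.{0}) : Set (Set Rl) :=
  {A | ∃ T : NMachine, T.Decides A ∧
    ∀ x b ξ, T.Branch x b ξ → scratchSpace i x b ξ < (f x : WithTop Ordinal.{0})}

/-- the blank tape -/
def blank : Rl := fun _ => false

end Pool.Agent.HKM
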