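import Pool.Agent.HKM.Main93

/-!
# The comparison for an arbitrary pair of space measures
-/

set_option autoImplicit false

namespace Pool.Agent.HKM

open Order Ordinal

/-- a space measure: the space used by the computation `b` of length `ξ` on input `x` -/
abbrev Meas := (Q : Type) → Rl → (Ordinal.{0} → Conf Q) → Ordinal.{0} → WithTop Ordinal.{0}

/-- the sets decided by deterministic machines whose space on `x` is less than `f x` -/
def PS (μ : Meas) (f : Rl → Ordinal.{0}) : Set (Set Rl) :=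
  {A | ∃ T : DMachine, T.Decides A ∧
    ∀ x b ξ, T.toN.Branch x b ξ → μ _ x b ξ < (f x : WithTop Ordinal.{0})}

/-- the sets decided by nondeterministic machines whose space on `x` is less than `f x` -/
def NPS (μ : Meas) (f : Rl → Ordinal.{0}) : Set (Set Rl) :=
  {A | ∃ T : NMachine, T.Decides A ∧
    ∀ x b ξ, T.Branch x b ξ → μ _ x b ξ < (f x : WithTop Ordinal.{0})}

theorem PS_small (μ : Meas) {s s₀ : WithTop Ordinal.{0}}
    (h1 : ∀ (Q : Type) (x : Rl) (b : Ordinal.{0} → Conf Q) (ξ : Ordinal.{0}), ξ ≠ 0 → s ≤ μ _ x b ξ)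
    (h0 : ∀ (Q : Type) (x : Rl) (b : Ordinal.{0} → Conf Q), μ _ x b 0 = s₀)
    (f : Rl → Ordinal.{0}) {x₀ : Rl} (h : (f x₀ : WithTop Ordinal.{0}) ≤ s) :
    PS μ f = {A | A = ∅ ∧ ∀ x, s₀ < (f x : WithTop Ordinal.{0})} := by
  ext A
  constructor
  · rintro ⟨T, h2, h3⟩
    have hT : T.toN.start = T.toN.halt := by
      obtain ⟨b, ξ, h4, -⟩ := h2 x₀
      have h5 : ξ = 0 := by
        by_contra hc
        exact absurd (lt_of_lt_of_le (h3 x₀ b ξ h4) h) (not_lt_of_ge (h1 _ x₀ b ξ hc))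
      subst h5
      rw [← h4.2, h4.1.zero]
      rfl
    constructor
    · ext x
      obtain ⟨b, ξ, h4, v, h5, h6⟩ := h2 x
      have h7 := (NMachine.branch_of_start hT h4).2.unique h5
      rw [← h6, ← h7]
      simp
    · intro x
      obtain ⟨b, ξ, h4, -⟩ := h2 x
      have h5 := (NMachine.branch_of_start hT h4).1
      subst h5
      have h6 := h3 x b 0 h4
      rwa [h0] at h6
  · rintro ⟨h2, h3⟩
    subst h2
    refine ⟨DMachine.triv, triv_decides, fun x b ξ h4 => ?_⟩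
    have h5 : ξ = 0 := (NMachine.branch_of_start rfl h4).1
    subst h5
    rw [h0]
    exact h3 x

theorem NPS_small (μ : Meas) {s s₀ : WithTop Ordinal.{0}}
    (h1 : ∀ (Q : Type) (x : Rl) (b : Ordinal.{0} → Conf Q) (ξ : Ordinal.{0}), ξ ≠ 0 → s ≤ μ _ x b ξ)
    (h0 : ∀ (Q : Type) (x : Rl) (b : Ordinal.{0} → Conf Q), μ _ x b 0 = s₀)
    (f : Rl → Ordinal.{0}) {x₀ : Rl} (h : (f x₀ : WithTop Ordinal.{0}) ≤ s) :
    NPS μ f = {A | A = ∅ ∧ ∀ x, s₀ < (f x : WithTop Ordinal.{0})} := by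
  ext A
  constructor
  · rintro ⟨T, h2, h3⟩
    have hT : T.start = T.halt := by
      obtain ⟨b, ξ, h4⟩ := T.exists_branch x₀ (h2.1 x₀)
      have h5 : ξ = 0 := by
        by_contra hc
        exact absurd (lt_of_lt_of_le (h3 x₀ b ξ h4) h) (not_lt_of_ge (h1 _ x₀ b ξ hc))
      subst h5
      rw [← h4.2, h4.1.zero]
      rfl
    constructor
    · ext x
      rw [h2.2 x]
      simp only [Set.mem_empty_iff_false, iff_false]
      rintro ⟨b, ξ, h4, h5⟩
      have h6 := (NMachine.branch_of_start hT h4).2.unique h5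
      simp at h6
    · intro x
      obtain ⟨b, ξ, h4⟩ := T.exists_branch x (h2.1 x)
      have h5 := (NMachine.branch_of_start hT h4).1
      subst h5
      have h6 := h3 x b 0 h4
      rwa [h0] at h6
  · rintro ⟨h2, h3⟩
    subst h2
    refine ⟨DMachine.triv.toN, triv_ndecides, fun x b ξ h4 => ?_⟩
    have h5 : ξ = 0 := (NMachine.branch_of_start rfl h4).1
    subst h5
    rw [h0]
    exact h3 x

theorem gen_mem (ν : Meas) {s : WithTop Ordinal.{0}}
    (hb : ∀ (x : Rl) (b : Ordinal.{0} → Conf (St TT.S)) (ξ : Ordinal.{0}),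
      TT.machine.Branch x b ξ → ν _ x b ξ ≤ s)
    (f : Rl → Ordinal.{0}) (hf : ∀ x, s < (f x : WithTop Ordinal.{0})) : AM ∈ NPS ν f :=
  ⟨TT.machine, AM_decides, fun x b ξ h => lt_of_le_of_lt (hb x b ξ h) (hf x)⟩

theorem gen_main (μ ν : Meas) {s s₀ : WithTop Ordinal.{0}}
    (h1 : ∀ (Q : Type) (x : Rl) (b : Ordinal.{0} → Conf Q) (ξ : Ordinal.{0}), ξ ≠ 0 → s ≤ μ _ x b ξ)
    (h0 : ∀ (Q : Type) (x : Rl) (b : Ordinal.{0} → Conf Q), μ _ x b 0 = s₀)
    (k1 : ∀ (Q : Type) (x : Rl) (b : Ordinal.{0} → Conf Q) (ξ : Ordinal.{0}), ξ ≠ 0 → s ≤ ν _ x b ξ)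
    (k0 : ∀ (Q : Type) (x : Rl) (b : Ordinal.{0} → Conf Q), ν _ x b 0 = s₀)
    (hb : ∀ (x : Rl) (b : Ordinal.{0} → Conf (St TT.S)) (ξ : Ordinal.{0}),
      TT.machine.Branch x b ξ → ν _ x b ξ ≤ s)
    (f : Rl → Ordinal.{0}) : PS μ f = NPS ν f ↔ ∃ x, (f x : WithTop Ordinal.{0}) ≤ s := by
  refine ⟨fun h => ?_, fun h => ?_⟩
  · by_contra hc
    push Not at hc
    have h2 := gen_mem ν hb f hc
    rw [← h] at h2
    obtain ⟨T, h3, -⟩ := h2
    exact AM_not_decides T h3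
  · obtain ⟨x₀, h2⟩ := h
    rw [PS_small μ h1 h0 f h2, NPS_small ν k1 k0 f h2]

/-- the supremum over no stage is `0` -/
theorem iSup_lt_zero (F : Ordinal.{0} → WithTop Ordinal.{0}) :
    (⨆ (γ : Ordinal.{0}) (_ : γ < 0), F γ) = 0 := by
  have h1 : (⊥ : WithTop Ordinal.{0}) = 0 := rfl
  rw [← h1, iSup₂_eq_bot]
  intro γ hγ
  exact absurd hγ not_lt_zero

theorem space_zero {Q : Type} (i : Fin 2) (x : Rl) (b : Ordinal.{0} → Conf Q) :
    space i x b 0 = 0 := iSup_lt_zero _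

theorem scratchSpace_zero {Q : Type} (i : Fin 2) (x : Rl) (b : Ordinal.{0} → Conf Q) :
    scratchSpace i x b 0 = 0 := iSup_lt_zero _

theorem blank_le_space {Q : Type} (i : Fin 2) (x : Rl) (b : Ordinal.{0} → Conf Q)
    {ξ : Ordinal.{0}} (h0 : ξ ≠ 0) : size i x blank ≤ space i x b ξ := by
  unfold space
  refine le_trans ?_ (le_iSup₂ (f := fun (γ : Ordinal.{0}) (_ : γ < ξ) => size i x (whole (b γ).tp)) 0
    (pos_iff_ne_zero.2 h0))
  exact size_blank_le i x _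

theorem blank_le_scratchSpace {Q : Type} (i : Fin 2) (x : Rl) (b : Ordinal.{0} → Conf Q)
    {ξ : Ordinal.{0}} (h0 : ξ ≠ 0) : size i x blank ≤ scratchSpace i x b ξ := by
  unfold scratchSpace
  refine le_trans ?_ (le_iSup₂ (f := fun (γ : Ordinal.{0}) (_ : γ < ξ) => size i x ((b γ).tp 1)) 0
    (pos_iff_ne_zero.2 h0))
  exact size_blank_le i x _

theorem scratch_AM (i : Fin 2) {x : Rl} {b : Ordinal.{0} → Conf (St TT.S)} {ξ : Ordinal.{0}}
    (hb : TT.machine.Branch x b ξ) : scratchSpace i x b ξ ≤ size i x blank := by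
  unfold scratchSpace
  refine iSup₂_le fun γ hγ => ?_
  rw [TT.scratch_blank hb.1 γ hγ.le]

end Pool.Agent.HKM
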