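import Pool.Agent.HKM.B2_26

/-!
# Accepting runs prove accessibility
-/

set_option autoImplicit false

namespace Pool.Agent.HKM

open Order

theorem cN_zero : cN 0 = fun _ => false := by
  funext p
  simp [cN]

/-- what holds after every sweep: the content is `cont`, every marked node is accessible, and
either the content is that of an ordinary stage or that of a limit stage -/
def InvS (E P N Y : ℕ → ℕ → Bool) (V : Rl) : Prop :=
  ∃ X : ℕ → Bool, (∀ k, X k = true → Acs E P N (fun m => Y m m) k) ∧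
    ((∃ (n : ℕ) (f g : Bool), V = cont E P N Y X (cN n) f (!f) g ∧
        ∀ m < n, ∀ k, m ≤ k → Y m k = Y m m) ∨
      ∃ g : Bool, V = cont E P N Y X (fun _ => true) true true g)

theorem InvS.next {E P N Y : ℕ → ℕ → Bool} {V V' : Rl} (h : InvS E P N Y V)
    (h1 : TT.Sweep .lim V V') : InvS E P N Y V' := by
  obtain ⟨X, hX, h2 | h2⟩ := h
  · obtain ⟨n, f, g, rfl, hY⟩ := h2
    obtain ⟨h3, w, h4, rfl⟩ := sweep_cont.1 h1
    have hY' : ∀ m < n + 1, ∀ k, m ≤ k → Y m k = Y m m := by
      intro m hm k hk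
      rcases Nat.lt_succ_iff_lt_or_eq.1 hm with h5 | h5
      · exact hY m h5 k hk
      · subst h5
        exact h3 k hk
    refine ⟨_, ?_, Or.inl ⟨n + 1, !f, g || w, by rw [Bool.not_not], hY'⟩⟩
    intro k hk
    cases w with
    | false => exact hX k (by simpa using hk)
    | true =>
      by_cases hkn : k = n
      · subst hkn
        rcases (h4 rfl).2 with ⟨i, hi, h6, h7⟩ | h6
        · refine Acs.mis k i hi h6 ?_
          rw [hY' i (by omega) k hi] at h7
          exact h7
        · exact Acs.all k (fun k' h8 h9 => hX k' (h6 k' h8 h9))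
      · refine hX k ?_
        simpa [Function.update_of_ne hkn] using hk
  · obtain ⟨g, rfl⟩ := h2
    obtain ⟨h3, rfl⟩ := sweep_reset.1 h1
    refine ⟨X, hX, Or.inl ⟨0, false, false, ?_, ?_⟩⟩
    · rw [cN_zero]
      rfl
    · intro m hm
      exact absurd hm (Nat.not_lt_zero m)

/-! ### Limit stages -/

section Lim

variable {E P N Y : ℕ → ℕ → Bool} {V : Ordinal.{0} → Rl} {l : Ordinal.{0}}

theorem add_nat_lt (hl : IsSuccLimit l) {γ : Ordinal.{0}} (h : γ < l) (j : ℕ) :
    γ + (j : Ordinal.{0}) < l := by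
  induction j with
  | zero => simpa using h
  | succ j ih =>
    rw [Nat.cast_succ, ← add_assoc]
    exact hl.succ_lt ih

/-- the sweeps after an ordinary stage -/
theorem ord_steps (hl : IsSuccLimit l) (hs : ∀ γ < l, γ ≠ 0 → TT.Sweep .lim (V γ) (V (γ + 1)))
    {γ : Ordinal.{0}} (hγ : γ < l) (h0 : γ ≠ 0) {X : ℕ → Bool} {n : ℕ} {f g : Bool}
    (h : V γ = cont E P N Y X (cN n) f (!f) g) (j : ℕ) :
    ∃ (X' : ℕ → Bool) (f' g' : Bool),
      V (γ + (j : Ordinal.{0})) = cont E P N Y X' (cN (n + j)) f' (!f') g' := by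
  induction j with
  | zero => exact ⟨X, f, g, by simpa using h⟩
  | succ j ih =>
    obtain ⟨X', f', g', h1⟩ := ih
    have h2 := hs _ (add_nat_lt hl hγ j) (ne_of_gt (lt_of_lt_of_le (pos_iff_ne_zero.2 h0)
      le_self_add))
    rw [h1] at h2
    obtain ⟨-, w, -, h3⟩ := sweep_cont.1 h2
    refine ⟨if w = true then Function.update X' (n + j) true else X', !f', g' || w, ?_⟩
    rw [Nat.cast_succ, ← add_assoc, h3, Bool.not_not]
    rfl

/-- in every limit of the run the flags and the bits `C` are true cofinally often -/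
theorem cofinal_bits (hl : IsSuccLimit l)
    (hs : ∀ γ < l, γ ≠ 0 → TT.Sweep .lim (V γ) (V (γ + 1)))
    (hi : ∀ γ < l, γ ≠ 0 → InvS E P N Y (V γ)) {γ : Ordinal.{0}} (hγ : γ < l) (h0 : γ ≠ 0) :
    (∃ γ', γ ≤ γ' ∧ γ' < l ∧ V γ' 1 = true) ∧ (∃ γ', γ ≤ γ' ∧ γ' < l ∧ V γ' 2 = true) ∧
      ∀ p, ∃ γ', γ ≤ γ' ∧ γ' < l ∧ V γ' (10 * p + 4) = true := by
  obtain ⟨X, hX, h2 | h2⟩ := hi γ hγ h0
  · obtain ⟨n, f, g, h3, hY⟩ := h2
    have h4 := ord_steps hl hs hγ h0 h3
    refine ⟨?_, ?_, ?_⟩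
    · cases f with
      | true => exact ⟨γ, le_rfl, hγ, by rw [h3]; simp [cont]⟩
      | false =>
        have h5 := hs γ hγ h0
        rw [h3] at h5
        obtain ⟨-, w, -, h6⟩ := sweep_cont.1 h5
        exact ⟨γ + 1, le_self_add, by simpa using add_nat_lt hl hγ 1, by rw [h6]; simp [cont]⟩
    · cases f with
      | false => exact ⟨γ, le_rfl, hγ, by rw [h3]; simp [cont]⟩
      | true =>
        have h5 := hs γ hγ h0
        rw [h3] at h5
        obtain ⟨-, w, -, h6⟩ := sweep_cont.1 h5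
        exact ⟨γ + 1, le_self_add, by simpa using add_nat_lt hl hγ 1, by rw [h6]; simp [cont]⟩
    · intro p
      obtain ⟨X', f', g', h5⟩ := h4 ((bp p).2 + 1)
      refine ⟨_, le_self_add, add_nat_lt hl hγ ((bp p).2 + 1), ?_⟩
      rw [h5]
      have h6 : (10 * p + 4) / 10 = p := by omega
      have h7 : (10 * p + 4) % 10 = 4 := by omega
      simp only [cont, h6, h7, cN, decide_eq_true_eq]
      omega
  · obtain ⟨g, h3⟩ := h2
    refine ⟨⟨γ, le_rfl, hγ, by rw [h3]; simp [cont]⟩, ⟨γ, le_rfl, hγ, by rw [h3]; simp [cont]⟩,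
      fun p => ⟨γ, le_rfl, hγ, ?_⟩⟩
    rw [h3]
    have h7 : (10 * p + 4) % 10 = 4 := by omega
    simp only [cont, h7]

/-- the bits of the content except the marks, the flags and the bits `C` -/
def isFix (n : ℕ) : Prop :=
  (5 ≤ n % 10) ∨ (n % 10 = 0 ∧ (bp (n / 10)).2 ≠ (bp (n / 10)).1) ∨
    ((n % 10 = 1 ∨ n % 10 = 2 ∨ n % 10 = 3) ∧ n / 10 ≠ 0)

theorem cont_fix {X X' c c' : ℕ → Bool} {f₁ f₂ g f₁' f₂' g' : Bool} {n : ℕ} (h : isFix n) :
    cont E P N Y X c f₁ f₂ g n = cont E P N Y X' c' f₁' f₂' g' n := by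
  rcases h with h | ⟨h, h1⟩ | ⟨h | h | h, h1⟩
  · have h2 : n % 10 < 10 := Nat.mod_lt _ (by norm_num)
    simp only [cont]
    interval_cases h3 : n % 10 <;> rfl
  · simp only [cont, h, decide_eq_false h1, Bool.false_and]
  · simp only [cont, h, decide_eq_false h1, Bool.false_and]
  · simp only [cont, h, decide_eq_false h1, Bool.not_false, Bool.true_or]
  · simp only [cont, h, decide_eq_false h1, Bool.false_and]

theorem InvS.limit (hl : IsSuccLimit l)
    (hs : ∀ γ < l, γ ≠ 0 → TT.Sweep .lim (V γ) (V (γ + 1)))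
    (hi : ∀ γ < l, γ ≠ 0 → InvS E P N Y (V γ)) (hL : LimSup V l) : InvS E P N Y (V l) := by
  have h1l : (1 : Ordinal.{0}) < l := by
    have := hl.succ_lt (show (0 : Ordinal.{0}) < l from hl.bot_lt)
    simpa using this
  have hcof : ∀ n, (∀ γ < l, γ ≠ 0 → ∃ γ', γ ≤ γ' ∧ γ' < l ∧ V γ' n = true) → V l n = true := by
    intro n hn
    refine (hL n).2 (fun γ hγ => ?_)
    by_cases h0 : γ = 0
    · obtain ⟨γ', h2, h3, h4⟩ := hn 1 h1l one_ne_zero
      exact ⟨γ', by rw [h0]; exact zero_le, h3, h4⟩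
    · exact hn γ hγ h0
  have hex : ∀ n, V l n = true → ∃ γ < l, γ ≠ 0 ∧ V γ n = true := by
    intro n hn
    obtain ⟨γ', h2, h3, h4⟩ := (hL n).1 hn 1 h1l
    exact ⟨γ', h3, (lt_of_lt_of_le zero_lt_one h2).ne', h4⟩
  have hcont : ∀ γ < l, γ ≠ 0 → ∃ (X c : ℕ → Bool) (f₁ f₂ g : Bool),
      (∀ k, X k = true → Acs E P N (fun m => Y m m) k) ∧ V γ = cont E P N Y X c f₁ f₂ g := by
    intro γ hγ h0
    obtain ⟨X, hX, ⟨n, f, g, h3, -⟩ | ⟨g, h3⟩⟩ := hi γ hγ h0
    · exact ⟨X, _, _, _, _, hX, h3⟩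
    · exact ⟨X, _, _, _, _, hX, h3⟩
  refine ⟨fun k => V l (10 * pos k k), ?_, Or.inr ⟨V l 3, ?_⟩⟩
  · intro k hk
    obtain ⟨γ, hγ, h0, h2⟩ := hex _ hk
    obtain ⟨X, c, f₁, f₂, g, hX, h3⟩ := hcont γ hγ h0
    refine hX k ?_
    rw [h3] at h2
    have h6 : (10 * pos k k) / 10 = pos k k := by omega
    have h7 : (10 * pos k k) % 10 = 0 := by omega
    simpa only [cont, h6, h7, bp_pos (le_refl k), decide_true, Bool.true_and] using h2
  · funext n
    by_cases hf : isFix n
    · have h2 : ∀ γ < l, γ ≠ 0 → V γ n = cont E P N Y (fun k => V l (10 * pos k k))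
          (fun _ => true) true true (V l 3) n := by
        intro γ hγ h0
        obtain ⟨X, c, f₁, f₂, g, -, h3⟩ := hcont γ hγ h0
        rw [h3]
        exact cont_fix hf
      cases hv : cont E P N Y (fun k => V l (10 * pos k k)) (fun _ => true) true true (V l 3) n with
      | true =>
        refine hcof n (fun γ hγ h0 => ⟨γ, le_rfl, hγ, ?_⟩)
        rw [h2 γ hγ h0, hv]
      | false =>
        by_contra h3
        obtain ⟨γ, hγ, h0, h4⟩ := hex n (by simpa using h3)
        rw [h2 γ hγ h0, hv] at h4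
        exact absurd h4 (by simp)
    · have h10 : n % 10 < 10 := Nat.mod_lt _ (by norm_num)
      have hn : n = 10 * (n / 10) + n % 10 := by omega
      have h5 : n % 10 < 5 := by
        by_contra h
        exact hf (Or.inl (by omega))
      interval_cases h3 : n % 10
      · have h4 : (bp (n / 10)).2 = (bp (n / 10)).1 := by
          by_contra h
          exact hf (Or.inr (Or.inl ⟨h3, h⟩))
        have h6 := pos_bp (n / 10)
        rw [h4] at h6
        simp only [cont, h3, h4, decide_true, Bool.true_and, h6]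
        congr 1
      · have h4 : n / 10 = 0 := by
          by_contra h
          exact hf (Or.inr (Or.inr ⟨Or.inl h3, h⟩))
        have h6 : n = 1 := by omega
        subst h6
        rw [hcof 1 (fun γ hγ h0 => (cofinal_bits hl hs hi hγ h0).1)]
        simp [cont]
      · have h4 : n / 10 = 0 := by
          by_contra h
          exact hf (Or.inr (Or.inr ⟨Or.inr (Or.inl h3), h⟩))
        have h6 : n = 2 := by omega
        subst h6
        rw [hcof 2 (fun γ hγ h0 => (cofinal_bits hl hs hi hγ h0).2.1)]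
        simp [cont]
      · have h4 : n / 10 = 0 := by
          by_contra h
          exact hf (Or.inr (Or.inr ⟨Or.inr (Or.inr h3), h⟩))
        have h6 : n = 3 := by omega
        subst h6
        simp [cont]
      · rw [hcof n (fun γ hγ h0 => ?_)]
        · simp only [cont, h3]
        · have := (cofinal_bits hl hs hi hγ h0).2.2 (n / 10)
          rwa [← hn] at this

end Lim

/-- **B2**: an accepting run proves that the root is accessible -/
theorem sound {E P N : ℕ → ℕ → Bool} {V : Ordinal.{0} → Rl} {β : Ordinal.{0}}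
    (h : TT.Run (enc E P N) V β) (h0 : β ≠ 0) (h1 : V β 0 = true) :
    ∃ y : ℕ → Bool, Acs E P N y 0 := by
  have hβ : 0 < β := pos_iff_ne_zero.2 h0
  have h2 := h.first hβ
  rw [h.zero] at h2
  obtain ⟨Y, hY⟩ := sweep_init.1 h2
  have key : ∀ γ : Ordinal.{0}, γ ≠ 0 → γ ≤ β → InvS E P N Y (V γ) := by
    intro γ
    induction γ using Ordinal.limitRecOn with
    | zero => intro h3; exact absurd rfl h3
    | add_one γ ih =>
      intro _ h4
      have h5 : γ < β := lt_of_lt_of_le (lt_succ γ) h4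
      by_cases h6 : γ = 0
      · subst h6
        refine ⟨fun _ => false, fun k hk => absurd hk (by simp), Or.inl ⟨0, false, false, ?_, ?_⟩⟩
        · rw [cN_zero]
          simpa using hY
        · intro m hm
          exact absurd hm (Nat.not_lt_zero m)
      · exact (ih h6 h5.le).next (h.step γ h5 h6).2
    | limit γ hγ ih =>
      intro _ h4
      exact InvS.limit hγ (fun δ h5 h6 => (h.step δ (h5.trans_le h4) h6).2)
        (fun δ h5 h6 => ih δ h5 h6 (h5.le.trans h4)) (h.lim γ h4 hγ)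
  obtain ⟨X, hX, ⟨n, f, g, h3, -⟩ | ⟨g, h3⟩⟩ := key β h0 le_rfl
  · refine ⟨_, hX 0 ?_⟩
    rw [h3] at h1
    simpa [cont, bp] using h1
  · refine ⟨_, hX 0 ?_⟩
    rw [h3] at h1
    simpa [cont, bp] using h1

end Pool.Agent.HKM
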