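import Pool.Agent.HKM.Space93
import Pool.Agent.HKM.A1a23
import Pool.Agent.HKM.A1c23
import Pool.Agent.HKM.A2h44
import Pool.Agent.HKM.DMach70
import Pool.Agent.HKM.Diag70
import Pool.Agent.HKM.Sound28
import Pool.Agent.HKM.Cts24
import Pool.Agent.HKM.NoInf58
import Pool.Agent.HKM.Complete99
import Pool.Agent.HKM.Acs50

/-!
# The comparison of `PSPACE` and `NPSPACE`
-/

set_option autoImplicit false

namespace Pool.Agent.HKM

open Order Ordinal

theorem complete {E P N : ℕ → ℕ → Bool} {y : ℕ → Bool} (h : Acs E P N y 0) :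
    ∃ (V : Ordinal.{0} → Rl) (β : Ordinal.{0}), β ≠ 0 ∧ TT.Run (enc E P N) V β ∧ V β 0 = true :=
  complete_of sweep_init sweep_reset sweep_cont no_infinite_run h

/-- the set decided by the machine -/
def AM : Set Rl := {x | ∃ (b : Ordinal.{0} → Conf (St TT.S)) (ξ : Ordinal.{0}),
  TT.machine.Branch x b ξ ∧ (b ξ).Out true}

theorem AM_decides : TT.machine.Decides AM :=
  ⟨fun x => TT.allHalt x (no_infinite_run x), fun _ => Iff.rfl⟩

theorem FF_mem_AM (z : Rl) : FF z ∈ AM ↔ ∃ y : ℕ → Bool, ¬ ∃ g : ℕ → ℕ, ∀ n,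
    tab z (ini z n) (ini y n) (ini g n) = true := by
  rw [← acs_iff]
  constructor
  · rintro ⟨b, ξ, h1, h2⟩
    obtain ⟨β, V, h3, h4, h5⟩ := TT.run_of_accept h1 h2
    exact sound h4 h3 h5
  · rintro ⟨y, hy⟩
    obtain ⟨V, β, h3, h4, h5⟩ := complete hy
    exact TT.branch_of_run h4 h3 h5

theorem AM_not_decides (T : DMachine) : ¬ T.Decides AM := fun h =>
  not_sigma_compl AM FF continuous_FF FF_mem_AM (T.sigma h).2

theorem AM_mem (i : Fin 2) (f : Rl → Ordinal.{0})
    (h : ∀ x, size i x blank < (f x : WithTop Ordinal.{0})) : AM ∈ NPSPACE i f := by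
  refine ⟨TT.machine, AM_decides, fun x b ξ hb => lt_of_le_of_lt ?_ (h x)⟩
  unfold scratchSpace
  refine iSup₂_le fun γ hγ => ?_
  rw [TT.scratch_blank hb.1 γ hγ.le]

/-- all computations of the machine are countable -/
theorem branch_lt {x : Rl} {b : Ordinal.{0} → Conf (St TT.S)} {ξ : Ordinal.{0}}
    (h : TT.machine.Branch x b ξ) : ξ < ω₁ := by
  by_contra hc
  have h1 : ω * ω₁ = (ω₁ : Ordinal.{0}) :=
    Ordinal.isPrincipal_mul_iff_mul_left_eq.1 (Ordinal.isPrincipal_mul_omega 1) ω Ordinal.omega0_pos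
      Ordinal.omega0_lt_omega_one
  refine no_run_omega1 x ⟨_, TT.run_of_comp (b := b) ?_⟩
  rw [h1]
  exact h.1.mono (not_lt.1 hc)

/-! ### Small bounds -/

theorem size_le_scratchSpace {T : NMachine} (i : Fin 2) {x : Rl} {b : Ordinal.{0} → Conf T.Q}
    {ξ : Ordinal.{0}} (h : T.Branch x b ξ) (h0 : ξ ≠ 0) : size i x blank ≤ scratchSpace i x b ξ := by
  unfold scratchSpace
  refine le_trans ?_ (le_iSup₂ (f := fun (γ : Ordinal.{0}) (_ : γ < ξ) => size i x ((b γ).tp 1)) 0
    (pos_iff_ne_zero.2 h0))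
  exact size_blank_le i x _

theorem size_le_space {T : NMachine} (i : Fin 2) {x : Rl} {b : Ordinal.{0} → Conf T.Q}
    {ξ : Ordinal.{0}} (h0 : ξ ≠ 0) : size i x blank ≤ space i x b ξ := by
  unfold space
  refine le_trans ?_ (le_iSup₂ (f := fun (γ : Ordinal.{0}) (_ : γ < ξ) => size i x (whole (b γ).tp)) 0
    (pos_iff_ne_zero.2 h0))
  exact size_blank_le i x _

/-- if the start state is the halting state, nothing happens -/
theorem NMachine.branch_of_start {T : NMachine} (hT : T.start = T.halt) {x : Rl}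
    {b : Ordinal.{0} → Conf T.Q} {ξ : Ordinal.{0}} (h : T.Branch x b ξ) :
    ξ = 0 ∧ (b ξ).Out false := by
  have h0 : ξ = 0 := by
    by_contra hc
    refine (h.1.step 0 (pos_iff_ne_zero.2 hc)).1 ?_
    rw [h.1.zero]
    exact hT
  refine ⟨h0, ?_⟩
  subst h0
  intro n
  rw [h.1.zero]
  simp [NMachine.init]

theorem Conf.Out.unique {Q : Type} {c : Conf Q} {v w : Bool} (h1 : c.Out v) (h2 : c.Out w) :
    v = w := by
  have h3 := h1 0
  have h4 := h2 0
  rw [h3] at h4
  simpa using h4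

theorem NMachine.start_branch {T : NMachine} (hT : T.start = T.halt) (x : Rl) :
    T.Branch x (T.path x) 0 := by
  refine ⟨⟨T.path_zero x, fun γ hγ => absurd hγ (not_lt_zero ), fun l hl h => ?_⟩, ?_⟩
  · exact absurd (le_antisymm hl bot_le) (by simpa using h.ne_bot)
  · rw [T.path_zero]
    exact hT

/-- the trivial machine -/
def DMachine.triv : DMachine := ⟨Unit, inferInstance, (), (), (), fun q s => (q, s, .stay)⟩

theorem triv_allHalt (x : Rl) : DMachine.triv.toN.AllHalt x := by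
  refine ⟨fun b ξ _ hb => absurd rfl hb, ?_⟩
  rintro ⟨b, hb⟩
  exact ((hb 1).step 0 zero_lt_one).1 rfl

theorem triv_decides : DMachine.triv.Decides ∅ := by
  intro x
  have h := NMachine.start_branch (T := DMachine.triv.toN) rfl x
  exact ⟨_, _, h, false, (NMachine.branch_of_start rfl h).2, by simp⟩

theorem triv_ndecides : DMachine.triv.toN.Decides ∅ := by
  refine ⟨triv_allHalt, fun x => ⟨fun h => absurd h (Set.notMem_empty _), ?_⟩⟩
  rintro ⟨b, ξ, h1, h2⟩
  have h3 := (NMachine.branch_of_start (T := DMachine.triv.toN) rfl h1).2.unique h2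
  simp at h3

theorem triv_space (i : Fin 2) {x : Rl} {b : Ordinal.{0} → Conf DMachine.triv.toN.Q}
    {ξ : Ordinal.{0}} (h : DMachine.triv.toN.Branch x b ξ) :
    space i x b ξ = 0 ∧ scratchSpace i x b ξ = 0 := by
  have h0 : ξ = 0 := (NMachine.branch_of_start rfl h).1
  subst h0
  have h1 : (⊥ : WithTop Ordinal.{0}) = 0 := rfl
  unfold space scratchSpace
  constructor <;>
  · rw [← h1, iSup₂_eq_bot]
    intro γ hγ
    exact absurd hγ not_lt_zero

/-- the class of all sets decided by machines which halt at stage `0` -/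
def trivClass (f : Rl → Ordinal.{0}) : Set (Set Rl) := {A | A = ∅ ∧ ∀ x, 0 < f x}

theorem psp_small (i : Fin 2) (f : Rl → Ordinal.{0}) {x₀ : Rl}
    (h : (f x₀ : WithTop Ordinal.{0}) ≤ size i x₀ blank) : PSPACE i f = trivClass f := by
  ext A
  constructor
  · rintro ⟨T, h1, h2⟩
    have hT : T.toN.start = T.toN.halt := by
      obtain ⟨b, ξ, h3, -⟩ := h1 x₀
      have h4 : ξ = 0 := by
        by_contra hc
        exact absurd (lt_of_lt_of_le (h2 x₀ b ξ h3) h)
          (not_lt_of_ge (size_le_space (T := T.toN) i (b := b) hc))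
      subst h4
      rw [← h3.2, h3.1.zero]
      rfl
    constructor
    · ext x
      obtain ⟨b, ξ, h3, v, h4, h5⟩ := h1 x
      have h6 := (NMachine.branch_of_start hT h3).2.unique h4
      rw [← h5, ← h6]
      simp
    · intro x
      obtain ⟨b, ξ, h3, -⟩ := h1 x
      have h6 := lt_of_le_of_lt (zero_le (a := space i x b ξ)) (h2 x b ξ h3)
      exact_mod_cast h6
  · rintro ⟨h1, h2⟩
    subst h1
    refine ⟨DMachine.triv, triv_decides, fun x b ξ h3 => ?_⟩
    rw [(triv_space i h3).1]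
    exact_mod_cast h2 x

theorem npsp_small (i : Fin 2) (f : Rl → Ordinal.{0}) {x₀ : Rl}
    (h : (f x₀ : WithTop Ordinal.{0}) ≤ size i x₀ blank) : NPSPACE i f = trivClass f := by
  ext A
  constructor
  · rintro ⟨T, h1, h2⟩
    have hT : T.start = T.halt := by
      obtain ⟨b, ξ, h3⟩ := T.exists_branch x₀ (h1.1 x₀)
      have h4 : ξ = 0 := by
        by_contra hc
        exact absurd (lt_of_lt_of_le (h2 x₀ b ξ h3) h)
          (not_lt_of_ge (size_le_scratchSpace i h3 hc))
      subst h4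
      rw [← h3.2, h3.1.zero]
      rfl
    constructor
    · ext x
      rw [h1.2 x]
      simp only [Set.mem_empty_iff_false, iff_false]
      rintro ⟨b, ξ, h3, h4⟩
      have h6 := (NMachine.branch_of_start hT h3).2.unique h4
      simp at h6
    · intro x
      obtain ⟨b, ξ, h3⟩ := T.exists_branch x (h1.1 x)
      have h6 := lt_of_le_of_lt (zero_le (a := scratchSpace i x b ξ)) (h2 x b ξ h3)
      exact_mod_cast h6
  · rintro ⟨h1, h2⟩
    subst h1
    refine ⟨DMachine.triv.toN, triv_ndecides, fun x b ξ h3 => ?_⟩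
    rw [(triv_space i h3).2]
    exact_mod_cast h2 x

theorem main_classes (i : Fin 2) (f : Rl → Ordinal.{0}) :
    (PSPACE i f = NPSPACE i f ↔ ∃ x, (f x : WithTop Ordinal.{0}) ≤ size i x blank) ∧
    ((∀ x, size i x blank < (f x : WithTop Ordinal.{0})) →
      ∃ A ∈ NPSPACE i f, ∀ T : DMachine, ¬ T.Decides A) := by
  refine ⟨⟨fun h => ?_, fun h => ?_⟩, fun h => ⟨AM, AM_mem i f h, AM_not_decides⟩⟩
  · by_contra hc
    push Not at hc
    have h1 := AM_mem i f hc
    rw [← h] at h1
    obtain ⟨T, h2, -⟩ := h1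
    exact AM_not_decides T h2
  · obtain ⟨x₀, h1⟩ := h
    rw [psp_small i f h1, npsp_small i f h1]

end Pool.Agent.HKM
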