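import Pool.Agent.HKM.Cont

/-!
# The space of the blank tape; existence of branches
-/

set_option autoImplicit false

namespace Pool.Agent.HKM

open Order Ordinal

/-! ### `L_0[x]` and `L_1[x]` -/

theorem L_zero (x : Rl) : L x 0 = ∅ := by
  unfold L
  rw [Ordinal.limitRecOn_zero]

theorem L_one (x : Rl) : L x 1 = defSet x ∅ := by
  have h : L x (0 + 1) = defSet x (L x 0) := by
    unfold L
    rw [Ordinal.limitRecOn_add_one]
  rw [zero_add, L_zero] at h
  exact h

theorem realSet_blank : realSet blank = ∅ := by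
  rw [ZFSet.eq_empty]
  intro y hy
  unfold realSet at hy
  rw [ZFSet.mem_sep] at hy
  obtain ⟨_, n, h1, _⟩ := hy
  simp [blank] at h1

theorem empty_mem_L_one (x : Rl) : (∅ : ZFSet.{0}) ∈ L x 1 := by
  rw [L_one]
  unfold defSet
  rw [ZFSet.mem_sep]
  refine ⟨by rw [ZFSet.mem_powerset], ?_⟩
  let _ := strA x ∅
  have h : {z : {z : ZFSet.{0} // z ∈ (∅ : ZFSet.{0})} | z.1 ∈ (∅ : ZFSet.{0})} = ∅ := by
    ext z
    exact ⟨fun hz => absurd hz (ZFSet.notMem_empty _), fun hz => absurd hz (Set.notMem_empty _)⟩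
  rw [h]
  exact Set.definable_empty

theorem one_le_of_mem_L {x c : Rl} {η : Ordinal.{0}} (h : realSet c ∈ L x η) : 1 ≤ η := by
  rw [Order.one_le_iff_pos]
  rcases eq_or_ne η 0 with h0 | h0
  · rw [h0, L_zero] at h
    exact absurd h (ZFSet.notMem_empty _)
  · exact pos_iff_ne_zero.2 h0

theorem one_le_size_zero (x c : Rl) : (1 : WithTop Ordinal.{0}) ≤ size 0 x c := by
  unfold size
  rw [if_pos rfl]
  refine le_iInf fun η => le_iInf fun h => ?_
  exact_mod_cast one_le_of_mem_L h

/- S2 -/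
theorem size_zero_blank (x : Rl) : size 0 x blank = 1 := by
  refine le_antisymm ?_ (one_le_size_zero x blank)
  unfold size
  rw [if_pos rfl]
  have h : realSet blank ∈ L x 1 := by
    rw [realSet_blank]
    exact empty_mem_L_one x
  exact iInf₂_le (1 : Ordinal.{0}) h

/-! ### `ω₁^c` -/

/-- the oracle of a real -/
def orc (y : Rl) : ℕ →. ℕ := fun n => Part.some (y n).toNat

theorem blank_partrec : Nat.Partrec (orc blank) := by
  have h : orc blank = fun _ => Part.some 0 := by
    funext n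
    simp [orc, blank]
  rw [h]
  exact Nat.Partrec.zero

theorem CompRel.of_blank {y : Rl} {r : ℕ → ℕ → Prop} (h : CompRel blank r) : CompRel y r := by
  obtain ⟨g, h1, h2⟩ := h
  refine ⟨g, ?_, h2⟩
  unfold ComputableIn₂ ComputableIn RecursiveIn at h1 ⊢
  refine Nat.RecursiveIn.subst h1 ?_
  intro k hk
  have hk' : k = orc blank := hk
  rw [hk']
  exact blank_partrec.recursiveIn

theorem CompOrd.of_blank {y : Rl} {α : Ordinal.{0}} (h : CompOrd blank α) : CompOrd y α := by
  obtain ⟨r, D, h1, h2, h3, h4⟩ := h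
  exact ⟨r, D, h1.of_blank, h2.of_blank, h3, h4⟩

theorem CompOrd.lt_omega {y : Rl} {α : Ordinal.{0}} (h : CompOrd y α) : α < ω₁ := by
  obtain ⟨r, D, h1, h2, h3, h4⟩ := h
  rw [← h4, ← Cardinal.ord_aleph, Cardinal.lt_ord, Ordinal.card_type]
  exact lt_of_le_of_lt (Cardinal.mk_le_aleph0) (Cardinal.aleph0_lt_aleph_one)

theorem ck_blank_le (c : Rl) : ck blank ≤ ck c := by
  unfold ck
  refine csInf_le_csInf (OrderBot.bddBelow _) ?_ ?_
  · exact ⟨ω₁, fun h => lt_irrefl _ h.lt_omega⟩
  · intro α hα h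
    exact hα h.of_blank

/- S1 -/
theorem size_blank_le (i : Fin 2) (x c : Rl) : size i x blank ≤ size i x c := by
  rcases eq_or_ne i 0 with h | h
  · subst h
    rw [size_zero_blank]
    exact one_le_size_zero x c
  · unfold size
    rw [if_neg h, if_neg h]
    have h1 : ck blank + 1 ≤ ck c + 1 := by
      gcongr
      exact ck_blank_le c
    exact_mod_cast h1

/-! ### Branches -/

open Classical in
/-- a computation which takes some allowed action whenever there is one -/
noncomputable def NMachine.path (T : NMachine) (x : Rl) (ξ : Ordinal.{0}) : Conf T.Q :=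
  Ordinal.limitRecOn (motive := fun _ => Conf T.Q) ξ (T.init x)
    (fun _ c => if h : ∃ c', T.Step c c' then h.choose else c)
    (fun l _ f => ⟨T.lim, 0, fun i n =>
      decide (∀ γ, ∀ _ : γ < l, ∃ γ', ∃ h : γ' < l, γ ≤ γ' ∧ (f γ' h).tp i n = true)⟩)

theorem NMachine.path_zero (T : NMachine) (x : Rl) : T.path x 0 = T.init x := by
  unfold NMachine.path
  rw [Ordinal.limitRecOn_zero]

open Classical in
theorem NMachine.path_succ (T : NMachine) (x : Rl) (ξ : Ordinal.{0})
    (h : ∃ c', T.Step (T.path x ξ) c') : T.Step (T.path x ξ) (T.path x (ξ + 1)) := by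
  have h1 : T.path x (ξ + 1) = h.choose := by
    conv_lhs => unfold NMachine.path
    rw [Ordinal.limitRecOn_add_one]
    exact dif_pos h
  rw [h1]
  exact h.choose_spec

theorem NMachine.path_lim (T : NMachine) (x : Rl) (l : Ordinal.{0}) (hl : IsSuccLimit l) :
    T.IsLim (T.path x) l := by
  classical
  have h1 : T.path x l = ⟨T.lim, 0, fun i n =>
      decide (∀ γ, ∀ _ : γ < l, ∃ γ', ∃ h : γ' < l, γ ≤ γ' ∧ (T.path x γ').tp i n = true)⟩ := by
    conv_lhs => unfold NMachine.path
    rw [Ordinal.limitRecOn_limit _ _ _ _ hl]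
    rfl
  refine ⟨by rw [h1], by rw [h1], ?_⟩
  intro i n
  rw [h1]
  simp only [decide_eq_true_eq]
  constructor
  · intro h γ hγ
    obtain ⟨γ', h2, h3, h4⟩ := h γ hγ
    exact ⟨γ', h3, h2, h4⟩
  · intro h γ hγ
    obtain ⟨γ', h2, h3, h4⟩ := h γ hγ
    exact ⟨γ', h3, h2, h4⟩

/- S3: a nondeterministic machine all of whose computations on `x` halt has a branch -/
theorem NMachine.exists_branch (T : NMachine) (x : Rl) (h : T.AllHalt x) :
    ∃ b ξ, T.Branch x b ξ := by
  have h1 : ∃ ξ, (T.path x ξ).st = T.halt := by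
    by_contra hc
    push Not at hc
    refine h.2 ⟨T.path x, fun ξ => ?_⟩
    induction ξ using WellFoundedLT.induction with
    | ind ξ ih =>
      refine ⟨T.path_zero x, fun γ hγ => ⟨hc γ, T.path_succ x γ ?_⟩, fun l _ hl => T.path_lim x l hl⟩
      exact h.1 _ _ (ih γ hγ) (hc γ)
  obtain ⟨ξ, h2, h3⟩ := WellFounded.has_min (wellFounded_lt (α := Ordinal.{0}))
    {ξ | (T.path x ξ).st = T.halt} h1
  refine ⟨T.path x, ξ, ?_, h2⟩
  have h4 : ∀ γ ≤ ξ, T.IsComp x (T.path x) γ := by
    intro γ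
    induction γ using WellFoundedLT.induction with
    | ind γ ih =>
      intro hγ
      refine ⟨T.path_zero x, fun δ hδ => ?_, fun l _ hl => T.path_lim x l hl⟩
      have h5 : (T.path x δ).st ≠ T.halt := fun h6 => h3 δ h6 (lt_of_lt_of_le hδ hγ)
      exact ⟨h5, T.path_succ x δ (h.1 _ _ (ih δ hδ (le_trans hδ.le hγ)) h5)⟩
  exact h4 ξ le_rfl

/-! ### `ω₁^CK` -/

/-- `ω₁^CK`: the least ordinal which is not the order type of a computable well-ordering of a
computable subset of `ℕ` -/
noncomputable def omegaCK : Ordinal.{0} :=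
  sInf {α | ¬ ∃ (r : ℕ → ℕ → Prop) (D : Set ℕ), (∃ g : ℕ → ℕ → Bool, Computable₂ g ∧
    ∀ m n, r m n ↔ g m n = true) ∧ (∃ g : ℕ → Bool, Computable g ∧ ∀ n, n ∈ D ↔ g n = true) ∧
    ∃ _h : IsWellOrder D (fun a b => r a b), Ordinal.type (fun a b : D => r a b) = α}

theorem compRel_blank_iff {r : ℕ → ℕ → Prop} : CompRel blank r ↔
    ∃ g : ℕ → ℕ → Bool, Computable₂ g ∧ ∀ m n, r m n ↔ g m n = true := by
  constructor
  · rintro ⟨g, h1, h2⟩
    refine ⟨g, ?_, h2⟩
    unfold ComputableIn₂ ComputableIn RecursiveIn at h1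
    unfold Computable₂ Computable Partrec
    refine Nat.RecursiveIn.partrec_of_oracle ?_ h1
    intro k hk
    have hk' : k = orc blank := hk
    rw [hk']
    exact blank_partrec
  · rintro ⟨g, h1, h2⟩
    exact ⟨g, Computable.computableIn h1, h2⟩

theorem ck_blank : ck blank = omegaCK := by
  unfold ck omegaCK
  congr 1
  ext α
  simp only [Set.mem_ofPred_eq, not_iff_not]
  unfold CompOrd
  constructor
  · rintro ⟨r, D, h1, h2, h3⟩
    refine ⟨r, D, compRel_blank_iff.1 h1, ?_, h3⟩
    obtain ⟨g, h4, h5⟩ := compRel_blank_iff.1 h2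
    refine ⟨fun n => g n n, h4.comp Computable.id Computable.id, fun n => ?_⟩
    rw [← h5]
    simp
  · rintro ⟨r, D, h1, ⟨g, h4, h5⟩, h3⟩
    refine ⟨r, D, compRel_blank_iff.2 h1, compRel_blank_iff.2 ?_, h3⟩
    refine ⟨fun m n => decide (m = n) && g m, ?_, fun m n => ?_⟩
    · have h6 : Computable (fun p : ℕ × ℕ => decide (p.1 = p.2)) :=
        (Primrec.eq (α := ℕ)).decide.to_comp
      exact (Primrec.and.to_comp).comp h6 (h4.comp Computable.fst)
    · rw [h5]
      simp

theorem size_one_blank (x : Rl) : size 1 x blank = ((omegaCK + 1 : Ordinal.{0}) : WithTop _) := by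
  unfold size
  rw [if_neg (by decide), ck_blank]

end Pool.Agent.HKM
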