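import Pool.Agent.HKM.Cont

/-!
# B1: an ordinary sweep on an arbitrary tape (helper99)
-/

set_option autoImplicit false

namespace Pool.Agent.HKM

open Order Ordinal

private lemma runT_gen {r r' : Reg} {u u' : Bits} (h : runT r u r' u') :
    (∀ i, i ≠ iX → i ≠ iC → u' i = u i) ∧ u' iC = (u iC || (!u iC && !r.done)) ∧
    (r.post = false → (u iC = false ∧ r.done = false) →
      u iD = true ∧ (r.w = true → u iX = false ∧ u' iX = true) ∧ (r.w = false → u' iX = u iX) ∧
        r'.w = r.w ∧ r'.post = true ∧ r'.done = false) ∧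
    (r.post = false → (u iC = true) →
      u' iX = u iX ∧ r'.w = r.w ∧ r'.post = false ∧ r'.done = r.done) ∧
    (r.post = true → u' iX = u iX ∧ r'.post = true ∧
      (u iC = false → r.done = false → u iD = false ∧ r'.done = true) ∧
      ((u iC = true ∨ r.done = true) → u iD = true → r.done = true ∧ r'.done = false) ∧
      ((u iC = true ∨ r.done = true) → u iD = false → r'.done = r.done)) := by
  obtain ⟨h1, h2, h3⟩ := h
  refine ⟨h1, h2, ?_, ?_, ?_⟩
  · rintro hp ⟨hc, hd⟩
    simp only [hp, hc, hd, Bool.not_false, Bool.and_self, if_true] at h3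
    obtain ⟨h4, h5, h6, h7⟩ := h3
    subst h7
    exact ⟨h4, h5, h6, rfl, rfl, rfl⟩
  · intro hp hc
    simp only [hp, hc, Bool.not_true, Bool.false_and, if_true, Bool.false_eq_true, if_false] at h3
    obtain ⟨h4, h7⟩ := h3
    subst h7
    exact ⟨h4, rfl, rfl, rfl⟩
  · intro hp
    simp only [hp, Bool.true_eq_false, if_false] at h3
    obtain ⟨h4, h5⟩ := h3
    refine ⟨h4, ?_, ?_, ?_, ?_⟩
    · split_ifs at h5 with g1 g2
      · obtain ⟨-, -, h7⟩ := h5; subst h7; rfl
      · obtain ⟨-, -, h7⟩ := h5; subst h7; rfl
      · subst h5; exact hp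
    · intro hc hd
      simp only [hc, hd, Bool.not_false, Bool.and_self, if_true] at h5
      obtain ⟨h6, -, h7⟩ := h5
      subst h7
      exact ⟨h6, rfl⟩
    · intro hcd hD
      have hn : ¬ ((!u iC && !r.done) = true) := by
        rcases hcd with hc | hd
        · simp [hc]
        · simp [hd]
      rw [if_neg hn, if_pos hD] at h5
      obtain ⟨h6, -, h7⟩ := h5
      subst h7
      exact ⟨h6, rfl⟩
    · intro hcd hD
      have hn : ¬ ((!u iC && !r.done) = true) := by
        rcases hcd with hc | hd
        · simp [hc]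
        · simp [hd]
      rw [if_neg hn, if_neg (by simp [hD])] at h5
      rw [h5]

theorem sweep_gen {V V' : Rl} (h : TT.Sweep .lim V V')
    (hf : ¬ (cell V 0 iF1 = true ∧ cell V 0 iF2 = true)) {n : ℕ}
    (hC : ∀ p, cell V p iC = decide (idxD (fun p => cell V p iD) p < n))
    (hn : ∃ p, idxD (fun p => cell V p iD) p = n) :
    ∃ w : Bool,
      (∀ p i, i ≠ iX → i ≠ iC → (p = 0 → i ≠ iF1 ∧ i ≠ iF2 ∧ i ≠ iG) → cell V' p i = cell V p i) ∧
      cell V' 0 iF1 = (!cell V 0 iF1) ∧ cell V' 0 iF2 = (!cell V 0 iF2) ∧
      cell V' 0 iG = (cell V 0 iG || w) ∧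
      (∀ p, cell V' p iC = decide (idxD (fun p => cell V p iD) p < n + 1)) ∧
      (∃ p, idxD (fun p => cell V p iD) p = n + 1) ∧
      (∀ p, cell V p iX = true → cell V' p iX = true) ∧
      (w = true → ∃ p, cell V p iX = false ∧ cell V' p iX = true) := by
  obtain ⟨s, s0, hs⟩ := h
  have h0 := hs 0
  rw [s0] at h0
  rcases h0 with ⟨a, b, -⟩ | ⟨-, w, r1, u1, hr1, hs1, hu⟩
  · exact absurd ⟨a, b⟩ hf
  have ex : ∀ p, ∃ r : Reg, s (p + 1) = TS.run r := by
    intro p
    induction p with
    | zero => exact ⟨r1, hs1⟩
    | succ p ih =>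
      obtain ⟨r, hr⟩ := ih
      have h2 := hs (p + 1)
      rw [hr] at h2
      obtain ⟨r', h3, -⟩ := h2
      exact ⟨r', h3⟩
  choose r hr using ex
  set R : ℕ → Reg := fun p => Nat.casesOn p ⟨w, false, false, false, false, false, false⟩ r
    with hR
  set W : ℕ → Bits := fun p => if p = 0 then u1 else cell V' p with hW
  have run : ∀ p, runT (R p) (cell V p) (R (p + 1)) (W p) := by
    intro p
    cases p with
    | zero =>
      have e1 : r 0 = r1 := by
        have := (hr 0).symm.trans hs1
        exact TS.run.inj this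
      simpa [hR, hW, e1] using hr1
    | succ p =>
      have h2 := hs (p + 1)
      rw [hr p] at h2
      obtain ⟨r', h3, h4⟩ := h2
      have e1 : r (p + 1) = r' := by
        have := (hr (p + 1)).symm.trans h3
        exact TS.run.inj this
      simpa [hR, hW, e1] using h4
  set D : ℕ → Bool := fun p => cell V p iD with hD
  have gen := fun p => runT_gen (run p)
  -- the first cell number `n`
  classical
  obtain ⟨q, hq, hqm⟩ : ∃ q, idxD D q = n ∧ ∀ p < q, idxD D p ≠ n :=
    ⟨Nat.find hn, Nat.find_spec hn, fun p hp => Nat.find_min hn hp⟩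
  have idx1 : ∀ p, D p = true → idxD D (p + 1) = 0 := by
    intro p hp; simp [idxD, hp]
  have idx0 : ∀ p, D p = false → idxD D (p + 1) = idxD D p + 1 := by
    intro p hp; simp [idxD, hp]
  have lt : ∀ p < q, idxD D p < n := by
    intro p hp
    induction p with
    | zero =>
      have := hqm 0 hp
      have h0 : idxD D 0 = 0 := rfl
      omega
    | succ p ih =>
      have h1 := ih (by omega)
      have h2 := hqm (p + 1) hp
      rcases Bool.eq_false_or_eq_true (D p) with h3 | h3
      · rw [idx1 p h3] at h2 ⊢; omega
      · rw [idx0 p h3] at h2 ⊢; omega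
  have Cc : ∀ p, cell V p iC = true ↔ idxD D p < n := by
    intro p; rw [hC p]; simp
  have Cf : ∀ p, cell V p iC = false ↔ n ≤ idxD D p := by
    intro p; rw [hC p]; simp
  have pre : ∀ p ≤ q, (R p).post = false ∧ (R p).done = false ∧ (R p).w = w := by
    intro p hp
    induction p with
    | zero => exact ⟨rfl, rfl, rfl⟩
    | succ p ih =>
      obtain ⟨i1, i2, i3⟩ := ih (by omega)
      obtain ⟨-, -, -, g, -⟩ := gen p
      obtain ⟨-, g2, g3, g4⟩ := g i1 ((Cc p).2 (lt p (by omega)))
      exact ⟨g3, g4.trans i2, g2.trans i3⟩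
  obtain ⟨pq1, pq2, pq3⟩ := pre q le_rfl
  obtain ⟨-, -, atq, -, -⟩ := gen q
  obtain ⟨Dq, x1, x2, -, pq4, pq5⟩ := atq pq1 ⟨(Cf q).2 (by omega), pq2⟩
  have post : ∀ j, (R (q + 1 + j)).post = true ∧
      (R (q + 1 + j)).done = decide (n < idxD D (q + 1 + j)) := by
    intro j
    induction j with
    | zero =>
      refine ⟨pq4, ?_⟩
      have : idxD D (q + 1 + 0) = 0 := idx1 q Dq
      rw [this]
      simpa using pq5
    | succ j ih =>
      obtain ⟨i1, i2⟩ := ih
      obtain ⟨-, -, -, -, g⟩ := gen (q + 1 + j)
      obtain ⟨-, g1, g2, g3, g4⟩ := g i1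
      refine ⟨g1, ?_⟩
      have hh : q + 1 + (j + 1) = q + 1 + j + 1 := rfl
      rw [hh]
      rcases Bool.eq_false_or_eq_true (R (q + 1 + j)).done with hd | hd
      · have h5 : n < idxD D (q + 1 + j) := by rw [hd] at i2; simpa using i2.symm
        rcases Bool.eq_false_or_eq_true (D (q + 1 + j)) with h3 | h3
        · rw [(g3 (Or.inr hd) h3).2, idx1 _ h3]; simp
        · rw [g4 (Or.inr hd) h3, idx0 _ h3, hd]
          symm
          rw [decide_eq_true_eq]
          omega
      · have h5 : idxD D (q + 1 + j) ≤ n := by
          rw [hd] at i2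
          simpa using i2.symm
        by_cases h6 : idxD D (q + 1 + j) < n
        · have h7 := (Cc _).2 h6
          have h3 : D (q + 1 + j) = false := by
            rcases Bool.eq_false_or_eq_true (D (q + 1 + j)) with h3 | h3
            · have := (g3 (Or.inl h7) h3).1
              rw [hd] at this
              exact absurd this (by simp)
            · exact h3
          rw [g4 (Or.inl h7) h3, idx0 _ h3, hd]
          symm
          rw [decide_eq_false_iff_not]
          omega
        · obtain ⟨g5, g6⟩ := g2 ((Cf _).2 (by omega)) hd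
          rw [g6, idx0 _ g5]
          symm
          rw [decide_eq_true_eq]
          omega
  have postp : ∀ p, q < p → (R p).post = true ∧ (R p).done = decide (n < idxD D p) := by
    intro p hp
    have := post (p - (q + 1))
    rwa [show q + 1 + (p - (q + 1)) = p from by omega] at this
  have WX : ∀ p, cell V' p iX = W p iX := by
    intro p
    by_cases hp : p = 0
    · subst hp
      rw [hu, Function.update_of_ne (by decide), Function.update_of_ne (by decide),
        Function.update_of_ne (by decide)]
      simp [hW]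
    · simp [hW, hp]
  have WC : ∀ p, cell V' p iC = W p iC := by
    intro p
    by_cases hp : p = 0
    · subst hp
      rw [hu, Function.update_of_ne (by decide), Function.update_of_ne (by decide),
        Function.update_of_ne (by decide)]
      simp [hW]
    · simp [hW, hp]
  have hXq : w = true → cell V q iX = false ∧ W q iX = true := fun hw => x1 (pq3.trans hw)
  refine ⟨w, ?_, ?_, ?_, ?_, ?_, ?_, ?_, ?_⟩
  · intro p i h1 h2 h3
    have h4 := (gen p).1 i h1 h2
    by_cases hp : p = 0
    · subst hp
      obtain ⟨k1, k2, k3⟩ := h3 rfl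
      rw [hu, Function.update_of_ne k3, Function.update_of_ne k2, Function.update_of_ne k1]
      simpa [hW] using h4
    · simpa [hW, hp] using h4
  · rw [hu]
    rw [Function.update_of_ne (by decide), Function.update_of_ne (by decide),
      Function.update_self]
  · rw [hu]
    rw [Function.update_of_ne (by decide), Function.update_self]
  · rw [hu]
    rw [Function.update_self]
  · intro p
    rw [WC p, (gen p).2.1]
    rcases lt_trichotomy p q with hp | hp | hp
    · rw [(Cc p).2 (lt p hp)]
      have := lt p hp
      symm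
      simp only [Bool.true_or, decide_eq_true_eq]
      omega
    · subst hp
      rw [(Cf p).2 (by omega), pq2, hq]
      simp
    · rw [(postp p hp).2]
      by_cases h1 : idxD D p < n
      · rw [(Cc p).2 h1]
        symm
        simp only [Bool.true_or, decide_eq_true_eq]
        omega
      · rw [(Cf p).2 (by omega)]
        by_cases h2 : n < idxD D p
        · simp only [h2, decide_true, Bool.not_false, Bool.true_and, Bool.not_true, Bool.or_false]
          symm
          rw [decide_eq_false_iff_not]
          omega
        · simp only [h2, decide_false, Bool.not_false, Bool.true_and, Bool.or_true]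
          symm
          rw [decide_eq_true_eq]
          omega
  · -- the cell number `n + 1`
    have key : ∀ j ≤ n, idxD D (q + 1 + j) = j := by
      intro j hj
      induction j with
      | zero => exact idx1 q Dq
      | succ j ih =>
        have i1 := ih (by omega)
        obtain ⟨p1, p2⟩ := post j
        have hd : (R (q + 1 + j)).done = false := by
          rw [p2, i1]; simp; omega
        obtain ⟨-, -, -, -, g⟩ := gen (q + 1 + j)
        obtain ⟨-, g1, g2, g3, g4⟩ := g p1
        have h7 := (Cc (q + 1 + j)).2 (by omega)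
        have h3 : D (q + 1 + j) = false := by
          rcases Bool.eq_false_or_eq_true (D (q + 1 + j)) with h3 | h3
          · have := (g3 (Or.inl h7) h3).1
            rw [hd] at this
            exact absurd this (by simp)
          · exact h3
        rw [show q + 1 + (j + 1) = q + 1 + j + 1 from rfl, idx0 _ h3, i1]
    have i1 := key n le_rfl
    obtain ⟨p1, p2⟩ := post n
    have hd : (R (q + 1 + n)).done = false := by
      rw [p2, i1]; simp
    obtain ⟨-, -, -, -, g⟩ := gen (q + 1 + n)
    obtain ⟨-, g1, g2, g3, g4⟩ := g p1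
    obtain ⟨g5, -⟩ := g2 ((Cf _).2 (by omega)) hd
    exact ⟨q + 1 + n + 1, by rw [idx0 _ g5, i1]⟩
  · intro p hp
    rw [WX p]
    rcases lt_trichotomy p q with h1 | h1 | h1
    · obtain ⟨i1, i2, i3⟩ := pre p h1.le
      obtain ⟨-, -, -, g, -⟩ := gen p
      rw [(g i1 ((Cc p).2 (lt p h1))).1]
      exact hp
    · subst h1
      rcases Bool.eq_false_or_eq_true w with hw | hw
      · exact (hXq hw).2
      · rw [x2 (pq3.trans hw)]
        exact hp
    · obtain ⟨-, -, -, -, g⟩ := gen p
      rw [(g (postp p h1).1).1]
      exact hp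
  · intro hw
    exact ⟨q, (hXq hw).1, by rw [WX q]; exact (hXq hw).2⟩

end Pool.Agent.HKM
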