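import Pool.Agent.HKM.Defs

/-!
# The right-moving machine

A transducer works on logical cells of ten bits (cell `p` of a real `V` consists of the bits
`V (10 * p + i)`, `i < 10`) and sweeps to the right.  `Trans.machine` is the nondeterministic
machine which runs it on the input tape: it guesses the ten bits of the next logical cell together
with the transition of the transducer and then checks them.  It may give up at any time, and it
accepts at a limit stage if it reads the symbol `1` in cell `0` of the input tape.
-/

set_option autoImplicit false

namespace Pool.Agent.HKM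

open Order

/-- a logical cell -/
abbrev Bits := Fin 10 → Bool

abbrev iX : Fin 10 := 0
abbrev iF1 : Fin 10 := 1
abbrev iF2 : Fin 10 := 2
abbrev iG : Fin 10 := 3
abbrev iC : Fin 10 := 4
abbrev iD : Fin 10 := 5
abbrev iE : Fin 10 := 6
abbrev iP : Fin 10 := 7
abbrev iN : Fin 10 := 8
abbrev iY : Fin 10 := 9

/-- the bits of the logical cell `p` of `V` -/
def cell (V : Rl) (p : ℕ) : Bits := fun i => V (10 * p + i.val)

/-- a transducer: finitely many states, `s0` at the start, `s1` at limit stages -/
structure Trans where
  S : Type
  fin : Finite S
  s0 : S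
  s1 : S
  t : S → Bits → S → Bits → Prop

/-- a complete sweep, from state `σ`, turning `V` into `V'` -/
def Trans.Sweep (T : Trans) (σ : T.S) (V V' : Rl) : Prop :=
  ∃ s : ℕ → T.S, s 0 = σ ∧ ∀ p, T.t (s p) (cell V p) (s (p + 1)) (cell V' p)

/-- `l`-th value is the lim sup of the earlier values -/
def LimSup (V : Ordinal.{0} → Rl) (l : Ordinal.{0}) : Prop :=
  ∀ n, V l n = true ↔ ∀ γ < l, ∃ γ', γ ≤ γ' ∧ γ' < l ∧ V γ' n = true

/-- a run of sweeps, of length `β`: `V γ` is the content after `γ` sweeps -/
structure Trans.Run (T : Trans) (x : Rl) (V : Ordinal.{0} → Rl) (β : Ordinal.{0}) : Prop where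
  zero : V 0 = x
  first : 0 < β → T.Sweep T.s0 (V 0) (V 1)
  step : ∀ γ < β, γ ≠ 0 → V γ 0 = false ∧ T.Sweep T.s1 (V γ) (V (γ + 1))
  lim : ∀ l ≤ β, IsSuccLimit l → LimSup V l

/-- the states of the machine -/
inductive St (S : Type)
  | start
  | halt
  | lim
  | cell (s : S)
  | mid (s : S) (u u' : Bits) (i : Fin 10)

/-- the transducer state of a machine state which is about to read the first bit of a cell -/
def Trans.tst (T : Trans) : St T.S → T.S → Prop
  | .start, s => s = T.s0
  | .lim, s => s = T.s1
  | .cell r, s => s = r
  | _, _ => False

/-- moving over the input tape: state `q`, symbol `a` read, new state `q'`, symbol `a'` written -/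
def Trans.tr (T : Trans) (q : St T.S) (a : Bool) (q' : St T.S) (a' : Bool) : Prop :=
  (∃ s s' u u', T.tst q s ∧ T.t s u s' u' ∧ a = u 0 ∧ a' = u' 0 ∧ q' = .mid s' u u' 1) ∨
  (∃ s' u u' i, q = .mid s' u u' i ∧ a = u i ∧ a' = u' i ∧
    q' = if i = 9 then .cell s' else .mid s' u u' (i + 1))

/-- the machine of a transducer -/
def Trans.machine (T : Trans) : NMachine where
  Q := St T.S
  fin := by
    have := T.fin
    have h : Function.Injective (fun q : St T.S => (match q with
      | .start => (some (none : Option (T.S ⊕ Unit)), (fun _ => true), (fun _ => true), 0)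
      | .halt => (some (none : Option (T.S ⊕ Unit)), (fun _ => true), (fun _ => true), 1)
      | .lim => (some (none : Option (T.S ⊕ Unit)), (fun _ => true), (fun _ => true), 2)
      | .cell s => (some (some (Sum.inl s)), (fun _ => true), (fun _ => true), 3)
      | .mid s u u' i => (some (some (Sum.inl s)), u, u', ⟨i.val + 4, by omega⟩) :
        Option (Option (T.S ⊕ Unit)) × Bits × Bits × Fin 14)) := by
      intro a b hab
      cases a <;> cases b <;>
        simp_all only [Prod.mk.injEq, Option.some.injEq, Sum.inl.injEq, reduceCtorEq, Fin.ext_iff,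
          true_and, and_true, false_and] <;>
        first
          | rfl
          | (exfalso; simp at hab; done)
          | (obtain ⟨h1, h2, h3, h4⟩ := hab; congr 1; apply Fin.ext; omega)
    exact Finite.of_injective _ h
  start := .start
  halt := .halt
  lim := .lim
  act q a q' a' d :=
    (q' = .halt ∧ a' = a ∧ d = .stay) ∨
    (q = .lim ∧ a 0 = true ∧ q' = .halt ∧ a' = Function.update a 2 true ∧ d = .stay) ∨
    (¬ (q = .lim ∧ a 0 = true) ∧ T.tr q (a 0) q' (a' 0) ∧ a' 1 = a 1 ∧ a' 2 = a 2 ∧ d = .right)

/-! ### The transducer of the problem -/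

/-- registers during an ordinary sweep: `w` a claim is made in this sweep, `post` the block of the
current number has been passed, `chk` the claim is still to be checked, `yv` the guessed bit,
`done` the current block has been dealt with, `e` the edge bit read in the current block, `mm` a
mismatch has been seen in the current block -/
structure Reg where
  w : Bool
  post : Bool
  chk : Bool
  yv : Bool
  done : Bool
  e : Bool
  mm : Bool
deriving DecidableEq

instance : Finite Reg :=
  Finite.of_injective (fun r : Reg => (r.w, r.post, r.chk, r.yv, r.done, r.e, r.mm)) (by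
    rintro ⟨⟩ ⟨⟩ h
    simp_all)

/-- transducer states -/
inductive TS
  | init
  | lim
  | reset
  | run (r : Reg)
deriving DecidableEq

/-- one cell of an ordinary sweep -/
def runT (r : Reg) (u : Bits) (r' : Reg) (u' : Bits) : Prop :=
  let cur : Bool := !u iC && !r.done
  let mm' : Bool := r.mm || (u iP && (u iY != u iN))
  (∀ i, i ≠ iX → i ≠ iC → u' i = u i) ∧ u' iC = (u iC || cur) ∧
  if r.post = false then
    if cur = true then
      u iD = true ∧ (r.w = true → u iX = false ∧ u' iX = true) ∧ (r.w = false → u' iX = u iX) ∧
        r' = ⟨r.w, true, r.w && !mm', u iY, false, false, false⟩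
    else u' iX = u iX ∧ r' = { r with mm := mm' && !u iD }
  else
    u' iX = u iX ∧
      if cur = true then u iD = false ∧ u iY = r.yv ∧ r' = { r with done := true, e := u iE }
      else
        if u iD = true then
          r.done = true ∧ ¬ (r.chk = true ∧ r.e = true ∧ u iX = false) ∧
            r' = { r with done := false, e := false }
        else r' = r

/-- the first cell of a sweep after a limit stage -/
def limT (u : Bits) (s' : TS) (u' : Bits) : Prop :=
  (u iF1 = true ∧ u iF2 = true ∧ u iG = true ∧ s' = .reset ∧
    u' = Function.update (Function.update (Function.update u iF1 false) iG false) iC false) ∨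
  (¬ (u iF1 = true ∧ u iF2 = true) ∧ ∃ w r' u1,
    runT ⟨w, false, false, false, false, false, false⟩ u r' u1 ∧ s' = .run r' ∧
    u' = Function.update (Function.update (Function.update u1 iF1 (!u iF1)) iF2 (!u iF2)) iG
      (u iG || w))

/-- the transition relation of the transducer -/
def tT : TS → Bits → TS → Bits → Prop
  | .init, u, s', u' => s' = .init ∧ u' iX = false ∧ u' iF1 = false ∧ u' iF2 = true ∧
      u' iG = false ∧ u' iC = false ∧ u' iD = u iD ∧ u' iE = u iE ∧ u' iP = u iP ∧ u' iN = u iN
  | .lim, u, s', u' => limT u s' u'
  | .reset, u, s', u' => s' = .reset ∧ u' = Function.update u iC false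
  | .run r, u, s', u' => ∃ r', s' = .run r' ∧ runT r u r' u'

/-- the transducer -/
def TT : Trans where
  S := TS
  fin := by
    have h : Function.Injective (fun q : TS => (match q with
      | .init => (0, none)
      | .lim => (1, none)
      | .reset => (2, none)
      | .run r => (3, some r) : Fin 4 × Option Reg)) := by
      intro a b hab
      cases a <;> cases b <;> simp_all
    exact Finite.of_injective _ h
  s0 := .init
  s1 := .lim
  t := tT

end Pool.Agent.HKM
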